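import Pool.Agent.Lib.MP_eb164e_co.UB.Conf

/-!
# Raised vertices without neighbour on their side
-/

set_option autoImplicit false

noncomputable section

open Classical Finset

namespace Pool.Agent.MP_eb164e_co.UB

variable {V : Type} [Fintype V] {G : SimpleGraph V}

/-- candidates with a neighbour outside `A` which does not see `D` -/
def lts (G : SimpleGraph V) (A D : Finset V) : Finset V :=
  (inn G Aᶜ).filter fun x => 1 ≤ nbc G x D ∧ ∀ w ∈ Aᶜ, G.Adj x w → nbc G w D = 0

/-- full vertices of `A` without neighbour in `A` all of whose neighbours are candidates -/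
def e0 (G : SimpleGraph V) (A D U : Finset V) : Finset V :=
  (A \ D).filter fun e => e ∉ inn G A ∧ nbc G e (blk G A D U) = 2 ∧
    nbc G e (top0 G A U ∪ low G A D U) = 1

/-- those which are raised -/
def er (G : SimpleGraph V) (A D U : Finset V) : Finset V :=
  (e0 G A D U).filter fun e => nbc G e (lts G A D) ≤ 1

/-- those which are not raised -/
def eo (G : SimpleGraph V) (A D U : Finset V) : Finset V :=
  (e0 G A D U).filter fun e => 2 ≤ nbc G e (lts G A D)

/-- a candidate has at most one neighbour in `A \ D` -/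
theorem Conf.cand_unique (hG : IsCubic G) {A D U : Finset V} (h : Conf G A D U) {x a b : V}
    (hx : x ∈ cands G A D) (ha : a ∈ A \ D) (hb : b ∈ A \ D) (hxa : G.Adj x a) (hxb : G.Adj x b) : a = b := by
  have h1 : nbc G x (A \ D) ≤ 1 := by
    have e1 := nbc_compl hG x A
    have e2 := nbc_sdiff (G := G) x h.hDA
    unfold cands at hx
    obtain ⟨hxA, hc⟩ := mem_filter.1 hx
    rcases hc with ⟨hi, h2⟩ | ⟨hi, h1⟩
    · omega
    · have := nbc_inn h.hB' hi
      omega
  unfold nbc at h1
  exact card_le_one.1 h1 a (mem_filter.2 ⟨ha, hxa⟩) b (mem_filter.2 ⟨hb, hxb⟩)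

end Pool.Agent.MP_eb164e_co.UB
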