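import Pool.Agent.Lib.MP_eb164e_co.UB.Sets
import Pool.Agent.Lib.MP_eb164e_co.UB.Conf16

/-!
# The function belonging to a configuration and a set of moves
-/

set_option autoImplicit false

noncomputable section

open Classical Finset

namespace Pool.Agent.MP_eb164e_co.UB

set_option linter.unusedSectionVars false

variable {V : Type} [Fintype V] {G : SimpleGraph V}

/-- the vertices of `P` are raised to `2`, those of `N0`, `N1`, `N2` get `-1`, those of `L` and `K` get `1`, and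
only the part `U'` of `U` is used -/
structure Moves20 (G : SimpleGraph V) (A D U P U' N0 N1 N2 L K : Finset V) : Prop where
  hP : P ⊆ A \ D
  hU : U' ⊆ U
  hW : ∀ w ∈ N0 ∪ N1 ∪ N2 ∪ L, w ∈ cands G A D ∧ (w ∈ blk G A D U ∨ w ∈ U) ∧ w ∉ U'
  d0 : Disjoint N0 (N1 ∪ N2 ∪ L)
  d1 : Disjoint N1 (N2 ∪ L)
  d2 : Disjoint N2 L
  hcap : ∀ v ∈ A \ D, v ∉ P → nbc G v (U' ∪ (N0 ∪ N1 ∪ N2 ∪ L) ∪ K) + nbc G v (A \ P) ≤ 1
  hK : ∀ w ∈ K, w ∈ Aᶜ ∧ nbc G w D = 0 ∧ ∃ z ∈ blk G A D U, G.Adj w z ∧ z ∉ N0 ∪ N1 ∪ N2 ∪ L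
  hKB : ∀ w ∈ K, w ∈ inn G Aᶜ
  h0 : ∀ w ∈ N0, w ∈ inn G Aᶜ ∧ (∃ q ∈ P, G.Adj w q) ∧
    ∀ z ∈ Aᶜ, G.Adj w z → z ∉ N0 ∪ N1 ∪ N2 ∪ L ∧ 1 ≤ nbc G z D
  h1 : ∀ w ∈ N1, (∃ q ∈ P, G.Adj w q) ∧ ∀ z ∈ Aᶜ, G.Adj w z → 1 ≤ nbc G z D
  h2 : ∀ w ∈ N2, w ∉ inn G Aᶜ
  hL : ∀ w ∈ L, (∃ q ∈ P, G.Adj w q) ∨ ∃ z ∈ Aᶜ, G.Adj w z ∧ z ∉ N0 ∪ N1 ∪ N2 ∪ L ∧ 1 ≤ nbc G z D
  hq : ∀ q ∈ P, ∃ z ∈ Aᶜ, G.Adj q z ∧ z ∉ U' ∧ z ∉ N0 ∪ N1 ∪ N2

theorem build20 (hG : IsCubic G) {A D U P U' N0 N1 N2 L K : Finset V} (h : Conf G A D U)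
    (k : Moves20 G A D U P U' N0 N1 N2 L K) : ∃ f : V → ℤ, IsSDRDF G f ∧
      ∑ v, f v ≤ 2 * (Aᶜ.card : ℤ) - A.card + 2 * D.card + 3 * P.card -
        ((top0 G A U ∩ U').card + (low G A D U ∩ U').card + 2 * (flp G A D U ∩ U').card +
          3 * N0.card + 2 * N1.card + N2.card + L.card + K.card) := by
  -- basic facts
  have hPAD : ∀ q ∈ P, q ∈ A \ D := fun q hq => k.hP hq
  have hUc : ∀ u ∈ U, u ∈ Aᶜ := fun u hu => cands_compl (h.hUK hu)
  have hcand : ∀ b, b ∉ inn G Aᶜ → b ∈ cands G A D → 2 ≤ nbc G b D := by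
    intro b hb hbc
    unfold cands at hbc
    rcases (mem_filter.1 hbc).2 with h1 | h1
    · exact h1.2
    · exact absurd h1.1 hb
  have hcand1 : ∀ b ∈ cands G A D, 1 ≤ nbc G b D := by
    intro b hbc
    unfold cands at hbc
    rcases (mem_filter.1 hbc).2 with h1 | h1
    · omega
    · exact h1.2
  have w0 : ∀ w ∈ N0, w ∈ N0 ∪ N1 ∪ N2 ∪ L := by
    intro w hw
    simp [hw]
  have w1 : ∀ w ∈ N1, w ∈ N0 ∪ N1 ∪ N2 ∪ L := by
    intro w hw
    simp [hw]
  have w2 : ∀ w ∈ N2, w ∈ N0 ∪ N1 ∪ N2 ∪ L := by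
    intro w hw
    simp [hw]
  have wL : ∀ w ∈ L, w ∈ N0 ∪ N1 ∪ N2 ∪ L := by
    intro w hw
    simp [hw]
  have hWc : ∀ w ∈ N0 ∪ N1 ∪ N2 ∪ L, w ∈ Aᶜ := fun w hw => cands_compl (k.hW w hw).1
  have hKc : ∀ w ∈ K, w ∉ cands G A D := by
    intro w hw hwc
    have h1 := hcand1 w hwc
    have h2 := (k.hK w hw).2.1
    omega
  have hKD : ∀ w, 1 ≤ nbc G w D → w ∉ K := by
    intro w hw hwK
    have h2 := (k.hK w hwK).2.1
    omega
  have hWU : ∀ w ∈ N0 ∪ N1 ∪ N2 ∪ L, ∀ u ∈ U, ¬ G.Adj w u := by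
    intro w hw u hu hwu
    rcases (k.hW w hw).2.1 with h1 | h1
    · exact (mem_blk.1 h1).2.2 u hu hwu
    · exact h.hind w h1 u hu hwu
  -- the raised vertices
  obtain ⟨R1, hR1, hR1n, hR1c⟩ := exists_raise (G := G) (D := D) (T := top0 G A U ∩ U') 2 (by
    intro t ht
    obtain ⟨h1, h2⟩ := mem_filter.1 (mem_inter.1 ht).1
    exact hcand t h2 (h.hUK h1))
  obtain ⟨R2, hR2, hR2n, hR2c⟩ := exists_raise (G := G) (D := D) (T := flp G A D U ∩ U') 1 (by
    intro t ht
    exact hcand1 t (h.hUK (mem_filter.1 (mem_inter.1 ht).1).1))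
  obtain ⟨R3, hR3, hR3n, hR3c⟩ := exists_raise (G := G) (D := D) (T := N1) 1 (by
    intro t ht
    exact hcand1 t (k.hW t (w1 t ht)).1)
  obtain ⟨R4, hR4, hR4n, hR4c⟩ := exists_raise (G := G) (D := D) (T := N2) 2 (by
    intro t ht
    exact hcand t (k.h2 t ht) (k.hW t (w2 t ht)).1)
  obtain ⟨R, hRdef⟩ : ∃ R, R = R1 ∪ R2 ∪ R3 ∪ R4 := ⟨_, rfl⟩
  have hRD : R ⊆ D := by
    rw [hRdef]
    exact union_subset (union_subset (union_subset hR1 hR2) hR3) hR4
  have hs1 : R1 ⊆ R := by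
    rw [hRdef]
    intro x hx
    simp [hx]
  have hs2 : R2 ⊆ R := by
    rw [hRdef]
    intro x hx
    simp [hx]
  have hs3 : R3 ⊆ R := by
    rw [hRdef]
    intro x hx
    simp [hx]
  have hs4 : R4 ⊆ R := by
    rw [hRdef]
    intro x hx
    simp [hx]
  have hRc : R.card ≤ 2 * (top0 G A U ∩ U').card + (flp G A D U ∩ U').card + N1.card + 2 * N2.card := by
    have e1 := card_union_le (R1 ∪ R2 ∪ R3) R4
    have e2 := card_union_le (R1 ∪ R2) R3
    have e3 := card_union_le R1 R2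
    rw [hRdef]
    omega
  -- the sets
  obtain ⟨N, hN⟩ : ∃ N, N = N0 ∪ N1 ∪ N2 := ⟨_, rfl⟩
  have hNW : ∀ x ∈ N, x ∈ N0 ∪ N1 ∪ N2 ∪ L := by
    intro x hx
    rw [hN] at hx
    exact mem_union_left _ hx
  have hNL : Disjoint N L := by
    rw [hN, disjoint_union_left, disjoint_union_left]
    refine ⟨⟨?_, ?_⟩, k.d2⟩
    · exact disjoint_of_subset_right (subset_union_right) k.d0
    · exact disjoint_of_subset_right (subset_union_right) k.d1
  have hNc : N.card = N0.card + N1.card + N2.card := by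
    rw [hN, card_union_of_disjoint, card_union_of_disjoint]
    · exact disjoint_of_subset_right (subset_union_left.trans subset_union_left) k.d0
    · rw [disjoint_union_left]
      exact ⟨disjoint_of_subset_right (subset_union_right.trans subset_union_left) k.d0,
        disjoint_of_subset_right subset_union_left k.d1⟩
  obtain ⟨M, hM⟩ : ∃ M, M = ((A \ D) \ P) ∪ ((top0 G A U ∩ U') ∪ (flp G A D U ∩ U') ∪ N) := ⟨_, rfl⟩
  obtain ⟨O, hO⟩ : ∃ O, O = (D \ R) ∪ ((low G A D U ∩ U') ∪ L ∪ K) := ⟨_, rfl⟩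
  have hMu : ∀ x ∈ (top0 G A U ∩ U') ∪ (flp G A D U ∩ U') ∪ N, x ∈ Aᶜ := by
    intro x hx
    rcases mem_union.1 hx with hx | hx
    · rcases mem_union.1 hx with hx | hx
      · exact hUc x (k.hU (mem_inter.1 hx).2)
      · exact hUc x (k.hU (mem_inter.1 hx).2)
    · exact hWc x (hNW x hx)
  have hOu : ∀ x ∈ (low G A D U ∩ U') ∪ L ∪ K, x ∈ Aᶜ := by
    intro x hx
    rcases mem_union.1 hx with hx | hx
    · rcases mem_union.1 hx with hx | hx
      · exact hUc x (k.hU (mem_inter.1 hx).2)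
      · exact hWc x (wL x hx)
    · exact (k.hK x hx).1
  -- membership
  have mMA : ∀ x ∈ A, x ∈ M → x ∉ D ∧ x ∉ P := by
    intro x hx hxM
    rw [hM] at hxM
    rcases mem_union.1 hxM with h1 | h1
    · obtain ⟨h2, h3⟩ := mem_sdiff.1 h1
      exact ⟨(mem_sdiff.1 h2).2, h3⟩
    · exact absurd hx (mem_compl.1 (hMu x h1))
  have mOA : ∀ x ∈ A, x ∈ O → x ∈ D ∧ x ∉ R := by
    intro x hx hxO
    rw [hO] at hxO
    rcases mem_union.1 hxO with h1 | h1
    · exact mem_sdiff.1 h1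
    · exact absurd hx (mem_compl.1 (hOu x h1))
  have mMB : ∀ x ∈ Aᶜ, x ∈ M → (x ∈ U' ∧ (x ∈ top0 G A U ∩ U' ∨ x ∈ flp G A D U ∩ U')) ∨ x ∈ N := by
    intro x hx hxM
    rw [hM] at hxM
    rcases mem_union.1 hxM with h1 | h1
    · exact absurd (mem_sdiff.1 (mem_sdiff.1 h1).1).1 (mem_compl.1 hx)
    · rcases mem_union.1 h1 with h1 | h1
      · refine Or.inl ⟨?_, mem_union.1 h1⟩
        rcases mem_union.1 h1 with h1 | h1
        · exact (mem_inter.1 h1).2
        · exact (mem_inter.1 h1).2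
      · exact Or.inr h1
  have mOB : ∀ x ∈ Aᶜ, x ∈ O → (x ∈ low G A D U ∩ U' ∨ x ∈ L) ∨ x ∈ K := by
    intro x hx hxO
    rw [hO] at hxO
    rcases mem_union.1 hxO with h1 | h1
    · exact absurd (h.hDA (mem_sdiff.1 h1).1) (mem_compl.1 hx)
    · rcases mem_union.1 h1 with h1 | h1
      · exact Or.inl (mem_union.1 h1)
      · exact Or.inr h1
  have tP : ∀ q ∈ P, q ∈ (M ∪ O)ᶜ := by
    intro q hq
    have h1 := mem_sdiff.1 (hPAD q hq)
    rw [mem_compl, mem_union]
    rintro (h2 | h2)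
    · exact (mMA q h1.1 h2).2 hq
    · exact h1.2 (mOA q h1.1 h2).1
  have tR : R ⊆ (M ∪ O)ᶜ := by
    intro x hx
    have h1 := hRD hx
    rw [mem_compl, mem_union]
    rintro (h2 | h2)
    · exact (mMA x (h.hDA h1) h2).1 h1
    · exact (mOA x (h.hDA h1) h2).2 hx
  have tB : ∀ b ∈ Aᶜ, b ∉ U' → b ∉ N0 ∪ N1 ∪ N2 ∪ L → b ∉ K → b ∈ (M ∪ O)ᶜ := by
    intro b hb h1 h2 h3
    rw [mem_compl, mem_union]
    rintro (h4 | h4)
    · rcases mMB b hb h4 with h5 | h5
      · exact h1 h5.1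
      · exact h2 (hNW b h5)
    · rcases mOB b hb h4 with (h5 | h5) | h5
      · exact h1 (mem_inter.1 h5).2
      · exact h2 (wL b h5)
      · exact h3 h5
  have tPart : ∀ u ∈ U, ∀ w ∈ Aᶜ, G.Adj u w → w ∈ (M ∪ O)ᶜ := by
    intro u hu w hw huw
    refine tB w hw (fun h1 => h.hind u hu w (k.hU h1) huw) (fun h1 => hWU w h1 u hu huw.symm) ?_
    intro h1
    obtain ⟨z, hz, hwz, -⟩ := (k.hK w h1).2.2
    have h2 := inn_adj_unique h.hB hw (hUc u hu) (blk_compl hz) huw.symm hwz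
    exact (mem_blk.1 hz).2.1 (h2 ▸ hu)
  have tPriv : ∀ d ∈ D, ∃ b ∈ (M ∪ O)ᶜ, G.Adj d b := by
    intro d hd
    obtain ⟨b, hb, hbi, hdb, hb1⟩ := h.hpriv d hd
    have h1 : b ∉ cands G A D := by
      intro h2
      have := hcand b hbi h2
      omega
    exact ⟨b, tB b hb (fun h2 => h1 (h.hUK (k.hU h2))) (fun h2 => h1 (k.hW b h2).1)
      (fun h2 => hbi (k.hKB b h2)), hdb⟩
  have hMO : Disjoint M O := by
    rw [disjoint_left]
    intro x hxM hxO
    by_cases hx : x ∈ A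
    · exact (mMA x hx hxM).1 (mOA x hx hxO).1
    · have hx' := mem_compl.2 hx
      rcases mMB x hx' hxM with ⟨h1, h2⟩ | h1
      · rcases mOB x hx' hxO with (h3 | h3) | h3
        · obtain ⟨h4, h5, h6⟩ := mem_filter.1 (mem_inter.1 h3).1
          rcases h2 with h2 | h2
          · exact (mem_filter.1 (mem_inter.1 h2).1).2 h5
          · exact h6 (mem_filter.1 (mem_inter.1 h2).1).2.2
        · exact (k.hW x (wL x h3)).2.2 h1
        · exact hKc x h3 (h.hUK (k.hU h1))
      · rcases mOB x hx' hxO with (h3 | h3) | h3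
        · exact (k.hW x (hNW x h1)).2.2 (mem_inter.1 h3).2
        · exact disjoint_left.1 hNL h1 h3
        · exact hKc x h3 (k.hW x (hNW x h1)).1
  have two : ∀ (v : V) (S T : Finset V), Disjoint S T → S ⊆ (M ∪ O)ᶜ → T ⊆ (M ∪ O)ᶜ → 1 ≤ nbc G v S →
      1 ≤ nbc G v T → 2 ≤ nbc G v (M ∪ O)ᶜ := by
    intro v S T hd hS hT h1 h2
    have e1 := nbc_union (G := G) v hd
    have e2 := nbc_mono (G := G) v (union_subset hS hT)
    omega
  refine ⟨setF M O, isSDRDF_setF hG hMO ?_ ?_ ?_, ?_⟩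
  · -- vertices of value -1
    intro v hv
    by_cases hvA : v ∈ A
    · obtain ⟨hvD, hvP⟩ := mMA v hvA hv
      have hvAD := mem_sdiff.2 ⟨hvA, hvD⟩
      have hcap := k.hcap v hvAD hvP
      have e0 := nbc_compl hG v A
      have hsub : U' ∪ (N0 ∪ N1 ∪ N2 ∪ L) ∪ K ⊆ Aᶜ := by
        intro x hx
        rcases mem_union.1 hx with hx | hx
        · rcases mem_union.1 hx with hx | hx
          · exact hUc x (k.hU hx)
          · exact hWc x hx
        · exact (k.hK x hx).1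
      have hPA : P ⊆ A := fun x hx => (mem_sdiff.1 (hPAD x hx)).1
      have e1 := nbc_sdiff (G := G) v hsub
      have e2 := nbc_sdiff (G := G) v hPA
      have e5 : nbc G v (P ∪ (Aᶜ \ (U' ∪ (N0 ∪ N1 ∪ N2 ∪ L) ∪ K))) =
          nbc G v P + nbc G v (Aᶜ \ (U' ∪ (N0 ∪ N1 ∪ N2 ∪ L) ∪ K)) := by
        refine nbc_union _ ?_
        rw [disjoint_left]
        intro x hx hx'
        exact (mem_compl.1 (mem_sdiff.1 hx').1) (hPA hx)
      have e7 : nbc G v (P ∪ (Aᶜ \ (U' ∪ (N0 ∪ N1 ∪ N2 ∪ L) ∪ K))) ≤ nbc G v (M ∪ O)ᶜ := by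
        refine nbc_mono _ (union_subset tP ?_)
        intro x hx
        obtain ⟨h1, h2⟩ := mem_sdiff.1 hx
        rw [mem_union, mem_union, not_or, not_or] at h2
        exact tB x h1 h2.1.1 h2.1.2 h2.2
      omega
    · have hvc := mem_compl.2 hvA
      rcases mMB v hvc hv with ⟨hvU, h1 | h1⟩ | h1
      · exact (hR1n v h1).trans (nbc_mono v (hs1.trans tR))
      · obtain ⟨w, hw, hvw, -⟩ := (mem_filter.1 (mem_inter.1 h1).1).2.2
        refine two v R2 {w} ?_ (hs2.trans tR) ?_ (hR2n v h1) (nbc_pos (mem_singleton_self w) hvw)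
        · rw [disjoint_left]
          intro x hx hx'
          rw [mem_singleton] at hx'
          subst hx'
          exact (mem_compl.1 hw) (h.hDA (hR2 hx))
        · rw [singleton_subset_iff]
          exact tPart v (k.hU hvU) w hw hvw
      · have h1' := h1
        rw [hN] at h1'
        rcases mem_union.1 h1' with h1' | h1'
        · rcases mem_union.1 h1' with h1' | h1'
          · obtain ⟨hvi, ⟨q, hq, hvq⟩, hz⟩ := k.h0 v h1'
            obtain ⟨-, z, hzc, hvz⟩ := mem_inn.1 hvi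
            refine two v {q} {z} ?_ ?_ ?_ (nbc_pos (mem_singleton_self q) hvq)
              (nbc_pos (mem_singleton_self z) hvz)
            · rw [disjoint_singleton_left, mem_singleton]
              intro he
              exact (mem_compl.1 hzc) (he ▸ (mem_sdiff.1 (hPAD q hq)).1)
            · rw [singleton_subset_iff]
              exact tP q hq
            · rw [singleton_subset_iff]
              exact tB z hzc (fun h2 => hWU v (w0 v h1') z (k.hU h2) hvz) (hz z hzc hvz).1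
                (hKD z (hz z hzc hvz).2)
          · obtain ⟨⟨q, hq, hvq⟩, -⟩ := k.h1 v h1'
            refine two v R3 {q} ?_ (hs3.trans tR) ?_ (hR3n v h1') (nbc_pos (mem_singleton_self q) hvq)
            · rw [disjoint_left]
              intro x hx hx'
              rw [mem_singleton] at hx'
              subst hx'
              exact (mem_sdiff.1 (hPAD x hq)).2 (hR3 hx)
            · rw [singleton_subset_iff]
              exact tP q hq
        · exact (hR4n v h1').trans (nbc_mono v (hs4.trans tR))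
  · -- vertices of value 1
    intro v hv
    by_cases hvA : v ∈ A
    · obtain ⟨b, hb, hvb⟩ := tPriv v (mOA v hvA hv).1
      exact nbc_pos hb hvb
    · have hvc := mem_compl.2 hvA
      rcases mOB v hvc hv with (h1 | h1) | h1
      · obtain ⟨hvU, hvi, -⟩ := mem_filter.1 (mem_inter.1 h1).1
        obtain ⟨-, w, hw, hvw⟩ := mem_inn.1 hvi
        exact nbc_pos (tPart v hvU w hw hvw) hvw
      · rcases k.hL v h1 with ⟨q, hq, hvq⟩ | ⟨z, hz, hvz, hzW, hzD⟩
        · exact nbc_pos (tP q hq) hvq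
        · exact nbc_pos (tB z hz (fun h2 => hWU v (wL v h1) z (k.hU h2) hvz) hzW (hKD z hzD)) hvz
      · obtain ⟨z, hz, hvz, hzW⟩ := (k.hK v h1).2.2
        have h2 := mem_blk.1 hz
        exact nbc_pos (tB z (blk_compl hz) (fun h3 => h2.2.1 (k.hU h3)) hzW (hKD z (hcand1 z h2.1))) hvz
  · -- vertices of value 2
    intro v hvM hvO
    have e0 := nbc_compl hG v M
    have key : 1 ≤ nbc G v Mᶜ := by
      by_cases hvA : v ∈ A
      · by_cases hvD : v ∈ D
        · obtain ⟨b, hb, hvb⟩ := tPriv v hvD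
          refine nbc_pos (mem_compl.2 fun h1 => ?_) hvb
          exact (mem_compl.1 hb) (mem_union_left _ h1)
        · have hvP : v ∈ P := by
            by_contra h1
            refine hvM ?_
            rw [hM]
            exact mem_union_left _ (mem_sdiff.2 ⟨mem_sdiff.2 ⟨hvA, hvD⟩, h1⟩)
          obtain ⟨z, hz, hvz, hzU, hzN⟩ := k.hq v hvP
          refine nbc_pos (mem_compl.2 fun h1 => ?_) hvz
          rcases mMB z hz h1 with h2 | h2
          · exact hzU h2.1
          · rw [hN] at h2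
            exact hzN h2
      · have hvc := mem_compl.2 hvA
        have hdM : ∀ d ∈ D, d ∈ Mᶜ := fun d hd => mem_compl.2 fun h1 => (mMA d (h.hDA hd) h1).1 hd
        by_cases hvi : v ∈ inn G Aᶜ
        · obtain ⟨-, w, hw, hvw⟩ := mem_inn.1 hvi
          by_cases hwM : w ∈ M
          · have hwi : w ∈ inn G Aᶜ := mem_inn.2 ⟨hw, v, hvc, hvw.symm⟩
            have hd : 1 ≤ nbc G v D := by
              rcases mMB w hw hwM with ⟨-, h1 | h1⟩ | h1
              · exact absurd hwi (mem_filter.1 (mem_inter.1 h1).1).2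
              · obtain ⟨-, -, w2, hw2, hww2, h3⟩ := mem_filter.1 (mem_inter.1 h1).1
                have h4 : w2 = v := inn_adj_unique h.hB hw hw2 hvc hww2 hvw.symm
                rwa [h4] at h3
              · rw [hN] at h1
                rcases mem_union.1 h1 with h1 | h1
                · rcases mem_union.1 h1 with h1 | h1
                  · exact ((k.h0 w h1).2.2 v hvc hvw.symm).2
                  · exact (k.h1 w h1).2 v hvc hvw.symm
                · exact absurd hwi (k.h2 w h1)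
            obtain ⟨d, hd, hvd⟩ := one_of_nbc hd
            exact nbc_pos (hdM d hd) hvd
          · exact nbc_pos (mem_compl.2 hwM) hvw
        · obtain ⟨d, hd, hvd⟩ := one_of_nbc (h.hD v hvc hvi)
          exact nbc_pos (hdM d hd) hvd
    omega
  · -- the weight
    rw [sum_setF]
    have c1 : M.card = ((A \ D) \ P).card +
        ((top0 G A U ∩ U').card + (flp G A D U ∩ U').card + N.card) := by
      rw [hM, card_union_of_disjoint, card_union_of_disjoint, card_union_of_disjoint]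
      · rw [disjoint_left]
        intro x hx hx'
        exact (mem_filter.1 (mem_inter.1 hx).1).2 (mem_filter.1 (mem_inter.1 hx').1).2.1
      · rw [disjoint_left]
        intro x hx hx'
        refine (k.hW x (hNW x hx')).2.2 ?_
        rcases mem_union.1 hx with hx | hx
        · exact (mem_inter.1 hx).2
        · exact (mem_inter.1 hx).2
      · rw [disjoint_left]
        intro x hx hx'
        exact (mem_compl.1 (hMu x hx')) (mem_sdiff.1 (mem_sdiff.1 hx).1).1
    have c2 : O.card = (D \ R).card + ((low G A D U ∩ U').card + L.card + K.card) := by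
      rw [hO, card_union_of_disjoint, card_union_of_disjoint, card_union_of_disjoint]
      · rw [disjoint_left]
        intro x hx hx'
        exact (k.hW x (wL x hx')).2.2 (mem_inter.1 hx).2
      · rw [disjoint_left]
        intro x hx hx'
        refine hKc x hx' ?_
        rcases mem_union.1 hx with hx | hx
        · exact h.hUK (k.hU (mem_inter.1 hx).2)
        · exact (k.hW x (wL x hx)).1
      · rw [disjoint_left]
        intro x hx hx'
        exact (mem_compl.1 (hOu x hx')) (h.hDA (mem_sdiff.1 hx).1)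
    have c3 := card_sdiff_add_card_eq_card h.hDA
    have c4 := card_sdiff_add_card_eq_card k.hP
    have c5 := card_sdiff_add_card_eq_card hRD
    have c6 := card_add_card_compl A
    omega

end Pool.Agent.MP_eb164e_co.UB
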