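import Pool.Agent.Lib.MP_eb164e_co.UB.Cut

/-!
# Counting neighbours, and the configurations of the upper bound
-/

set_option autoImplicit false

noncomputable section

open Classical Finset

namespace Pool.Agent.MP_eb164e_co.UB

set_option linter.unusedSectionVars false

variable {V : Type} [Fintype V] {G : SimpleGraph V}

/-- the number of neighbours of `v` in `S` -/
def nbc (G : SimpleGraph V) (v : V) (S : Finset V) : ℕ := (S.filter fun w => G.Adj v w).card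

theorem nbc_mono (v : V) {S T : Finset V} (h : S ⊆ T) : nbc G v S ≤ nbc G v T :=
  card_le_card (filter_subset_filter _ h)

theorem nbc_union (v : V) {S T : Finset V} (h : Disjoint S T) : nbc G v (S ∪ T) = nbc G v S + nbc G v T := by
  unfold nbc
  rw [filter_union, card_union_of_disjoint (disjoint_filter_filter h)]

theorem nbc_sdiff (v : V) {S T : Finset V} (h : T ⊆ S) : nbc G v S = nbc G v T + nbc G v (S \ T) := by
  rw [← nbc_union v disjoint_sdiff, union_sdiff_of_subset h]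

theorem nbc_compl (hG : IsCubic G) (v : V) (A : Finset V) : nbc G v A + nbc G v Aᶜ = 3 := by
  rw [← nbc_union v disjoint_compl_right, union_compl]
  exact hG v

theorem nbc_pos {v w : V} {S : Finset V} (hw : w ∈ S) (h : G.Adj v w) : 1 ≤ nbc G v S :=
  card_pos.2 ⟨w, mem_filter.2 ⟨hw, h⟩⟩

theorem nbc_zero {v : V} {S : Finset V} (h : ∀ w ∈ S, ¬ G.Adj v w) : nbc G v S = 0 := by
  unfold nbc
  rw [card_eq_zero, filter_eq_empty_iff]
  exact fun w hw => h w hw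

theorem nbc_double_weight (S T : Finset V) (g : V → ℕ) :
    ∑ a ∈ S, ∑ c ∈ T.filter (fun w => G.Adj a w), g c = ∑ c ∈ T, nbc G c S * g c := by
  simp only [sum_filter]
  rw [sum_comm]
  refine sum_congr rfl fun c _ => ?_
  unfold nbc
  rw [card_filter, sum_mul]
  refine sum_congr rfl fun a _ => ?_
  rw [G.adj_comm a c]
  by_cases h : G.Adj c a
  · simp [h]
  · simp [h]

theorem nbc_double (S T : Finset V) : ∑ a ∈ S, nbc G a T = ∑ t ∈ T, nbc G t S := by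
  have h := nbc_double_weight (G := G) S T fun _ => 1
  simpa [nbc] using h

theorem mem_inn {A : Finset V} {a : V} : a ∈ inn G A ↔ a ∈ A ∧ ∃ w ∈ A, G.Adj a w := by
  unfold inn
  exact mem_filter

theorem nbc_inn {A : Finset V} (hA : ∀ a ∈ A, (A.filter fun w => G.Adj a w).card ≤ 1) {a : V} (ha : a ∈ inn G A) :
    nbc G a A = 1 := by
  obtain ⟨h1, w, hw, haw⟩ := mem_inn.1 ha
  have h2 := hA a h1
  have h3 := nbc_pos hw haw
  unfold nbc at h3 ⊢
  omega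

theorem nbc_not_inn {A : Finset V} {a : V} (ha : a ∈ A) (h : a ∉ inn G A) : nbc G a A = 0 := by
  refine nbc_zero fun w hw haw => h (mem_inn.2 ⟨ha, w, hw, haw⟩)

theorem two_of_nbc {v : V} {S : Finset V} (h : 2 ≤ nbc G v S) : ∃ p q, p ≠ q ∧ p ∈ S ∧ q ∈ S ∧ G.Adj v p ∧ G.Adj v q := by
  obtain ⟨p, hp, q, hq, hpq⟩ := one_lt_card.1 (show 1 < (S.filter fun w => G.Adj v w).card from h)
  exact ⟨p, q, hpq, (mem_filter.1 hp).1, (mem_filter.1 hq).1, (mem_filter.1 hp).2, (mem_filter.1 hq).2⟩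

theorem one_of_nbc {v : V} {S : Finset V} (h : 1 ≤ nbc G v S) : ∃ p ∈ S, G.Adj v p := by
  obtain ⟨p, hp⟩ := card_pos.1 (show 0 < (S.filter fun w => G.Adj v w).card from h)
  exact ⟨p, (mem_filter.1 hp).1, (mem_filter.1 hp).2⟩

/-- the candidates: vertices outside `A` which see `D` more often than needed -/
def cands (G : SimpleGraph V) (A D : Finset V) : Finset V :=
  Aᶜ.filter fun b => (b ∉ inn G Aᶜ ∧ 2 ≤ nbc G b D) ∨ (b ∈ inn G Aᶜ ∧ 1 ≤ nbc G b D)

/-- a cut `A`, a minimal transversal `D` and a maximal set `U` of modified vertices -/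
structure Conf (G : SimpleGraph V) (A D U : Finset V) : Prop where
  hA : ∀ a ∈ A, nbc G a A ≤ 1
  hB : ∀ b ∈ Aᶜ, nbc G b Aᶜ ≤ 1
  hMC : ∀ a ∈ inn G A, ∀ y ∈ inn G Aᶜ, ∀ z ∈ inn G Aᶜ, G.Adj a y → G.Adj a z → y ≠ z → G.Adj y z
  hDA : D ⊆ A
  hD : ∀ b ∈ Aᶜ, b ∉ inn G Aᶜ → 1 ≤ nbc G b D
  hpriv : ∀ d ∈ D, ∃ b ∈ Aᶜ, b ∉ inn G Aᶜ ∧ G.Adj d b ∧ nbc G b D = 1
  hUK : U ⊆ cands G A D
  hcap : ∀ a ∈ A \ D, nbc G a U + nbc G a A ≤ 1
  hind : ∀ u ∈ U, ∀ v ∈ U, ¬ G.Adj u v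
  hmax : ∀ x ∈ cands G A D, x ∉ U → (∀ u ∈ U, ¬ G.Adj x u) →
    ∃ a ∈ A \ D, G.Adj x a ∧ nbc G a U + nbc G a A = 1

/-- the blocked candidates -/
def blk (G : SimpleGraph V) (A D U : Finset V) : Finset V :=
  (cands G A D).filter fun x => x ∉ U ∧ ∀ u ∈ U, ¬ G.Adj x u

/-- modified vertices without neighbour outside `A` -/
def top0 (G : SimpleGraph V) (A U : Finset V) : Finset V := U.filter fun u => u ∉ inn G Aᶜ

/-- modified vertices with a neighbour outside `A` which sees `D` -/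
def flp (G : SimpleGraph V) (A D U : Finset V) : Finset V :=
  U.filter fun u => u ∈ inn G Aᶜ ∧ ∃ w ∈ Aᶜ, G.Adj u w ∧ 1 ≤ nbc G w D

/-- modified vertices with a neighbour outside `A` which does not see `D` -/
def low (G : SimpleGraph V) (A D U : Finset V) : Finset V :=
  U.filter fun u => u ∈ inn G Aᶜ ∧ ¬ ∃ w ∈ Aᶜ, G.Adj u w ∧ 1 ≤ nbc G w D

/-- the members of full pairs -/
def full (G : SimpleGraph V) (A D U : Finset V) : Finset V :=
  (A \ D).filter fun a => nbc G a (blk G A D U) = 2 ∧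
    ∃ a' ∈ A \ D, G.Adj a a' ∧ nbc G a' (blk G A D U) = 2

/-- members of adjacent pairs in `A` with a common neighbour outside `A` -/
def tri (G : SimpleGraph V) (A : Finset V) : Finset V :=
  A.filter fun a => ∃ a' ∈ A, G.Adj a a' ∧ ∃ b ∈ Aᶜ, G.Adj a b ∧ G.Adj a' b

/-- members of full pairs all of whose neighbours outside `A` have a neighbour outside `A` -/
def bbs (G : SimpleGraph V) (A D U : Finset V) : Finset V :=
  (full G A D U).filter fun a => ∀ b ∈ Aᶜ, G.Adj a b → b ∈ inn G Aᶜ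

/-- data for the moves at full pairs -/
structure Pick (G : SimpleGraph V) (A D U Q : Finset V) (p y1 y2 y3 : V → V) : Prop where
  hQ : Q ⊆ full G A D U
  hp : ∀ q ∈ Q, p q ∈ A \ D ∧ G.Adj q (p q) ∧ p q ∉ Q
  h1 : ∀ q ∈ Q, y1 q ∈ blk G A D U ∧ y1 q ∉ inn G Aᶜ ∧ G.Adj q (y1 q)
  h2 : ∀ q ∈ Q, y2 q ∈ blk G A D U ∧ G.Adj q (y2 q) ∧ y1 q ≠ y2 q
  h3 : ∀ q ∈ Q, y3 q ∈ blk G A D U ∧ y3 q ∉ inn G Aᶜ ∧ G.Adj (p q) (y3 q)
  hind : ∀ q ∈ Q, ∀ r ∈ Q, ¬ G.Adj (y2 q) (y2 r)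

theorem inn_adj_unique {A : Finset V} (hA : ∀ a ∈ A, nbc G a A ≤ 1) {a b c : V} (ha : a ∈ A)
    (hb : b ∈ A) (hc : c ∈ A) (h1 : G.Adj a b) (h2 : G.Adj a c) : b = c := by
  have h := hA a ha
  unfold nbc at h
  exact card_le_one.1 h b (mem_filter.2 ⟨hb, h1⟩) c (mem_filter.2 ⟨hc, h2⟩)

theorem Conf.hA' {A D U : Finset V} (h : Conf G A D U) : ∀ a ∈ A, (A.filter fun w => G.Adj a w).card ≤ 1 :=
  h.hA

theorem Conf.hB' {A D U : Finset V} (h : Conf G A D U) :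
    ∀ b ∈ Aᶜ, (Aᶜ.filter fun w => G.Adj b w).card ≤ 1 := h.hB

theorem mem_blk {A D U : Finset V} {x : V} : x ∈ blk G A D U ↔
    x ∈ cands G A D ∧ x ∉ U ∧ ∀ u ∈ U, ¬ G.Adj x u := by
  unfold blk
  exact mem_filter

theorem cands_compl {A D : Finset V} {x : V} (h : x ∈ cands G A D) : x ∈ Aᶜ := by
  unfold cands at h
  exact (mem_filter.1 h).1

theorem blk_compl {A D U : Finset V} {x : V} (h : x ∈ blk G A D U) : x ∈ Aᶜ :=
  cands_compl (mem_blk.1 h).1

/-- a blocked candidate has exactly one neighbour in `A \ D`; this neighbour is full -/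
theorem Conf.blk_one (hG : IsCubic G) {A D U : Finset V} (h : Conf G A D U) {x : V}
    (hx : x ∈ blk G A D U) : nbc G x (A \ D) = 1 ∧
      ∃ a ∈ A \ D, G.Adj x a ∧ nbc G a U + nbc G a A = 1 := by
  obtain ⟨hxc, hxU, hxn⟩ := mem_blk.1 hx
  obtain ⟨a, ha, hxa, hfull⟩ := h.hmax x hxc hxU hxn
  refine ⟨?_, a, ha, hxa, hfull⟩
  have e1 := nbc_compl hG x A
  have e2 := nbc_sdiff (G := G) x h.hDA
  have e3 := nbc_pos ha hxa
  unfold cands at hxc
  obtain ⟨hxA, hc⟩ := mem_filter.1 hxc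
  rcases hc with ⟨hi, h2⟩ | ⟨hi, h1⟩
  · omega
  · have := nbc_inn h.hB' hi
    omega

/-- two neighbours in `A \ D` of a blocked candidate are equal -/
theorem Conf.blk_unique (hG : IsCubic G) {A D U : Finset V} (h : Conf G A D U) {x a b : V}
    (hx : x ∈ blk G A D U) (ha : a ∈ A \ D) (hb : b ∈ A \ D) (hxa : G.Adj x a) (hxb : G.Adj x b) : a = b := by
  have h1 := (h.blk_one hG hx).1
  unfold nbc at h1
  exact card_le_one.1 h1.le a (mem_filter.2 ⟨ha, hxa⟩) b (mem_filter.2 ⟨hb, hxb⟩)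

end Pool.Agent.MP_eb164e_co.UB
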