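import Pool.Agent.Lib.MP_eb164e_co.UB.Conf

/-!
# Maximum cuts and the existence of configurations
-/

set_option autoImplicit false

noncomputable section

open Classical Finset

namespace Pool.Agent.MP_eb164e_co.UB

set_option linter.unusedSectionVars false

variable {V : Type} [Fintype V] {G : SimpleGraph V}

/-- moving one vertex out of `A` -/
theorem cut_erase_ge (hG : IsCubic G) {A : Finset V} {a : V} (ha : a ∈ A) :
    (cutSet G A).card + 2 * nbc G a A ≤ (cutSet G (A.erase a)).card + 3 := by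
  have h3 := nbc_compl hG a A
  have e1 : (cutSet G A).card =
      ((cutSet G A).filter fun p => p.1 ≠ a).card + ((cutSet G A).filter fun p => ¬ p.1 ≠ a).card :=
    (card_filter_add_card_filter_not (s := cutSet G A) fun p : V × V => p.1 ≠ a).symm
  have e2 : ((cutSet G A).filter fun p => ¬ p.1 ≠ a).card ≤ nbc G a Aᶜ := by
    refine card_le_card_of_injOn (fun p => p.2) ?_ ?_
    · rintro ⟨u, v⟩ h
      simp only [cutSet, coe_filter, mem_filter, mem_univ, true_and, not_not, Set.mem_ofPred_eq] at h ⊢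
      obtain ⟨⟨k1, k2, k3⟩, rfl⟩ := h
      exact ⟨k2, k3⟩
    · rintro ⟨u, v⟩ h ⟨u', v'⟩ h' he
      simp only [coe_filter, not_not, Set.mem_ofPred_eq] at h h'
      obtain ⟨-, rfl⟩ := h
      obtain ⟨-, rfl⟩ := h'
      simp only at he
      rw [he]
  have e3 : (((cutSet G A).filter fun p => p.1 ≠ a) ∪
      (A.filter fun w => G.Adj a w).image fun u => (u, a)).card ≤ (cutSet G (A.erase a)).card := by
    refine card_le_card ?_
    intro p hp
    rcases mem_union.1 hp with hp | hp
    · simp only [cutSet, mem_filter, mem_univ, true_and, mem_compl] at hp ⊢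
      refine ⟨mem_erase.2 ⟨hp.2, hp.1.1⟩, fun h => hp.1.2.1 (mem_of_mem_erase h), hp.1.2.2⟩
    · obtain ⟨u, hu, rfl⟩ := mem_image.1 hp
      obtain ⟨hu, hau⟩ := mem_filter.1 hu
      simp only [cutSet, mem_filter, mem_univ, true_and, mem_compl, mem_erase]
      refine ⟨⟨fun h => ?_, hu⟩, by simp, hau.symm⟩
      subst h
      exact G.loopless.irrefl _ hau
  rw [card_union_of_disjoint, card_image_of_injective] at e3
  · change _ + nbc G a A ≤ _ at e3
    omega
  · intro u v h
    simpa using h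
  · rw [disjoint_left]
    intro p hp hp'
    obtain ⟨u, -, rfl⟩ := mem_image.1 hp'
    simp only [cutSet, mem_filter, mem_univ, true_and, mem_compl] at hp
    exact hp.1.2.1 ha

/-- moving one vertex into `A` -/
theorem cut_insert_ge (hG : IsCubic G) {A : Finset V} {b : V} (hb : b ∉ A) :
    (cutSet G A).card + 2 * nbc G b Aᶜ ≤ (cutSet G (insert b A)).card + 3 := by
  have h := cut_erase_ge hG (mem_compl.2 hb)
  rw [cutSet_compl] at h
  have e : (insert b A)ᶜ = Aᶜ.erase b := by
    ext x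
    simp only [mem_compl, mem_insert, mem_erase, not_or]
  rw [← e, cutSet_compl] at h
  exact h

/-- in a maximum cut the neighbours of a vertex of `inn A` in `inn Aᶜ` are adjacent -/
theorem max_cut_adj (hG : IsCubic G) {A : Finset V}
    (hmax : ∀ B : Finset V, (cutSet G B).card ≤ (cutSet G A).card) :
    ∀ a ∈ inn G A, ∀ y ∈ inn G Aᶜ, ∀ z ∈ inn G Aᶜ, G.Adj a y → G.Adj a z → y ≠ z → G.Adj y z := by
  intro a ha y hy z hz hay haz hyz
  by_contra hn
  obtain ⟨haA, a', ha', haa'⟩ := mem_inn.1 ha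
  obtain ⟨hyA, y', hy', hyy'⟩ := mem_inn.1 hy
  obtain ⟨hzA, z', hz', hzz'⟩ := mem_inn.1 hz
  rw [mem_compl] at hyA hy' hzA hz'
  have hya : y ≠ a := fun h => hyA (h ▸ haA)
  have hza : z ≠ a := fun h => hzA (h ▸ haA)
  have h1 := cut_erase_ge hG haA
  have h2 := nbc_pos ha' haa'
  have h3 : y ∉ A.erase a := fun h => hyA (mem_of_mem_erase h)
  have h4 := cut_insert_ge hG h3
  have h5 : 2 ≤ nbc G y (A.erase a)ᶜ := by
    unfold nbc
    refine one_lt_card.2 ⟨a, ?_, y', ?_, fun h => hy' (h ▸ haA)⟩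
    · exact mem_filter.2 ⟨by simp, hay.symm⟩
    · exact mem_filter.2 ⟨mem_compl.2 fun h => hy' (mem_of_mem_erase h), hyy'⟩
  have h6 : z ∉ insert y (A.erase a) := by
    rw [mem_insert, not_or]
    exact ⟨fun h => hyz h.symm, fun h => hzA (mem_of_mem_erase h)⟩
  have h7 := cut_insert_ge hG h6
  have h8 : 2 ≤ nbc G z (insert y (A.erase a))ᶜ := by
    unfold nbc
    refine one_lt_card.2 ⟨a, ?_, z', ?_, fun h => hz' (h ▸ haA)⟩
    · refine mem_filter.2 ⟨?_, haz.symm⟩
      rw [mem_compl, mem_insert, not_or]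
      exact ⟨fun h => hya h.symm, by simp⟩
    · refine mem_filter.2 ⟨?_, hzz'⟩
      rw [mem_compl, mem_insert, not_or]
      refine ⟨fun h => hn ?_, fun h => hz' (mem_of_mem_erase h)⟩
      rw [← h]
      exact hzz'.symm
  have h9 := hmax (insert z (insert y (A.erase a)))
  omega

/-- a maximum cut -/
theorem exists_max_cut (hG : IsCubic G) : ∃ A : Finset V,
    (∀ a ∈ A, nbc G a A ≤ 1) ∧ (∀ b ∈ Aᶜ, nbc G b Aᶜ ≤ 1) ∧
      (∀ a ∈ inn G A, ∀ y ∈ inn G Aᶜ, ∀ z ∈ inn G Aᶜ, G.Adj a y → G.Adj a z → y ≠ z → G.Adj y z) ∧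
        ∀ a ∈ inn G Aᶜ, ∀ y ∈ inn G A, ∀ z ∈ inn G A, G.Adj a y → G.Adj a z → y ≠ z → G.Adj y z := by
  obtain ⟨A, hA⟩ := Finite.exists_max fun A : Finset V => (cutSet G A).card
  refine ⟨A, ?_, ?_, max_cut_adj hG hA, ?_⟩
  · intro a ha
    by_contra h
    have h1 := cut_erase_ge hG ha
    have h2 := hA (A.erase a)
    omega
  · intro b hb
    by_contra h
    have h1 := cut_insert_ge hG (mem_compl.1 hb)
    have h2 := hA (insert b A)
    omega
  · have h := max_cut_adj hG (A := Aᶜ) (by
      intro B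
      rw [cutSet_compl]
      exact hA B)
    rwa [compl_compl] at h

/-- configurations exist -/
theorem exists_conf (hG : IsCubic G) {A : Finset V} (hA : ∀ a ∈ A, nbc G a A ≤ 1)
    (hB : ∀ b ∈ Aᶜ, nbc G b Aᶜ ≤ 1)
    (hMC : ∀ a ∈ inn G A, ∀ y ∈ inn G Aᶜ, ∀ z ∈ inn G Aᶜ, G.Adj a y → G.Adj a z → y ≠ z → G.Adj y z) :
    ∃ D U, Conf G A D U ∧ 4 * D.card + (inn G Aᶜ).card ≤ A.card + Aᶜ.card := by
  obtain ⟨D, hDA, hD, hpriv, hDc⟩ := exists_hitting_min hG A
  obtain ⟨U, hU, hmax⟩ := exists_max_image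
    ((cands G A D).powerset.filter fun U => (∀ a ∈ A \ D, nbc G a U + nbc G a A ≤ 1) ∧
      ∀ u ∈ U, ∀ v ∈ U, ¬ G.Adj u v) (fun U => U.card) ⟨∅, by
        refine mem_filter.2 ⟨by simp, fun a ha => ?_, by simp⟩
        have h1 := hA a (mem_sdiff.1 ha).1
        have h2 : nbc G a ∅ = 0 := nbc_zero (by simp)
        omega⟩
  obtain ⟨hU, hcap, hind⟩ := mem_filter.1 hU
  rw [mem_powerset] at hU
  refine ⟨D, U, ⟨hA, hB, hMC, hDA, ?_, ?_, hU, hcap, hind, ?_⟩, hDc⟩
  · intro b hb hbi
    obtain ⟨d, hd, hbd⟩ := hD b hb hbi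
    exact nbc_pos hd hbd
  · intro d hd
    obtain ⟨b, hb, hbi, hbd, hb1⟩ := hpriv d hd
    refine ⟨b, hb, hbi, hbd.symm, le_antisymm ?_ (nbc_pos hd hbd)⟩
    unfold nbc
    refine card_le_one.2 fun x hx y hy => ?_
    rw [hb1 x (mem_filter.1 hx).1 (mem_filter.1 hx).2, hb1 y (mem_filter.1 hy).1 (mem_filter.1 hy).2]
  · intro x hx hxU hxn
    by_contra hcon
    push Not at hcon
    have h1 : insert x U ∈ (cands G A D).powerset.filter fun U =>
        (∀ a ∈ A \ D, nbc G a U + nbc G a A ≤ 1) ∧ ∀ u ∈ U, ∀ v ∈ U, ¬ G.Adj u v := by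
      refine mem_filter.2 ⟨mem_powerset.2 (insert_subset hx hU), ?_, ?_⟩
      · intro a ha
        have h2 := hcap a ha
        by_cases hxa : G.Adj x a
        · have h3 := hcon a ha hxa
          have h4 : nbc G a (insert x U) ≤ nbc G a U + 1 := by
            unfold nbc
            rw [filter_insert]
            split_ifs
            · exact card_insert_le _ _
            · omega
          omega
        · have h4 : nbc G a (insert x U) = nbc G a U := by
            unfold nbc
            rw [filter_insert, if_neg fun h => hxa h.symm]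
          omega
      · intro u hu v hv huv
        rcases mem_insert.1 hu with hux | hu
        · rcases mem_insert.1 hv with hvx | hv
          · rw [hux, hvx] at huv
            exact G.loopless.irrefl _ huv
          · rw [hux] at huv
            exact hxn v hv huv
        · rcases mem_insert.1 hv with hvx | hv
          · rw [hvx] at huv
            exact hxn u hu huv.symm
          · exact hind u hu v hv huv
    have h5 := hmax _ h1
    rw [card_insert_of_notMem hxU] at h5
    omega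

end Pool.Agent.MP_eb164e_co.UB
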