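import Pool.Agent.Lib.MP_eb164e_co.UB.Conf

/-!
# Counting the edges between the transversal and the outside
-/

set_option autoImplicit false

noncomputable section

open Classical Finset

namespace Pool.Agent.MP_eb164e_co.UB

variable {V : Type} [Fintype V] {G : SimpleGraph V}

/-- the excess of a vertex outside `A` -/
def exc (G : SimpleGraph V) (A D : Finset V) (b : V) : ℕ :=
  if b ∈ inn G Aᶜ then nbc G b D else nbc G b D - 1

theorem exc_inn {A D : Finset V} {b : V} (hb : b ∈ inn G Aᶜ) : exc G A D b = nbc G b D := by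
  unfold exc
  rw [if_pos hb]

theorem exc_not_inn {A D : Finset V} {b : V} (hb : b ∉ inn G Aᶜ) : exc G A D b = nbc G b D - 1 := by
  unfold exc
  rw [if_neg hb]

theorem Conf.sum_D (hG : IsCubic G) {A D U : Finset V} (h : Conf G A D U) :
    3 * D.card ≤ ∑ b ∈ Aᶜ, nbc G b D + (D.filter fun a => a ∈ inn G A).card := by
  rw [nbc_double Aᶜ D, card_filter, ← sum_add_distrib, mul_comm, ← smul_eq_mul, ← sum_const]
  refine sum_le_sum fun d hd => ?_
  have e1 := nbc_compl hG d A
  by_cases hi : d ∈ inn G A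
  · have := nbc_inn h.hA' hi
    rw [if_pos hi]
    omega
  · have := nbc_not_inn (h.hDA hd) hi
    rw [if_neg hi]
    omega

theorem Conf.sum_exc {A D U : Finset V} (h : Conf G A D U) :
    ∑ b ∈ Aᶜ, nbc G b D = (Aᶜ \ inn G Aᶜ).card + ∑ b ∈ Aᶜ, exc G A D b := by
  rw [sdiff_eq_filter, card_filter, ← sum_add_distrib]
  refine sum_congr rfl fun b hb => ?_
  by_cases hi : b ∈ inn G Aᶜ
  · rw [exc_inn hi, if_neg (by simpa using hi), zero_add]
  · have := h.hD b hb hi
    rw [exc_not_inn hi, if_pos hi]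
    omega

theorem sum_exc_cands (A D : Finset V) :
    ∑ b ∈ Aᶜ, exc G A D b = ∑ b ∈ cands G A D, exc G A D b := by
  symm
  refine sum_subset (fun x hx => cands_compl hx) ?_
  intro b hb hbc
  by_cases hi : b ∈ inn G Aᶜ
  · rw [exc_inn hi]
    by_contra hne
    refine hbc ?_
    unfold cands
    exact mem_filter.2 ⟨hb, Or.inr ⟨hi, by omega⟩⟩
  · rw [exc_not_inn hi]
    by_contra hne
    refine hbc ?_
    unfold cands
    exact mem_filter.2 ⟨hb, Or.inl ⟨hi, by omega⟩⟩

theorem cands_inn {A D : Finset V} {b : V} (hb : b ∈ cands G A D) (hi : b ∈ inn G Aᶜ) : 1 ≤ nbc G b D := by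
  unfold cands at hb
  obtain ⟨-, hc⟩ := mem_filter.1 hb
  rcases hc with ⟨h1, -⟩ | ⟨-, h2⟩
  · exact absurd hi h1
  · exact h2

theorem cands_not_inn {A D : Finset V} {b : V} (hb : b ∈ cands G A D) (hi : b ∉ inn G Aᶜ) : 2 ≤ nbc G b D := by
  unfold cands at hb
  obtain ⟨-, hc⟩ := mem_filter.1 hb
  rcases hc with ⟨-, h2⟩ | ⟨h1, -⟩
  · exact h2
  · exact absurd h1 hi

/-- the neighbours of modified vertices among the candidates -/
theorem Conf.sum_nb (hG : IsCubic G) {A D U : Finset V} (h : Conf G A D U) :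
    ∑ b ∈ (cands G A D).filter (fun b => b ∉ U ∧ ∃ u ∈ U, G.Adj b u), exc G A D b ≤
      2 * (flp G A D U).card := by
  have k1 : ∀ b ∈ (cands G A D).filter (fun b => b ∉ U ∧ ∃ u ∈ U, G.Adj b u),
      b ∈ Aᶜ ∧ b ∈ inn G Aᶜ ∧ exc G A D b ≤ 2 ∧ ∃ u ∈ flp G A D U, G.Adj b u := by
    intro b hb
    obtain ⟨hbc, -, u, hu, hbu⟩ := mem_filter.1 hb
    have hbA := cands_compl hbc
    have huA := cands_compl (h.hUK hu)
    have hbi : b ∈ inn G Aᶜ := mem_inn.2 ⟨hbA, u, huA, hbu⟩
    have hui : u ∈ inn G Aᶜ := mem_inn.2 ⟨huA, b, hbA, hbu.symm⟩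
    refine ⟨hbA, hbi, ?_, u, ?_, hbu⟩
    · rw [exc_inn hbi]
      have e1 := nbc_compl hG b A
      have e2 := nbc_mono (G := G) b h.hDA
      have e3 := nbc_inn h.hB' hbi
      omega
    · unfold flp
      exact mem_filter.2 ⟨hu, hui, b, hbA, hbu.symm, cands_inn hbc hbi⟩
  have k2 : ∑ b ∈ (cands G A D).filter (fun b => b ∉ U ∧ ∃ u ∈ U, G.Adj b u), exc G A D b ≤
      ((cands G A D).filter (fun b => b ∉ U ∧ ∃ u ∈ U, G.Adj b u)).card * 2 := by
    refine (sum_le_card_nsmul _ _ 2 fun b hb => (k1 b hb).2.2.1).trans ?_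
    simp
  have k3 : ((cands G A D).filter (fun b => b ∉ U ∧ ∃ u ∈ U, G.Adj b u)).card ≤ (flp G A D U).card := by
    choose! g hg using fun b hb => (k1 b hb).2.2.2
    refine card_le_card_of_injOn g (fun b hb => (hg b hb).1) ?_
    intro b hb c hc hbc
    have hb' := hg b hb
    have hc' := hg c hc
    have hgA : g b ∈ Aᶜ := by
      have := hb'.1
      unfold flp at this
      exact cands_compl (h.hUK (mem_filter.1 this).1)
    refine inn_adj_unique h.hB hgA (k1 b hb).1 (k1 c hc).1 hb'.2.symm ?_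
    rw [hbc]
    exact hc'.2.symm
  omega

theorem Conf.exc_blk (hG : IsCubic G) {A D U : Finset V} (h : Conf G A D U) {x : V}
    (hx : x ∈ blk G A D U) : exc G A D x = 1 := by
  have e0 := (h.blk_one hG hx).1
  have e1 := nbc_compl hG x A
  have e2 := nbc_sdiff (G := G) x h.hDA
  have hxA := blk_compl hx
  by_cases hi : x ∈ inn G Aᶜ
  · have := nbc_inn h.hB' hi
    rw [exc_inn hi]
    omega
  · have := nbc_not_inn hxA hi
    rw [exc_not_inn hi]
    omega

theorem Conf.sum_cands (hG : IsCubic G) {A D U : Finset V} (h : Conf G A D U) :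
    ∑ b ∈ cands G A D, exc G A D b ≤
      ∑ u ∈ U, exc G A D u + 2 * (flp G A D U).card + (blk G A D U).card := by
  have k1 : cands G A D ⊆ U ∪ ((cands G A D).filter (fun b => b ∉ U ∧ ∃ u ∈ U, G.Adj b u) ∪
      blk G A D U) := by
    intro b hb
    by_cases hbU : b ∈ U
    · exact mem_union_left _ hbU
    · refine mem_union_right _ ?_
      by_cases hn : ∃ u ∈ U, G.Adj b u
      · exact mem_union_left _ (mem_filter.2 ⟨hb, hbU, hn⟩)
      · refine mem_union_right _ (mem_blk.2 ⟨hb, hbU, fun u hu hbu => hn ⟨u, hu, hbu⟩⟩)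
  have k2 : ∀ (S T : Finset V), ∑ b ∈ S ∪ T, exc G A D b ≤ ∑ b ∈ S, exc G A D b + ∑ b ∈ T, exc G A D b := by
    intro S T
    rw [← sum_union_inter]
    exact Nat.le_add_right _ _
  have k3 := h.sum_nb hG
  have k4 : ∑ b ∈ blk G A D U, exc G A D b = (blk G A D U).card := by
    rw [card_eq_sum_ones]
    exact sum_congr rfl fun b hb => h.exc_blk hG hb
  have k5 := sum_le_sum_of_subset (f := exc G A D) k1
  have k6 := k2 U ((cands G A D).filter (fun b => b ∉ U ∧ ∃ u ∈ U, G.Adj b u) ∪ blk G A D U)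
  have k7 := k2 ((cands G A D).filter (fun b => b ∉ U ∧ ∃ u ∈ U, G.Adj b u)) (blk G A D U)
  omega

theorem Conf.card_blk (hG : IsCubic G) {A D U : Finset V} (h : Conf G A D U) :
    (blk G A D U).card ≤ ∑ a ∈ (A \ D).filter (fun a => a ∈ inn G A), nbc G a (blk G A D U) +
      2 * ∑ u ∈ U, nbc G u (A \ D) := by
  have k1 : (blk G A D U).card = ∑ a ∈ A \ D, nbc G a (blk G A D U) := by
    rw [← nbc_double (blk G A D U) (A \ D), card_eq_sum_ones]
    exact sum_congr rfl fun b hb => (h.blk_one hG hb).1.symm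
  have k2 : ∑ a ∈ (A \ D).filter (fun a => ¬ a ∈ inn G A), nbc G a (blk G A D U) ≤
      2 * ∑ a ∈ A \ D, nbc G a U := by
    have k3 : ∑ a ∈ (A \ D).filter (fun a => ¬ a ∈ inn G A), nbc G a (blk G A D U) ≤
        ∑ a ∈ (A \ D).filter (fun a => ¬ a ∈ inn G A), 2 * nbc G a U := by
      refine sum_le_sum fun a ha => ?_
      obtain ⟨haD, hai⟩ := mem_filter.1 ha
      have haA := (mem_sdiff.1 haD).1
      by_cases h0 : nbc G a (blk G A D U) = 0
      · omega
      · obtain ⟨x, hx, hax⟩ := one_of_nbc (show 1 ≤ nbc G a (blk G A D U) by omega)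
        obtain ⟨-, a', ha', hxa', hfull⟩ := h.blk_one hG hx
        have hae := h.blk_unique hG hx haD ha' hax.symm hxa'
        rw [← hae] at hfull
        have e1 := nbc_not_inn haA hai
        have e2 := nbc_compl hG a A
        have e3 : nbc G a (U ∪ blk G A D U) = nbc G a U + nbc G a (blk G A D U) := by
          refine nbc_union a ?_
          rw [disjoint_left]
          intro y hy hy'
          exact (mem_blk.1 hy').2.1 hy
        have e4 : nbc G a (U ∪ blk G A D U) ≤ nbc G a Aᶜ := by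
          refine nbc_mono a ?_
          intro y hy
          rcases mem_union.1 hy with hy | hy
          · exact cands_compl (h.hUK hy)
          · exact blk_compl hy
        omega
    have k4 : ∑ a ∈ (A \ D).filter (fun a => ¬ a ∈ inn G A), nbc G a U ≤ ∑ a ∈ A \ D, nbc G a U :=
      sum_le_sum_of_subset (filter_subset _ _)
    rw [← mul_sum] at k3
    omega
  have k5 := sum_filter_add_sum_filter_not (A \ D) (fun a => a ∈ inn G A) fun a => nbc G a (blk G A D U)
  have k6 := nbc_double (G := G) (A \ D) U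
  omega

theorem Conf.sum_U (hG : IsCubic G) {A D U : Finset V} (h : Conf G A D U) :
    ∑ u ∈ U, exc G A D u + 2 * ∑ u ∈ U, nbc G u (A \ D) ≤ 3 * U.card := by
  rw [mul_sum, ← sum_add_distrib, mul_comm, ← smul_eq_mul, ← sum_const]
  refine sum_le_sum fun u hu => ?_
  have huc := h.hUK hu
  have huA := cands_compl huc
  have e1 := nbc_compl hG u A
  have e2 := nbc_sdiff (G := G) u h.hDA
  by_cases hi : u ∈ inn G Aᶜ
  · have e3 := nbc_inn h.hB' hi
    have e4 := cands_inn huc hi
    rw [exc_inn hi]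
    omega
  · have e3 := nbc_not_inn huA hi
    have e4 := cands_not_inn huc hi
    rw [exc_not_inn hi]
    omega

theorem card_U (A D U : Finset V) :
    U.card = (top0 G A U).card + (low G A D U).card + (flp G A D U).card := by
  have k1 := card_filter_add_card_filter_not (s := U) fun u => u ∈ inn G Aᶜ
  have k2 := card_filter_add_card_filter_not (s := U.filter fun u => u ∈ inn G Aᶜ)
    fun u => ∃ w ∈ Aᶜ, G.Adj u w ∧ 1 ≤ nbc G w D
  rw [filter_filter, filter_filter] at k2
  unfold top0 low flp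
  omega

/-- S1 -/
theorem count12 (hG : IsCubic G) {A D U : Finset V} (h : Conf G A D U) :
    3 * D.card ≤ (D.filter fun a => a ∈ inn G A).card + (Aᶜ \ inn G Aᶜ).card +
      3 * ((top0 G A U).card + (low G A D U).card + 2 * (flp G A D U).card) +
        ∑ a ∈ (A \ D).filter (fun a => a ∈ inn G A), nbc G a (blk G A D U) := by
  have s1 := h.sum_D hG
  have s2 := h.sum_exc
  have s3 := sum_exc_cands (G := G) A D
  have s4 := h.sum_cands hG
  have s5 := h.card_blk hG
  have s6 := h.sum_U hG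
  have s7 := card_U (G := G) A D U
  omega

end Pool.Agent.MP_eb164e_co.UB
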