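import Pool.Agent.Lib.MP_eb164e_co.UB.Conf16
import Pool.Agent.Lib.MP_eb164e_co.UB.Count12

/-!
# The refined count: centres of three candidates
-/

set_option autoImplicit false

noncomputable section

open Classical Finset

namespace Pool.Agent.MP_eb164e_co.UB

variable {V : Type} [Fintype V] {G : SimpleGraph V}

/-- the modified vertices which are not in `flp` -/
def tl (G : SimpleGraph V) (A D U : Finset V) : Finset V := top0 G A U ∪ low G A D U

/-- C2 -/
theorem e0_split {A D U : Finset V} : (er G A D U).card + (eo G A D U).card = (e0 G A D U).card := by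
  have h := card_filter_add_card_filter_not (s := e0 G A D U) fun a => nbc G a (lts G A D) ≤ 1
  have h2 : (e0 G A D U).filter (fun a => ¬ nbc G a (lts G A D) ≤ 1) = eo G A D U := by
    unfold eo
    refine filter_congr fun a _ => ?_
    omega
  rw [h2] at h
  exact h

theorem card_tl (A D U : Finset V) :
    (tl G A D U).card = (top0 G A U).card + (low G A D U).card := by
  unfold tl
  refine card_union_of_disjoint ?_
  rw [disjoint_left]
  intro x hx hx'
  exact (mem_filter.1 hx).2 (mem_filter.1 hx').2.1

theorem U_eq (A D U : Finset V) : U = tl G A D U ∪ flp G A D U := by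
  ext u
  unfold tl top0 low flp
  simp only [mem_union, mem_filter]
  tauto

theorem tl_flp (A D U : Finset V) : Disjoint (tl G A D U) (flp G A D U) := by
  rw [disjoint_left]
  intro x hx hx'
  have h1 := (mem_filter.1 hx').2
  unfold tl at hx
  rcases mem_union.1 hx with hx | hx
  · exact (mem_filter.1 hx).2 h1.1
  · exact (mem_filter.1 hx).2.2 h1.2

theorem tl_U {A D U : Finset V} {u : V} (hu : u ∈ tl G A D U) : u ∈ U := by
  rw [U_eq (G := G) A D U]
  exact mem_union_left _ hu

theorem flp_U {A D U : Finset V} {u : V} (hu : u ∈ flp G A D U) : u ∈ U := (mem_filter.1 hu).1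

theorem Conf.card_blk16 (hG : IsCubic G) {A D U : Finset V} (h : Conf G A D U) :
    (blk G A D U).card ≤ ∑ a ∈ (A \ D).filter (fun a => a ∈ inn G A), nbc G a (blk G A D U) +
      (∑ u ∈ tl G A D U, nbc G u (A \ D) + 2 * ∑ u ∈ flp G A D U, nbc G u (A \ D) +
        (e0 G A D U).card) := by
  have k1 : (blk G A D U).card = ∑ a ∈ A \ D, nbc G a (blk G A D U) := by
    rw [← nbc_double (blk G A D U) (A \ D), card_eq_sum_ones]
    exact sum_congr rfl fun b hb => (h.blk_one hG hb).1.symm
  have k2 : ∑ a ∈ (A \ D).filter (fun a => ¬ a ∈ inn G A), nbc G a (blk G A D U) ≤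
      ∑ a ∈ A \ D, (nbc G a (tl G A D U) + 2 * nbc G a (flp G A D U) +
        if a ∈ e0 G A D U then 1 else 0) := by
    refine (sum_le_sum_of_subset_of_nonneg (filter_subset (fun a => ¬ a ∈ inn G A) (A \ D))
      (f := fun a => if a ∈ inn G A then 0 else nbc G a (blk G A D U)) (fun _ _ _ => Nat.zero_le _)).trans' ?_ |>.trans ?_
    · refine sum_le_sum fun a ha => ?_
      rw [if_neg (mem_filter.1 ha).2]
    · refine sum_le_sum fun a haD => ?_
      by_cases hai : a ∈ inn G A
      · rw [if_pos hai]
        exact Nat.zero_le _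
      · rw [if_neg hai]
        have haA := (mem_sdiff.1 haD).1
        by_cases h0 : nbc G a (blk G A D U) = 0
        · omega
        · obtain ⟨x, hx, hax⟩ := one_of_nbc (show 1 ≤ nbc G a (blk G A D U) by omega)
          obtain ⟨-, a', ha', hxa', hfull⟩ := h.blk_one hG hx
          have hae := h.blk_unique hG hx haD ha' hax.symm hxa'
          rw [← hae] at hfull
          have e1 := nbc_not_inn haA hai
          have e2 := nbc_compl hG a A
          have e3 : nbc G a (U ∪ blk G A D U) = nbc G a U + nbc G a (blk G A D U) := by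
            refine nbc_union a ?_
            rw [disjoint_left]
            intro y hy hy'
            exact (mem_blk.1 hy').2.1 hy
          have e4 : nbc G a (U ∪ blk G A D U) ≤ nbc G a Aᶜ := by
            refine nbc_mono a ?_
            intro y hy
            rcases mem_union.1 hy with hy | hy
            · exact cands_compl (h.hUK hy)
            · exact blk_compl hy
          have e5 : nbc G a U = nbc G a (tl G A D U) + nbc G a (flp G A D U) := by
            rw [← nbc_union a (tl_flp A D U), ← U_eq]
          by_cases hk : a ∈ e0 G A D U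
          · rw [if_pos hk]
            omega
          · rw [if_neg hk]
            have e6 : ¬ (nbc G a (blk G A D U) = 2 ∧ nbc G a (tl G A D U) = 1) := by
              intro h6
              refine hk ?_
              unfold e0
              exact mem_filter.2 ⟨haD, hai, h6.1, h6.2⟩
            omega
  have k5 := sum_filter_add_sum_filter_not (A \ D) (fun a => a ∈ inn G A) fun a => nbc G a (blk G A D U)
  have k6 := nbc_double (G := G) (A \ D) (tl G A D U)
  have k7 := nbc_double (G := G) (A \ D) (flp G A D U)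
  have k8 : ∑ a ∈ A \ D, (if a ∈ e0 G A D U then 1 else 0) ≤ (e0 G A D U).card := by
    rw [← card_filter]
    exact card_le_card fun x hx => (mem_filter.1 hx).2
  rw [sum_add_distrib, sum_add_distrib, ← mul_sum] at k2
  omega

theorem Conf.sum_tl (hG : IsCubic G) {A D U : Finset V} (h : Conf G A D U) :
    ∑ u ∈ tl G A D U, exc G A D u + ∑ u ∈ tl G A D U, nbc G u (A \ D) ≤ 2 * (tl G A D U).card := by
  rw [← sum_add_distrib, mul_comm, ← smul_eq_mul, ← sum_const]
  refine sum_le_sum fun u hu => ?_
  have huc := h.hUK (tl_U hu)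
  have huA := cands_compl huc
  have e1 := nbc_compl hG u A
  have e2 := nbc_sdiff (G := G) u h.hDA
  by_cases hi : u ∈ inn G Aᶜ
  · have e3 := nbc_inn h.hB' hi
    have e4 := cands_inn huc hi
    rw [exc_inn hi]
    omega
  · have e3 := nbc_not_inn huA hi
    have e4 := cands_not_inn huc hi
    rw [exc_not_inn hi]
    omega

theorem Conf.sum_flp (hG : IsCubic G) {A D U : Finset V} (h : Conf G A D U) :
    ∑ u ∈ flp G A D U, exc G A D u + 2 * ∑ u ∈ flp G A D U, nbc G u (A \ D) ≤
      3 * (flp G A D U).card := by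
  rw [mul_sum, ← sum_add_distrib, mul_comm, ← smul_eq_mul, ← sum_const]
  refine sum_le_sum fun u hu => ?_
  have huc := h.hUK (flp_U hu)
  have e1 := nbc_compl hG u A
  have e2 := nbc_sdiff (G := G) u h.hDA
  have hi : u ∈ inn G Aᶜ := (mem_filter.1 hu).2.1
  have e3 := nbc_inn h.hB' hi
  have e4 := cands_inn huc hi
  rw [exc_inn hi]
  omega

/-- C1 -/
theorem count16 (hG : IsCubic G) {A D U : Finset V} (h : Conf G A D U) :
    3 * D.card ≤ (D.filter fun a => a ∈ inn G A).card + (Aᶜ \ inn G Aᶜ).card +
      2 * ((top0 G A U).card + (low G A D U).card) + 5 * (flp G A D U).card + (e0 G A D U).card +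
        ∑ a ∈ (A \ D).filter (fun a => a ∈ inn G A), nbc G a (blk G A D U) := by
  have s1 := h.sum_D hG
  have s2 := h.sum_exc
  have s3 := sum_exc_cands (G := G) A D
  have s4 := h.sum_cands hG
  have s5 := h.card_blk16 hG
  have s6 := h.sum_tl hG
  have s7 := h.sum_flp hG
  have s8 : ∑ u ∈ U, exc G A D u = ∑ u ∈ tl G A D U, exc G A D u + ∑ u ∈ flp G A D U, exc G A D u := by
    rw [← sum_union (tl_flp A D U), ← U_eq]
  have s9 := card_tl (G := G) A D U
  omega

/-- a vertex of `tl` has at most one neighbour in `A \ D` -/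
theorem Conf.tl_one (hG : IsCubic G) {A D U : Finset V} (h : Conf G A D U) {u : V} (hu : u ∈ tl G A D U) :
    nbc G u (A \ D) ≤ 1 := by
  have huc := h.hUK (tl_U hu)
  have huA := cands_compl huc
  have e1 := nbc_compl hG u A
  have e2 := nbc_sdiff (G := G) u h.hDA
  by_cases hi : u ∈ inn G Aᶜ
  · have e3 := nbc_inn h.hB' hi
    have e4 := cands_inn huc hi
    omega
  · have e3 := nbc_not_inn huA hi
    have e4 := cands_not_inn huc hi
    omega

/-- C3 -/
theorem e0_le (hG : IsCubic G) {A D U : Finset V} (h : Conf G A D U) :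
    (e0 G A D U).card ≤ (top0 G A U).card + (low G A D U).card := by
  rw [← card_tl (G := G) A D U]
  have k1 : (e0 G A D U).card = ∑ a ∈ e0 G A D U, nbc G a (tl G A D U) := by
    rw [card_eq_sum_ones]
    exact sum_congr rfl fun a ha => (mem_filter.1 ha).2.2.2.symm
  rw [k1, nbc_double, card_eq_sum_ones]
  refine sum_le_sum fun u hu => ?_
  refine (nbc_mono u ?_).trans (h.tl_one hG hu)
  intro a ha
  exact (mem_filter.1 ha).1

theorem Conf.card_lts {A D U : Finset V} (h : Conf G A D U) :
    2 * (lts G A D).card ≤ (inn G Aᶜ).card := by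
  have hw : ∀ x ∈ lts G A D, ∃ w ∈ inn G Aᶜ, G.Adj x w ∧ nbc G w D = 0 := by
    intro x hx
    obtain ⟨hi, h1, h2⟩ := mem_filter.1 hx
    obtain ⟨hxA, w, hwA, hxw⟩ := mem_inn.1 hi
    exact ⟨w, mem_inn.2 ⟨hwA, x, hxA, hxw.symm⟩, hxw, h2 w hwA hxw⟩
  choose! g hg using hw
  have k1 : ((lts G A D).image g).card = (lts G A D).card := by
    refine card_image_of_injOn ?_
    intro x hx y hy hxy
    have hx' := hg x hx
    have hy' := hg y hy
    refine inn_adj_unique h.hB (mem_inn.1 hx'.1).1 (mem_inn.1 (mem_filter.1 hx).1).1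
      (mem_inn.1 (mem_filter.1 hy).1).1 hx'.2.1.symm ?_
    rw [hxy]
    exact hy'.2.1.symm
  have k2 : (lts G A D ∪ (lts G A D).image g).card ≤ (inn G Aᶜ).card := by
    refine card_le_card (union_subset (filter_subset _ _) ?_)
    intro w hw
    obtain ⟨x, hx, rfl⟩ := mem_image.1 hw
    exact (hg x hx).1
  rw [card_union_of_disjoint] at k2
  · omega
  · rw [disjoint_left]
    intro w hw hw'
    obtain ⟨x, hx, rfl⟩ := mem_image.1 hw'
    have h1 := (mem_filter.1 hw).2.1
    have h2 := (hg x hx).2.2
    omega

/-- C4 -/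
theorem eo_le (hG : IsCubic G) {A D U : Finset V} (h : Conf G A D U) :
    4 * (eo G A D U).card ≤ (inn G Aᶜ).card := by
  have k0 := h.card_lts
  have k1 : 2 * (eo G A D U).card ≤ ∑ a ∈ eo G A D U, nbc G a (lts G A D) := by
    rw [mul_comm, ← smul_eq_mul, ← sum_const]
    refine sum_le_sum fun a ha => ?_
    have := (mem_filter.1 ha).2
    omega
  have k2 : ∑ a ∈ eo G A D U, nbc G a (lts G A D) ≤ (lts G A D).card := by
    rw [nbc_double, card_eq_sum_ones]
    refine sum_le_sum fun x hx => ?_
    obtain ⟨hi, h1, -⟩ := mem_filter.1 hx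
    have e1 := nbc_compl hG x A
    have e2 := nbc_sdiff (G := G) x h.hDA
    have e3 := nbc_inn h.hB' hi
    have e4 : nbc G x (eo G A D U) ≤ nbc G x (A \ D) := by
      refine nbc_mono x ?_
      intro a ha
      exact (mem_filter.1 (mem_filter.1 ha).1).1
    omega
  omega

end Pool.Agent.MP_eb164e_co.UB
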