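import Pool.Agent.Lib.MP_eb164e_co.UB.Conf

/-!
# The cost of the adjacent pairs inside `A`
-/

set_option autoImplicit false

noncomputable section

open Classical Finset

namespace Pool.Agent.MP_eb164e_co.UB

variable {V : Type} [Fintype V] {G : SimpleGraph V}

/-- the cost of a vertex of `inn G A` -/
def pcost (G : SimpleGraph V) (A D U : Finset V) (a : V) : ℕ :=
  if a ∈ D then 1 else nbc G a (blk G A D U)

theorem nbc_inn_inn {A : Finset V} (hA : ∀ a ∈ A, nbc G a A ≤ 1) {a : V} (ha : a ∈ inn G A) :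
    nbc G a (inn G A) = 1 := by
  obtain ⟨h1, w, hw, haw⟩ := mem_inn.1 ha
  have h2 : nbc G a (inn G A) ≤ nbc G a A := nbc_mono a (filter_subset _ _)
  have h3 : w ∈ inn G A := mem_inn.2 ⟨hw, a, h1, haw.symm⟩
  have h4 := nbc_pos h3 haw
  have h5 := hA a h1
  omega

theorem Conf.pcost_le (hG : IsCubic G) {A D U : Finset V} (h : Conf G A D U) {a : V} (ha : a ∈ inn G A) :
    pcost G A D U a ≤ 2 := by
  unfold pcost
  split_ifs with hd
  · omega
  · have e1 := nbc_compl hG a A
    have e2 := nbc_inn h.hA' ha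
    have e3 : nbc G a (blk G A D U) ≤ nbc G a Aᶜ := nbc_mono a fun x hx => blk_compl hx
    omega

theorem Conf.pcost_pair (hG : IsCubic G) {A D U : Finset V} (h : Conf G A D U) {a : V} (ha : a ∈ inn G A) :
    pcost G A D U a + ∑ c ∈ (inn G A).filter (fun w => G.Adj a w), pcost G A D U c ≤
      3 + if a ∈ full G A D U then 1 else 0 := by
  obtain ⟨h1, w, hw, haw⟩ := mem_inn.1 ha
  have hwi : w ∈ inn G A := mem_inn.2 ⟨hw, a, h1, haw.symm⟩
  have e1 : (inn G A).filter (fun w => G.Adj a w) = {w} := by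
    ext c
    rw [mem_filter, mem_singleton]
    constructor
    · rintro ⟨hc, hac⟩
      exact inn_adj_unique h.hA h1 (mem_inn.1 hc).1 hw hac haw
    · rintro rfl
      exact ⟨hwi, haw⟩
  rw [e1, sum_singleton]
  have c1 := h.pcost_le hG ha
  have c2 := h.pcost_le hG hwi
  split_ifs with hf
  · omega
  · by_contra hcon
    refine hf ?_
    have d1 : pcost G A D U a = 2 := by omega
    have d2 : pcost G A D U w = 2 := by omega
    unfold pcost at d1 d2
    have n1 : a ∉ D := fun hd => by rw [if_pos hd] at d1; omega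
    have n2 : w ∉ D := fun hd => by rw [if_pos hd] at d2; omega
    rw [if_neg n1] at d1
    rw [if_neg n2] at d2
    unfold full
    exact mem_filter.2 ⟨mem_sdiff.2 ⟨h1, n1⟩, d1, w, mem_sdiff.2 ⟨hw, n2⟩, haw, d2⟩

/-- S2 -/
theorem pair_cost (hG : IsCubic G) {A D U : Finset V} (h : Conf G A D U) :
    2 * (∑ a ∈ (A \ D).filter (fun a => a ∈ inn G A), nbc G a (blk G A D U) +
      (D.filter fun a => a ∈ inn G A).card) ≤ 3 * (inn G A).card + (full G A D U).card := by
  have k1 : ∑ a ∈ (A \ D).filter (fun a => a ∈ inn G A), nbc G a (blk G A D U) +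
      (D.filter fun a => a ∈ inn G A).card = ∑ a ∈ inn G A, pcost G A D U a := by
    rw [← sum_filter_add_sum_filter_not (inn G A) (fun a => a ∈ D), add_comm]
    congr 1
    · rw [card_eq_sum_ones]
      refine sum_congr ?_ ?_
      · ext a
        rw [mem_filter, mem_filter]
        exact ⟨fun k => ⟨k.2, k.1⟩, fun k => ⟨k.2, k.1⟩⟩
      · intro a ha
        unfold pcost
        rw [if_pos (mem_filter.1 ha).2]
    · refine sum_congr ?_ ?_
      · ext a
        rw [mem_filter, mem_filter, mem_sdiff]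
        exact ⟨fun k => ⟨k.2, k.1.2⟩, fun k => ⟨⟨(mem_inn.1 k.1).1, k.2⟩, k.1⟩⟩
      · intro a ha
        unfold pcost
        rw [if_neg (mem_filter.1 ha).2]
  have k2 : ∑ a ∈ inn G A, ∑ c ∈ (inn G A).filter (fun w => G.Adj a w), pcost G A D U c =
      ∑ a ∈ inn G A, pcost G A D U a := by
    rw [nbc_double_weight]
    refine sum_congr rfl fun c hc => ?_
    rw [nbc_inn_inn h.hA hc, one_mul]
  have k3 : ∑ a ∈ inn G A, (pcost G A D U a +
      ∑ c ∈ (inn G A).filter (fun w => G.Adj a w), pcost G A D U c) ≤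
      ∑ a ∈ inn G A, (3 + if a ∈ full G A D U then 1 else 0) :=
    sum_le_sum fun a ha => h.pcost_pair hG ha
  rw [sum_add_distrib, k2, sum_add_distrib, sum_const, smul_eq_mul, ← card_filter] at k3
  have k4 : ((inn G A).filter fun a => a ∈ full G A D U).card ≤ (full G A D U).card :=
    card_le_card fun x hx => (mem_filter.1 hx).2
  omega

end Pool.Agent.MP_eb164e_co.UB
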