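import Pool.Agent.Lib.MP_eb164e_co.UB.Count16
import Pool.Agent.Lib.MP_eb164e_co.UB.PairCost

/-!
# The count for the bound `9/10`
-/

set_option autoImplicit false

noncomputable section

open Classical Finset

namespace Pool.Agent.MP_eb164e_co.UB

variable {V : Type} [Fintype V] {G : SimpleGraph V}

/-- the members of `W` with a neighbour in `A \ D` which has a modified neighbour -/
def wb (G : SimpleGraph V) (A D U W : Finset V) : Finset V :=
  W.filter fun w => ∃ a ∈ A \ D, G.Adj w a ∧ 1 ≤ nbc G a U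

/-- the members of `W` with a neighbour in `inn G A` -/
def wc (G : SimpleGraph V) (A W : Finset V) : Finset V :=
  W.filter fun w => ∃ a ∈ inn G A, G.Adj w a

theorem not_cands {A D : Finset V} {w : V} (h1 : w ∈ inn G Aᶜ) (h2 : nbc G w D = 0) : w ∉ cands G A D := by
  intro h
  have := cands_inn h h1
  omega

theorem Conf.blk20 (hG : IsCubic G) {A D U W : Finset V} (h : Conf G A D U)
    (hW : ∀ w ∈ W, w ∈ inn G Aᶜ ∧ nbc G w D = 0) :
    2 * (blk G A D U).card + (wb G A D U W).card ≤
      2 * ∑ a ∈ (A \ D).filter (fun a => a ∈ inn G A), nbc G a (blk G A D U) +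
      (3 * ∑ u ∈ tl G A D U, nbc G u (A \ D) + 4 * ∑ u ∈ flp G A D U, nbc G u (A \ D) +
        (e0 G A D U).card) := by
  have k1 : (blk G A D U).card = ∑ a ∈ A \ D, nbc G a (blk G A D U) := by
    rw [← nbc_double (blk G A D U) (A \ D), card_eq_sum_ones]
    exact sum_congr rfl fun b hb => (h.blk_one hG hb).1.symm
  have k5 := sum_filter_add_sum_filter_not (A \ D) (fun a => a ∈ inn G A) fun a => nbc G a (blk G A D U)
  have k6 := nbc_double (G := G) (A \ D) (tl G A D U)
  have k7 := nbc_double (G := G) (A \ D) (flp G A D U)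
  have k8 : ∑ a ∈ A \ D, (if a ∈ e0 G A D U then 1 else 0) ≤ (e0 G A D U).card := by
    rw [← card_filter]
    exact card_le_card fun x hx => (mem_filter.1 hx).2
  have k9 : (wb G A D U W).card ≤ ∑ a ∈ (A \ D).filter (fun a => ¬ a ∈ inn G A),
      (if 1 ≤ nbc G a U then nbc G a W else 0) := by
    rw [← sum_filter, filter_filter]
    have e1 : (wb G A D U W).card ≤ ∑ w ∈ wb G A D U W,
        nbc G w ((A \ D).filter fun a => ¬ a ∈ inn G A ∧ 1 ≤ nbc G a U) := by
      rw [card_eq_sum_ones]
      refine sum_le_sum fun w hw => ?_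
      obtain ⟨hwW, a, ha, hwa, h1⟩ := mem_filter.1 hw
      refine nbc_pos (mem_filter.2 ⟨ha, ?_, h1⟩) hwa
      intro hi
      have h2 := nbc_inn h.hA' hi
      have h3 := h.hcap a ha
      omega
    rw [nbc_double] at e1
    refine e1.trans (sum_le_sum fun a _ => nbc_mono a (filter_subset _ _))
  have k2 : ∑ a ∈ (A \ D).filter (fun a => ¬ a ∈ inn G A),
      (2 * nbc G a (blk G A D U) + (if 1 ≤ nbc G a U then nbc G a W else 0)) ≤
      ∑ a ∈ A \ D, (3 * nbc G a (tl G A D U) + 4 * nbc G a (flp G A D U) +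
        if a ∈ e0 G A D U then 1 else 0) := by
    refine (sum_le_sum (f := fun a => 2 * nbc G a (blk G A D U) + (if 1 ≤ nbc G a U then nbc G a W else 0))
      (g := fun a => 3 * nbc G a (tl G A D U) + 4 * nbc G a (flp G A D U) +
        if a ∈ e0 G A D U then 1 else 0) ?_).trans (sum_le_sum_of_subset (filter_subset _ _))
    intro a ha
    obtain ⟨haD, hai⟩ := mem_filter.1 ha
    have haA := (mem_sdiff.1 haD).1
    have e1 := nbc_not_inn haA hai
    have e2 := nbc_compl hG a A
    have e5 : nbc G a U = nbc G a (tl G A D U) + nbc G a (flp G A D U) := by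
      rw [← nbc_union a (tl_flp A D U), ← U_eq]
    have hcap := h.hcap a haD
    by_cases h1 : 1 ≤ nbc G a U
    · rw [if_pos h1]
      have e3 : nbc G a (U ∪ blk G A D U ∪ W) = nbc G a U + nbc G a (blk G A D U) + nbc G a W := by
        rw [nbc_union, nbc_union]
        · rw [disjoint_left]
          intro y hy hy'
          exact (mem_blk.1 hy').2.1 hy
        · rw [disjoint_left]
          intro y hy hy'
          have h2 := hW y hy'
          refine not_cands h2.1 h2.2 ?_
          rcases mem_union.1 hy with hy | hy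
          · exact h.hUK hy
          · exact (mem_blk.1 hy).1
      have e4 : nbc G a (U ∪ blk G A D U ∪ W) ≤ nbc G a Aᶜ := by
        refine nbc_mono a ?_
        intro y hy
        rcases mem_union.1 hy with hy | hy
        · rcases mem_union.1 hy with hy | hy
          · exact cands_compl (h.hUK hy)
          · exact blk_compl hy
        · exact (mem_inn.1 (hW y hy).1).1
      by_cases hk : a ∈ e0 G A D U
      · rw [if_pos hk]
        omega
      · rw [if_neg hk]
        have e6 : ¬ (nbc G a (blk G A D U) = 2 ∧ nbc G a (tl G A D U) = 1) := by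
          intro h6
          refine hk ?_
          unfold e0
          exact mem_filter.2 ⟨haD, hai, h6.1, h6.2⟩
        omega
    · rw [if_neg h1]
      have h0 : nbc G a (blk G A D U) = 0 := by
        by_contra h0
        obtain ⟨x, hx, hax⟩ := one_of_nbc (show 1 ≤ nbc G a (blk G A D U) by omega)
        obtain ⟨-, a', ha', hxa', hfull⟩ := h.blk_one hG hx
        have hae := h.blk_unique hG hx haD ha' hax.symm hxa'
        rw [← hae] at hfull
        omega
      omega
  rw [sum_add_distrib, sum_add_distrib, sum_add_distrib, ← mul_sum, ← mul_sum, ← mul_sum] at k2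
  omega

theorem Conf.tl20 (hG : IsCubic G) {A D U : Finset V} (h : Conf G A D U) :
    2 * ∑ u ∈ tl G A D U, exc G A D u + 3 * ∑ u ∈ tl G A D U, nbc G u (A \ D) ≤
      5 * (tl G A D U).card := by
  rw [mul_sum, mul_sum, ← sum_add_distrib, mul_comm, ← smul_eq_mul, ← sum_const]
  refine sum_le_sum fun u hu => ?_
  have huc := h.hUK (tl_U hu)
  have huA := cands_compl huc
  have e1 := nbc_compl hG u A
  have e2 := nbc_sdiff (G := G) u h.hDA
  by_cases hi : u ∈ inn G Aᶜ
  · have e3 := nbc_inn h.hB' hi
    have e4 := cands_inn huc hi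
    rw [exc_inn hi]
    omega
  · have e3 := nbc_not_inn huA hi
    have e4 := cands_not_inn huc hi
    rw [exc_not_inn hi]
    omega

/-- S1 for the bound `9/10` -/
theorem count20 (hG : IsCubic G) {A D U W : Finset V} (h : Conf G A D U)
    (hW : ∀ w ∈ W, w ∈ inn G Aᶜ ∧ nbc G w D = 0) :
    6 * D.card + (wb G A D U W).card ≤ 2 * (D.filter fun a => a ∈ inn G A).card +
      2 * (Aᶜ \ inn G Aᶜ).card +
      5 * ((top0 G A U).card + (low G A D U).card) + 10 * (flp G A D U).card + (e0 G A D U).card +
        2 * ∑ a ∈ (A \ D).filter (fun a => a ∈ inn G A), nbc G a (blk G A D U) := by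
  have s1 := h.sum_D hG
  have s2 := h.sum_exc
  have s3 := sum_exc_cands (G := G) A D
  have s4 := h.sum_cands hG
  have s5 := h.blk20 hG hW
  have s6 := h.tl20 hG
  have s7 := h.sum_flp hG
  have s8 : ∑ u ∈ U, exc G A D u = ∑ u ∈ tl G A D U, exc G A D u + ∑ u ∈ flp G A D U, exc G A D u := by
    rw [← sum_union (tl_flp A D U), ← U_eq]
  have s9 := card_tl (G := G) A D U
  omega

/-- the pairs: `Q` contains a member of every pair of cost `(2, 2)`, and of every pair of cost `(2, 1)`
whose second member has a neighbour in `W` -/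
theorem pair20 (hG : IsCubic G) {A D U W Q : Finset V} (h : Conf G A D U)
    (hW : ∀ w ∈ W, w ∈ inn G Aᶜ ∧ nbc G w D = 0)
    (hQ : ∀ a ∈ A \ D, ∀ b ∈ A \ D, G.Adj a b → nbc G a (blk G A D U) = 2 →
      (nbc G b (blk G A D U) = 2 ∨ (nbc G b (blk G A D U) = 1 ∧ 1 ≤ nbc G b W)) → a ∈ Q ∨ b ∈ Q) :
    2 * (∑ a ∈ (A \ D).filter (fun a => a ∈ inn G A), nbc G a (blk G A D U) +
      (D.filter fun a => a ∈ inn G A).card) + (wc G A W).card ≤ 3 * (inn G A).card + 5 * Q.card := by
  have k1 : ∑ a ∈ (A \ D).filter (fun a => a ∈ inn G A), nbc G a (blk G A D U) +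
      (D.filter fun a => a ∈ inn G A).card = ∑ a ∈ inn G A, pcost G A D U a := by
    rw [← sum_filter_add_sum_filter_not (inn G A) (fun a => a ∈ D), add_comm]
    congr 1
    · rw [card_eq_sum_ones]
      refine sum_congr ?_ ?_
      · ext a
        rw [mem_filter, mem_filter]
        exact ⟨fun k => ⟨k.2, k.1⟩, fun k => ⟨k.2, k.1⟩⟩
      · intro a ha
        unfold pcost
        rw [if_pos (mem_filter.1 ha).2]
    · refine sum_congr ?_ ?_
      · ext a
        rw [mem_filter, mem_filter, mem_sdiff]
        exact ⟨fun k => ⟨k.2, k.1.2⟩, fun k => ⟨⟨(mem_inn.1 k.1).1, k.2⟩, k.1⟩⟩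
      · intro a ha
        unfold pcost
        rw [if_neg (mem_filter.1 ha).2]
  have k2 : ∀ g : V → ℕ, ∑ a ∈ inn G A, ∑ c ∈ (inn G A).filter (fun w => G.Adj a w), g c =
      ∑ a ∈ inn G A, g a := by
    intro g
    rw [nbc_double_weight]
    refine sum_congr rfl fun c hc => ?_
    rw [nbc_inn_inn h.hA hc, one_mul]
  have k3 : (wc G A W).card ≤ ∑ a ∈ inn G A, nbc G a W := by
    have e1 : (wc G A W).card ≤ ∑ w ∈ wc G A W, nbc G w (inn G A) := by
      rw [card_eq_sum_ones]
      refine sum_le_sum fun w hw => ?_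
      obtain ⟨-, a, ha, hwa⟩ := mem_filter.1 hw
      exact nbc_pos ha hwa
    rw [nbc_double] at e1
    exact e1.trans (sum_le_sum fun a _ => nbc_mono a (filter_subset _ _))
  -- the value of a vertex
  have hDW : ∀ a ∈ inn G A, a ∈ D → nbc G a W = 0 := by
    intro a _ haD
    refine nbc_zero fun w hw haw => ?_
    have h1 := (hW w hw).2
    have h2 := nbc_pos haD haw.symm
    omega
  have hval : ∀ a ∈ inn G A, nbc G a (blk G A D U) + nbc G a W ≤ 2 := by
    intro a ha
    have e1 := nbc_compl hG a A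
    have e2 := nbc_inn h.hA' ha
    have e3 : nbc G a (blk G A D U ∪ W) = nbc G a (blk G A D U) + nbc G a W := by
      refine nbc_union a ?_
      rw [disjoint_left]
      intro y hy hy'
      have h2 := hW y hy'
      exact not_cands h2.1 h2.2 (mem_blk.1 hy).1
    have e4 : nbc G a (blk G A D U ∪ W) ≤ nbc G a Aᶜ := by
      refine nbc_mono a ?_
      intro y hy
      rcases mem_union.1 hy with hy | hy
      · exact blk_compl hy
      · exact (mem_inn.1 (hW y hy).1).1
    omega
  have k4 : ∑ a ∈ inn G A, ((2 * pcost G A D U a + nbc G a W) +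
      ∑ c ∈ (inn G A).filter (fun w => G.Adj a w), (2 * pcost G A D U c + nbc G c W)) ≤
      ∑ a ∈ inn G A, (6 + (5 * (if a ∈ Q then 1 else 0) +
        ∑ c ∈ (inn G A).filter (fun w => G.Adj a w), 5 * (if c ∈ Q then 1 else 0))) := by
    refine sum_le_sum fun a ha => ?_
    obtain ⟨h1, w, hw, haw⟩ := mem_inn.1 ha
    have hwi : w ∈ inn G A := mem_inn.2 ⟨hw, a, h1, haw.symm⟩
    have e1 : (inn G A).filter (fun w => G.Adj a w) = {w} := by
      ext c
      rw [mem_filter, mem_singleton]
      constructor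
      · rintro ⟨hc, hac⟩
        exact inn_adj_unique h.hA h1 (mem_inn.1 hc).1 hw hac haw
      · rintro rfl
        exact ⟨hwi, haw⟩
    rw [e1, sum_singleton, sum_singleton]
    have v1 := hval a ha
    have v2 := hval w hwi
    unfold pcost
    by_cases ha' : a ∈ D
    · have w1 := hDW a ha ha'
      rw [if_pos ha']
      by_cases hw' : w ∈ D
      · have w2 := hDW w hwi hw'
        rw [if_pos hw']
        omega
      · rw [if_neg hw']
        omega
    · rw [if_neg ha']
      by_cases hw' : w ∈ D
      · have w2 := hDW w hwi hw'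
        rw [if_pos hw']
        omega
      · rw [if_neg hw']
        have q1 := hQ a (mem_sdiff.2 ⟨h1, ha'⟩) w (mem_sdiff.2 ⟨hw, hw'⟩) haw
        have q2 := hQ w (mem_sdiff.2 ⟨hw, hw'⟩) a (mem_sdiff.2 ⟨h1, ha'⟩) haw.symm
        by_cases m1 : a ∈ Q
        · rw [if_pos m1]
          omega
        · by_cases m2 : w ∈ Q
          · rw [if_pos m2]
            omega
          · rw [if_neg m1, if_neg m2]
            have q1' : ¬ (nbc G a (blk G A D U) = 2 ∧ (nbc G w (blk G A D U) = 2 ∨
                (nbc G w (blk G A D U) = 1 ∧ 1 ≤ nbc G w W))) := by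
              rintro ⟨z1, z2⟩
              rcases q1 z1 z2 with z3 | z3
              · exact m1 z3
              · exact m2 z3
            have q2' : ¬ (nbc G w (blk G A D U) = 2 ∧ (nbc G a (blk G A D U) = 2 ∨
                (nbc G a (blk G A D U) = 1 ∧ 1 ≤ nbc G a W))) := by
              rintro ⟨z1, z2⟩
              rcases q2 z1 z2 with z3 | z3
              · exact m2 z3
              · exact m1 z3
            omega
  have l1 := k2 fun c => 2 * pcost G A D U c + nbc G c W
  have l2 := k2 fun c => 5 * (if c ∈ Q then 1 else 0)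
  rw [sum_add_distrib, l1] at k4
  have k6 : ∑ a ∈ inn G A, (6 + (5 * (if a ∈ Q then 1 else 0) +
        ∑ c ∈ (inn G A).filter (fun w => G.Adj a w), 5 * (if c ∈ Q then 1 else 0))) =
      6 * (inn G A).card + 10 * ∑ a ∈ inn G A, (if a ∈ Q then 1 else 0) := by
    rw [sum_add_distrib, sum_add_distrib, l2, ← mul_sum, sum_const, smul_eq_mul]
    ring
  have k7 : ∑ a ∈ inn G A, (2 * pcost G A D U a + nbc G a W) =
      2 * ∑ a ∈ inn G A, pcost G A D U a + ∑ a ∈ inn G A, nbc G a W := by
    rw [sum_add_distrib, ← mul_sum]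
  have k5 : ∑ a ∈ inn G A, (if a ∈ Q then 1 else 0) ≤ Q.card := by
    rw [← card_filter]
    exact card_le_card fun x hx => (mem_filter.1 hx).2
  omega

end Pool.Agent.MP_eb164e_co.UB
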