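import Mathlib

/-!
# Transversals of 3-uniform hypergraphs

A hypergraph with vertex set `X` and edges `N b`, `b ∈ E`, all of size `3`, has a transversal of
size at most `(|X| + |E|) / 4` (Chvátal–McDiarmid, Tuza).
-/

set_option autoImplicit false

noncomputable section

open Classical Finset

namespace Pool.Agent.MP_eb164e_co.UB

variable {α β : Type} (N : β → Finset α)

/-- `(X, E)` has a transversal `D` with `4 |D| + k ≤ |X| + |E|` -/
def HasT (X : Finset α) (E : Finset β) (k : ℕ) : Prop :=
  ∃ D ⊆ X, (∀ b ∈ E, ∃ d ∈ D, d ∈ N b) ∧ 4 * D.card + k ≤ X.card + E.card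

/-- the edges of `E` lie in `X` and have three vertices -/
def Unif (X : Finset α) (E : Finset β) : Prop := ∀ b ∈ E, N b ⊆ X ∧ (N b).card = 3

/-- no vertex lies in three edges, two edges share at most one vertex -/
def Lin (E : Finset β) : Prop :=
  (∀ x, ∀ b ∈ E, ∀ c ∈ E, ∀ d ∈ E, x ∈ N b → x ∈ N c → x ∈ N d → b = c ∨ b = d ∨ c = d) ∧
  ∀ b ∈ E, ∀ c ∈ E, b ≠ c → ∀ u v, u ∈ N b → u ∈ N c → v ∈ N b → v ∈ N c → u = v

/-- some edge has a vertex in no other edge and a vertex in another edge -/
def Mixed (E : Finset β) : Prop :=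
  ∃ b ∈ E, (∃ y ∈ N b, ∀ c ∈ E, y ∈ N c → c = b) ∧ ∃ w ∈ N b, ∃ d ∈ E, d ≠ b ∧ w ∈ N d

variable {N}

theorem HasT.reduce {X Z : Finset α} {E F : Finset β} {k k' : ℕ} {x : α} (hx : x ∈ Z) (hZ : Z ⊆ X)
    (hF : F ⊆ E) (hxF : ∀ b ∈ F, x ∈ N b) (h : HasT N (X \ Z) (E \ F) k')
    (hk : 4 + k ≤ Z.card + F.card + k') : HasT N X E k := by
  obtain ⟨D, hD, hDE, hc⟩ := h
  refine ⟨insert x D, ?_, ?_, ?_⟩
  · intro d hd
    rcases mem_insert.1 hd with rfl | hd
    · exact hZ hx
    · exact (mem_sdiff.1 (hD hd)).1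
  · intro b hb
    by_cases hbF : b ∈ F
    · exact ⟨x, mem_insert_self _ _, hxF b hbF⟩
    · obtain ⟨d, hd, hdb⟩ := hDE b (mem_sdiff.2 ⟨hb, hbF⟩)
      exact ⟨d, mem_insert_of_mem hd, hdb⟩
  · have h1 := card_insert_le x D
    have h2 := card_sdiff_add_card_eq_card hZ
    have h3 := card_sdiff_add_card_eq_card hF
    omega

theorem Unif.sdiff {X Z : Finset α} {E F : Finset β} (h : Unif N X E)
    (hZ : ∀ b ∈ E, b ∉ F → ∀ z ∈ Z, z ∉ N b) : Unif N (X \ Z) (E \ F) := by
  intro b hb
  obtain ⟨hb, hbF⟩ := mem_sdiff.1 hb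
  refine ⟨fun v hv => mem_sdiff.2 ⟨(h b hb).1 hv, fun hvZ => hZ b hb hbF v hvZ hv⟩, (h b hb).2⟩

theorem Lin.sdiff {E F : Finset β} (h : Lin N E) : Lin N (E \ F) :=
  ⟨fun x b hb c hc d hd => h.1 x b (mem_sdiff.1 hb).1 c (mem_sdiff.1 hc).1 d (mem_sdiff.1 hd).1,
    fun b hb c hc => h.2 b (mem_sdiff.1 hb).1 c (mem_sdiff.1 hc).1⟩

theorem card_lt_of_mem {E F : Finset β} {b : β} (hb : b ∈ E) (hbF : b ∈ F) : (E \ F).card < E.card :=
  card_lt_card ⟨sdiff_subset, fun h => (mem_sdiff.1 (h hb)).2 hbF⟩

/-- two further elements of a three element set -/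
theorem exists_two {s : Finset α} (hs : s.card = 3) {v : α} (hv : v ∈ s) :
    ∃ p ∈ s, ∃ q ∈ s, p ≠ v ∧ q ≠ v ∧ p ≠ q := by
  have h : (s.erase v).card = 2 := by rw [card_erase_of_mem hv, hs]
  obtain ⟨p, q, hpq, he⟩ := card_eq_two.1 h
  have hp : p ∈ s.erase v := by rw [he]; simp
  have hq : q ∈ s.erase v := by rw [he]; simp
  exact ⟨p, mem_of_mem_erase hp, q, mem_of_mem_erase hq, ne_of_mem_erase hp, ne_of_mem_erase hq, hpq⟩

/-- a third element of a three element set -/
theorem exists_third {s : Finset α} (hs : s.card = 3) (u v : α) : ∃ p ∈ s, p ≠ u ∧ p ≠ v := by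
  have h : 0 < (s \ {u, v}).card := by
    have h1 := le_card_sdiff {u, v} s
    have h2 : ({u, v} : Finset α).card ≤ 2 := card_le_two
    omega
  obtain ⟨p, hp⟩ := card_pos.1 h
  simp only [mem_sdiff, mem_insert, mem_singleton, not_or] at hp
  exact ⟨p, hp.1, hp.2.1, hp.2.2⟩

theorem card_three {a b c : α} (h1 : a ≠ b) (h2 : a ≠ c) (h3 : b ≠ c) : ({a, b, c} : Finset α).card = 3 :=
  card_eq_three.2 ⟨a, b, c, h1, h2, h3, rfl⟩

theorem mixed_step {X : Finset α} {E : Finset β} (hU : Unif N X E) (hL : Lin N E) (hM : Mixed N E)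
    (ihP : ∀ X' : Finset α, ∀ E' : Finset β, E'.card < E.card → Unif N X' E' → HasT N X' E' 0)
    (ihQ : ∀ X' : Finset α, ∀ E' : Finset β, E'.card < E.card → Unif N X' E' → Lin N E' → Mixed N E' →
      HasT N X' E' 1) : HasT N X E 1 := by
  obtain ⟨b, hb, ⟨y, hy, hyp⟩, w, hw, d, hd, hdb, hwd⟩ := hM
  have hyw : y ≠ w := by
    rintro rfl
    exact hdb (hyp d hd hwd)
  obtain ⟨v, hv, hvy, hvw⟩ := exists_third (hU b hb).2 y w
  by_cases hvp : ∀ c ∈ E, v ∈ N c → c = b
  · -- all of `y`, `v` private
    refine HasT.reduce (x := w) (Z := {y, w, v}) (F := {b, d}) (k' := 0) (by simp) ?_ ?_ ?_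
      (ihP _ _ (card_lt_of_mem hb (by simp)) (hU.sdiff ?_)) ?_
    · intro z hz
      simp only [mem_insert, mem_singleton] at hz
      rcases hz with rfl | rfl | rfl
      · exact (hU b hb).1 hy
      · exact (hU b hb).1 hw
      · exact (hU b hb).1 hv
    · intro z hz
      simp only [mem_insert, mem_singleton] at hz
      rcases hz with rfl | rfl
      · exact hb
      · exact hd
    · intro z hz
      simp only [mem_insert, mem_singleton] at hz
      rcases hz with rfl | rfl
      · exact hw
      · exact hwd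
    · intro e he heF z hz hze
      simp only [mem_insert, mem_singleton, not_or] at heF hz
      rcases hz with rfl | rfl | rfl
      · exact heF.1 (hyp e he hze)
      · rcases hL.1 _ b hb d hd e he hw hwd hze with h | h | h
        · exact hdb h.symm
        · exact heF.1 h.symm
        · exact heF.2 h.symm
      · exact heF.1 (hvp e he hze)
    · rw [card_three hyw hvy.symm hvw.symm, card_pair hdb.symm]
  · push Not at hvp
    obtain ⟨g, hg, hvg, hgb⟩ := hvp
    have hgd : g ≠ d := by
      rintro rfl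
      exact hvw (hL.2 b hb g hg hgb.symm v w hv hvg hw hwd)
    by_cases hgp : ∃ p ∈ N g, p ≠ v ∧ ∀ c ∈ E, p ∈ N c → c = g
    · obtain ⟨p, hp, hpv, hpp⟩ := hgp
      have hyp' : y ≠ p := by
        rintro rfl
        exact hgb (hyp g hg hp)
      refine HasT.reduce (x := v) (Z := {y, v, p}) (F := {b, g}) (k' := 0) (by simp) ?_ ?_ ?_
        (ihP _ _ (card_lt_of_mem hb (by simp)) (hU.sdiff ?_)) ?_
      · intro z hz
        simp only [mem_insert, mem_singleton] at hz
        rcases hz with rfl | rfl | rfl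
        · exact (hU b hb).1 hy
        · exact (hU b hb).1 hv
        · exact (hU g hg).1 hp
      · intro z hz
        simp only [mem_insert, mem_singleton] at hz
        rcases hz with rfl | rfl
        · exact hb
        · exact hg
      · intro z hz
        simp only [mem_insert, mem_singleton] at hz
        rcases hz with rfl | rfl
        · exact hv
        · exact hvg
      · intro e he heF z hz hze
        simp only [mem_insert, mem_singleton, not_or] at heF hz
        rcases hz with rfl | rfl | rfl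
        · exact heF.1 (hyp e he hze)
        · rcases hL.1 _ b hb g hg e he hv hvg hze with h | h | h
          · exact hgb h.symm
          · exact heF.1 h.symm
          · exact heF.2 h.symm
        · exact heF.2 (hpp e he hze)
      · rw [card_three hvy.symm hyp' hpv.symm, card_pair hgb.symm]
    · push Not at hgp
      obtain ⟨p, hp, q, hq, hpv, hqv, hpq⟩ := exists_two (hU g hg).2 hvg
      have key : ∃ s ∈ N g, s ≠ v ∧ s ∉ N d := by
        by_contra hcon
        push Not at hcon
        exact hpq (hL.2 g hg d hd hgd p q hp (hcon p hp hpv) hq (hcon q hq hqv))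
      obtain ⟨s, hs, hsv, hsd⟩ := key
      obtain ⟨h, hh, hsh, hhg⟩ := hgp s hs hsv
      have hhb : h ≠ b := by
        rintro rfl
        exact hsv (hL.2 g hg h hb hgb s v hs hsh hvg hv)
      have hhd : h ≠ d := by
        rintro rfl
        exact hsd hsh
      refine HasT.reduce (x := w) (Z := {y, w}) (F := {b, d}) (k' := 1) (by simp) ?_ ?_ ?_
        (ihQ _ _ (card_lt_of_mem hb (by simp)) (hU.sdiff ?_) hL.sdiff ?_) ?_
      · intro z hz
        simp only [mem_insert, mem_singleton] at hz
        rcases hz with rfl | rfl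
        · exact (hU b hb).1 hy
        · exact (hU b hb).1 hw
      · intro z hz
        simp only [mem_insert, mem_singleton] at hz
        rcases hz with rfl | rfl
        · exact hb
        · exact hd
      · intro z hz
        simp only [mem_insert, mem_singleton] at hz
        rcases hz with rfl | rfl
        · exact hw
        · exact hwd
      · intro e he heF z hz hze
        simp only [mem_insert, mem_singleton, not_or] at heF hz
        rcases hz with rfl | rfl
        · exact heF.1 (hyp e he hze)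
        · rcases hL.1 _ b hb d hd e he hw hwd hze with h | h | h
          · exact hdb h.symm
          · exact heF.1 h.symm
          · exact heF.2 h.symm
      · refine ⟨g, by simp [hg, hgb, hgd], ⟨v, hvg, ?_⟩, s, hs, h, by simp [hh, hhb, hhd], hhg, hsh⟩
        intro c hc hvc
        simp only [mem_sdiff, mem_insert, mem_singleton, not_or] at hc
        rcases hL.1 _ b hb g hg c hc.1 hv hvg hvc with h | h | h
        · exact absurd h.symm hgb
        · exact absurd h.symm hc.2.1
        · exact h.symm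
      · rw [card_pair hyw, card_pair hdb.symm]

theorem trans_step {X : Finset α} {E : Finset β} (hU : Unif N X E)
    (ihP : ∀ X' : Finset α, ∀ E' : Finset β, E'.card < E.card → Unif N X' E' → HasT N X' E' 0)
    (ihQ : ∀ X' : Finset α, ∀ E' : Finset β, E'.card < E.card → Unif N X' E' → Lin N E' → Mixed N E' →
      HasT N X' E' 1) : HasT N X E 0 := by
  rcases E.eq_empty_or_nonempty with rfl | ⟨b0, hb0⟩
  · exact ⟨∅, empty_subset _, by simp, by simp⟩
  by_cases h3 : ∀ x, ∀ b ∈ E, ∀ c ∈ E, ∀ d ∈ E, x ∈ N b → x ∈ N c → x ∈ N d → b = c ∨ b = d ∨ c = d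
  swap
  · -- a vertex of degree three
    push Not at h3
    obtain ⟨x, b, hb, c, hc, d, hd, hxb, hxc, hxd, hbc, hbd, hcd⟩ := h3
    refine HasT.reduce (x := x) (Z := {x}) (F := E.filter fun e => x ∈ N e) (k' := 0) (by simp) ?_ ?_ ?_
      (ihP _ _ (card_lt_of_mem hb (by simp [hb, hxb])) (hU.sdiff ?_)) ?_
    · simpa using (hU b hb).1 hxb
    · exact filter_subset _ _
    · intro e he
      exact (mem_filter.1 he).2
    · intro e he heF z hz hze
      rw [mem_singleton] at hz
      subst hz
      exact heF (mem_filter.2 ⟨he, hze⟩)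
    · have h1 : ({b, c, d} : Finset β) ⊆ E.filter fun e => x ∈ N e := by
        intro z hz
        simp only [mem_insert, mem_singleton] at hz
        rcases hz with rfl | rfl | rfl
        · simp [hb, hxb]
        · simp [hc, hxc]
        · simp [hd, hxd]
      have h2 := card_le_card h1
      rw [card_three hbc hbd hcd] at h2
      rw [card_singleton]
      omega
  by_cases h2 : ∀ b ∈ E, ∀ c ∈ E, b ≠ c → ∀ u v, u ∈ N b → u ∈ N c → v ∈ N b → v ∈ N c → u = v
  swap
  · -- two edges with two common vertices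
    push Not at h2
    obtain ⟨b, hb, c, hc, hbc, u, v, hub, huc, hvb, hvc, huv⟩ := h2
    refine HasT.reduce (x := u) (Z := {u, v}) (F := {b, c}) (k' := 0) (by simp) ?_ ?_ ?_
      (ihP _ _ (card_lt_of_mem hb (by simp)) (hU.sdiff ?_)) ?_
    · intro z hz
      simp only [mem_insert, mem_singleton] at hz
      rcases hz with rfl | rfl
      · exact (hU b hb).1 hub
      · exact (hU b hb).1 hvb
    · intro z hz
      simp only [mem_insert, mem_singleton] at hz
      rcases hz with rfl | rfl
      · exact hb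
      · exact hc
    · intro z hz
      simp only [mem_insert, mem_singleton] at hz
      rcases hz with rfl | rfl
      · exact hub
      · exact huc
    · intro e he heF z hz hze
      simp only [mem_insert, mem_singleton, not_or] at heF hz
      rcases hz with rfl | rfl
      · rcases h3 _ b hb c hc e he hub huc hze with h | h | h
        · exact hbc h
        · exact heF.1 h.symm
        · exact heF.2 h.symm
      · rcases h3 _ b hb c hc e he hvb hvc hze with h | h | h
        · exact hbc h
        · exact heF.1 h.symm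
        · exact heF.2 h.symm
    · rw [card_pair huv, card_pair hbc]
  have hL : Lin N E := ⟨h3, h2⟩
  by_cases hM : Mixed N E
  · obtain ⟨D, h1, h2, h3⟩ := mixed_step hU hL hM ihP ihQ
    exact ⟨D, h1, h2, by omega⟩
  by_cases hp : ∃ b ∈ E, ∃ y ∈ N b, ∀ c ∈ E, y ∈ N c → c = b
  · -- an isolated edge
    obtain ⟨b, hb, y, hy, hyp⟩ := hp
    refine HasT.reduce (x := y) (Z := N b) (F := {b}) (k' := 0) hy (hU b hb).1 ?_ ?_
      (ihP _ _ (card_lt_of_mem hb (by simp)) (hU.sdiff ?_)) ?_
    · simpa using hb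
    · intro e he
      rw [mem_singleton] at he
      rwa [he]
    · intro e he heF z hz hze
      rw [mem_singleton] at heF
      exact hM ⟨b, hb, ⟨y, hy, hyp⟩, z, hz, e, he, heF, hze⟩
    · rw [(hU b hb).2, card_singleton]
  · -- no private vertices
    push Not at hp
    obtain ⟨x, hx⟩ : (N b0).Nonempty := by
      rw [← card_pos, (hU b0 hb0).2]
      norm_num
    obtain ⟨y, hy, -, -, hyx, -, -⟩ := exists_two (hU b0 hb0).2 hx
    obtain ⟨c, hc, hxc, hcb⟩ := hp b0 hb0 x hx
    obtain ⟨g, hg, hyg, hgb⟩ := hp b0 hb0 y hy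
    have hgc : g ≠ c := by
      rintro rfl
      exact hyx (hL.2 b0 hb0 g hg hgb.symm y x hy hyg hx hxc)
    obtain ⟨p, hp1, q, hq, hpy, hqy, hpq⟩ := exists_two (hU g hg).2 hyg
    have key : ∃ s ∈ N g, s ≠ y ∧ s ∉ N c := by
      by_contra hcon
      push Not at hcon
      exact hpq (hL.2 g hg c hc hgc p q hp1 (hcon p hp1 hpy) hq (hcon q hq hqy))
    obtain ⟨s, hs, hsy, hsc⟩ := key
    obtain ⟨h, hh, hsh, hhg⟩ := hp g hg s hs
    have hhb : h ≠ b0 := by
      rintro rfl
      exact hsy (hL.2 g hg h hb0 hgb s y hs hsh hyg hy)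
    have hhc : h ≠ c := by
      rintro rfl
      exact hsc hsh
    refine HasT.reduce (x := x) (Z := {x}) (F := {b0, c}) (k' := 1) (by simp) ?_ ?_ ?_
      (ihQ _ _ (card_lt_of_mem hb0 (by simp)) (hU.sdiff ?_) hL.sdiff ?_) ?_
    · simpa using (hU b0 hb0).1 hx
    · intro z hz
      simp only [mem_insert, mem_singleton] at hz
      rcases hz with rfl | rfl
      · exact hb0
      · exact hc
    · intro z hz
      simp only [mem_insert, mem_singleton] at hz
      rcases hz with rfl | rfl
      · exact hx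
      · exact hxc
    · intro e he heF z hz hze
      simp only [mem_insert, mem_singleton, not_or] at heF hz
      subst hz
      rcases hL.1 _ b0 hb0 c hc e he hx hxc hze with h | h | h
      · exact hcb h.symm
      · exact heF.1 h.symm
      · exact heF.2 h.symm
    · refine ⟨g, by simp [hg, hgb, hgc], ⟨y, hyg, ?_⟩, s, hs, h, by simp [hh, hhb, hhc], hhg, hsh⟩
      intro c' hc' hyc
      simp only [mem_sdiff, mem_insert, mem_singleton, not_or] at hc'
      rcases hL.1 _ b0 hb0 g hg c' hc'.1 hy hyg hyc with h | h | h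
      · exact absurd h.symm hgb
      · exact absurd h.symm hc'.2.1
      · exact h.symm
    · rw [card_singleton, card_pair hcb.symm]

theorem trans_both (n : ℕ) : (∀ X : Finset α, ∀ E : Finset β, E.card = n → Unif N X E → HasT N X E 0) ∧
    ∀ X : Finset α, ∀ E : Finset β, E.card = n → Unif N X E → Lin N E → Mixed N E → HasT N X E 1 := by
  induction n using Nat.strong_induction_on with
  | _ n ih =>
    have ihP : ∀ m < n, ∀ X' : Finset α, ∀ E' : Finset β, E'.card = m → Unif N X' E' → HasT N X' E' 0 :=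
      fun m hm => (ih m hm).1
    have ihQ : ∀ m < n, ∀ X' : Finset α, ∀ E' : Finset β, E'.card = m → Unif N X' E' → Lin N E' →
        Mixed N E' → HasT N X' E' 1 := fun m hm => (ih m hm).2
    constructor
    · intro X E hE hU
      subst hE
      exact trans_step hU (fun X' E' h => ihP _ h X' E' rfl) (fun X' E' h => ihQ _ h X' E' rfl)
    · intro X E hE hU hL hM
      subst hE
      exact mixed_step hU hL hM (fun X' E' h => ihP _ h X' E' rfl) (fun X' E' h => ihQ _ h X' E' rfl)

/-- **Chvátal–McDiarmid, Tuza**: a 3-uniform hypergraph has a transversal of size at most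
`(|X| + |E|) / 4`. -/
theorem exists_transversal {X : Finset α} {E : Finset β} (hU : ∀ b ∈ E, N b ⊆ X ∧ (N b).card = 3) :
    ∃ D ⊆ X, (∀ b ∈ E, ∃ d ∈ D, d ∈ N b) ∧ 4 * D.card ≤ X.card + E.card := by
  obtain ⟨D, h1, h2, h3⟩ := (trans_both (N := N) E.card).1 X E rfl hU
  exact ⟨D, h1, h2, by omega⟩

end Pool.Agent.MP_eb164e_co.UB
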