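import Pool.Agent.Lib.MP_eb164e_co.Defs
import Pool.Agent.Lib.MP_eb164e_co.UB.Trans

/-!
# A cut of a cubic graph with at most one neighbour on the own side
-/

set_option autoImplicit false

noncomputable section

open Classical Finset

namespace Pool.Agent.MP_eb164e_co.UB

variable {V : Type} [Fintype V] (G : SimpleGraph V)

/-- the vertices of `A` with a neighbour in `A` -/
def inn (A : Finset V) : Finset V := A.filter fun a => ∃ w ∈ A, G.Adj a w

/-- the ordered pairs of the cut -/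
def cutSet (A : Finset V) : Finset (V × V) := univ.filter fun p => p.1 ∈ A ∧ p.2 ∈ Aᶜ ∧ G.Adj p.1 p.2

theorem cutSet_compl (A : Finset V) : (cutSet G Aᶜ).card = (cutSet G A).card := by
  refine card_bij (fun p _ => p.swap) ?_ ?_ ?_
  · rintro ⟨a, b⟩ h
    simp only [cutSet, mem_filter, mem_univ, true_and, compl_compl, Prod.swap] at h ⊢
    exact ⟨h.2.1, h.1, h.2.2.symm⟩
  · rintro ⟨a, b⟩ _ ⟨c, d⟩ _ h
    simpa [and_comm] using h
  · rintro ⟨a, b⟩ h
    simp only [cutSet, mem_filter, mem_univ, true_and] at h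
    refine ⟨(b, a), ?_, rfl⟩
    simp only [cutSet, mem_filter, mem_univ, true_and, compl_compl]
    exact ⟨h.2.1, h.1, h.2.2.symm⟩

variable {G}

theorem cut_erase (hG : IsCubic G) {A : Finset V} {a : V} (ha : a ∈ A)
    (h2 : 2 ≤ (A.filter fun w => G.Adj a w).card) : (cutSet G A).card < (cutSet G (A.erase a)).card := by
  have h3 : (A.filter fun w => G.Adj a w).card + (Aᶜ.filter fun w => G.Adj a w).card = 3 := by
    rw [← hG a, ← card_union_of_disjoint]
    · congr 1
      ext w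
      simp only [mem_union, mem_filter, mem_compl, mem_univ, true_and]
      tauto
    · rw [disjoint_left]
      intro w hw hw'
      simp only [mem_filter, mem_compl] at hw hw'
      exact hw'.1 hw.1
  have e1 : (cutSet G A).card =
      ((cutSet G A).filter fun p => p.1 ≠ a).card + ((cutSet G A).filter fun p => ¬ p.1 ≠ a).card :=
    (card_filter_add_card_filter_not (s := cutSet G A) fun p : V × V => p.1 ≠ a).symm
  have e2 : ((cutSet G A).filter fun p => ¬ p.1 ≠ a).card ≤ (Aᶜ.filter fun w => G.Adj a w).card := by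
    refine card_le_card_of_injOn (fun p => p.2) ?_ ?_
    · rintro ⟨u, v⟩ h
      simp only [cutSet, coe_filter, mem_filter, mem_univ, true_and, not_not, Set.mem_ofPred_eq] at h ⊢
      obtain ⟨⟨k1, k2, k3⟩, rfl⟩ := h
      exact ⟨k2, k3⟩
    · rintro ⟨u, v⟩ h ⟨u', v'⟩ h' he
      simp only [coe_filter, not_not, Set.mem_ofPred_eq] at h h'
      obtain ⟨-, rfl⟩ := h
      obtain ⟨-, rfl⟩ := h'
      simp only at he
      rw [he]
  have e3 : (((cutSet G A).filter fun p => p.1 ≠ a) ∪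
      (A.filter fun w => G.Adj a w).image fun u => (u, a)).card ≤ (cutSet G (A.erase a)).card := by
    refine card_le_card ?_
    intro p hp
    rcases mem_union.1 hp with hp | hp
    · simp only [cutSet, mem_filter, mem_univ, true_and, mem_compl] at hp ⊢
      refine ⟨mem_erase.2 ⟨hp.2, hp.1.1⟩, fun h => hp.1.2.1 (mem_of_mem_erase h), hp.1.2.2⟩
    · obtain ⟨u, hu, rfl⟩ := mem_image.1 hp
      obtain ⟨hu, hau⟩ := mem_filter.1 hu
      simp only [cutSet, mem_filter, mem_univ, true_and, mem_compl, mem_erase]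
      refine ⟨⟨fun h => ?_, hu⟩, by simp, hau.symm⟩
      subst h
      exact G.loopless.irrefl _ hau
  rw [card_union_of_disjoint, card_image_of_injective] at e3
  · omega
  · intro u v h
    simpa using h
  · rw [disjoint_left]
    intro p hp hp'
    obtain ⟨u, -, rfl⟩ := mem_image.1 hp'
    simp only [cutSet, mem_filter, mem_univ, true_and, mem_compl] at hp
    exact hp.1.2.1 ha

/-- there is a cut in which every vertex has at most one neighbour on its own side -/
theorem exists_cut (hG : IsCubic G) : ∃ A : Finset V, (∀ a ∈ A, (A.filter fun w => G.Adj a w).card ≤ 1) ∧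
    ∀ b ∈ Aᶜ, (Aᶜ.filter fun w => G.Adj b w).card ≤ 1 := by
  obtain ⟨A, hA⟩ := Finite.exists_max fun A : Finset V => (cutSet G A).card
  refine ⟨A, ?_, ?_⟩
  · intro a ha
    by_contra h
    have := cut_erase hG ha (by omega)
    exact absurd (hA (A.erase a)) (by omega)
  · intro b hb
    by_contra h
    have h1 := cut_erase hG hb (by omega)
    have h2 := hA (Aᶜ.erase b)
    rw [cutSet_compl] at h1
    omega

/-- a transversal of the neighbourhoods of the vertices outside `A` without neighbour outside `A` -/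
theorem exists_hitting (hG : IsCubic G) (A : Finset V) : ∃ D ⊆ A,
    (∀ b ∈ Aᶜ, b ∉ inn G Aᶜ → ∃ d ∈ D, G.Adj b d) ∧
      4 * D.card + (inn G Aᶜ).card ≤ A.card + Aᶜ.card := by
  obtain ⟨D, h1, h2, h3⟩ := exists_transversal (N := fun b : V => univ.filter fun w => G.Adj b w)
    (X := A) (E := Aᶜ \ inn G Aᶜ) (by
      intro b hb
      refine ⟨?_, hG b⟩
      intro w hw
      by_contra hwA
      refine (mem_sdiff.1 hb).2 ?_
      unfold inn
      exact mem_filter.2 ⟨(mem_sdiff.1 hb).1, w, mem_compl.2 hwA, (mem_filter.1 hw).2⟩)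
  refine ⟨D, h1, ?_, ?_⟩
  · intro b hb hb'
    obtain ⟨d, hd, hbd⟩ := h2 b (mem_sdiff.2 ⟨hb, hb'⟩)
    exact ⟨d, hd, (mem_filter.1 hbd).2⟩
  · have h4 : inn G Aᶜ ⊆ Aᶜ := filter_subset _ _
    have h5 := card_sdiff_add_card_eq_card h4
    omega

/-- a minimal transversal: every vertex of `D` has a private neighbour -/
theorem exists_hitting_min (hG : IsCubic G) (A : Finset V) : ∃ D ⊆ A,
    (∀ b ∈ Aᶜ, b ∉ inn G Aᶜ → ∃ d ∈ D, G.Adj b d) ∧
      (∀ d ∈ D, ∃ b ∈ Aᶜ, b ∉ inn G Aᶜ ∧ G.Adj b d ∧ ∀ d' ∈ D, G.Adj b d' → d' = d) ∧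
        4 * D.card + (inn G Aᶜ).card ≤ A.card + Aᶜ.card := by
  obtain ⟨D0, h1, h2, h3⟩ := exists_hitting hG A
  obtain ⟨D, hD, hmin⟩ := exists_min_image
    (univ.filter fun D : Finset V => D ⊆ A ∧ ∀ b ∈ Aᶜ, b ∉ inn G Aᶜ → ∃ d ∈ D, G.Adj b d)
    (fun D => D.card) ⟨D0, mem_filter.2 ⟨mem_univ _, h1, h2⟩⟩
  obtain ⟨-, hDA, hDh⟩ := mem_filter.1 hD
  refine ⟨D, hDA, hDh, ?_, ?_⟩
  · intro d hd
    by_contra hcon
    push Not at hcon
    have h4 := hmin (D.erase d) (by
      refine mem_filter.2 ⟨mem_univ _, (erase_subset _ _).trans hDA, ?_⟩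
      intro b hb hb'
      obtain ⟨d', hd', hbd⟩ := hDh b hb hb'
      by_cases he : d' = d
      · subst he
        obtain ⟨d2, hd2, hbd2, hne⟩ := hcon b hb hb' hbd
        exact ⟨d2, mem_erase.2 ⟨hne, hd2⟩, hbd2⟩
      · exact ⟨d', mem_erase.2 ⟨he, hd'⟩, hbd⟩)
    rw [card_erase_of_mem hd] at h4
    have h5 := card_pos.2 ⟨d, hd⟩
    omega
  · have h6 := hmin D0 (mem_filter.2 ⟨mem_univ _, h1, h2⟩)
    omega

end Pool.Agent.MP_eb164e_co.UB
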