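import Pool.Agent.Lib.MP_eb164e_co.UB.Side20

/-!
# A bound in terms of the number of edges which have to be deleted to make the graph bipartite
-/

set_option autoImplicit false

noncomputable section

open Classical Finset

namespace Pool.Agent.MP_eb164e_co.UB

set_option linter.unusedSectionVars false

variable {V : Type} [Fintype V] {G : SimpleGraph V}

theorem flp_le {A D U : Finset V} (h : Conf G A D U) : 2 * (flp G A D U).card ≤ (inn G Aᶜ).card := by
  have h1 : ∀ u : V, ∃ w : V, u ∈ flp G A D U → w ∈ Aᶜ ∧ G.Adj u w := by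
    intro u
    by_cases hu : u ∈ flp G A D U
    · obtain ⟨-, -, w, hw, huw, -⟩ := mem_filter.1 hu
      exact ⟨w, fun _ => ⟨hw, huw⟩⟩
    · exact ⟨u, fun h => absurd h hu⟩
  choose w hw using h1
  have hUc : ∀ u ∈ flp G A D U, u ∈ Aᶜ := fun u hu => cands_compl (h.hUK (mem_filter.1 hu).1)
  have hinj : Set.InjOn w (flp G A D U : Set V) := by
    intro u hu v hv he
    have hu' := hw u hu
    have hv' := hw v hv
    refine inn_adj_unique h.hB hu'.1 (hUc u hu) (hUc v hv) hu'.2.symm ?_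
    rw [he]
    exact hv'.2.symm
  have hd : Disjoint (flp G A D U) ((flp G A D U).image w) := by
    rw [disjoint_left]
    intro x hx hx'
    obtain ⟨u, hu, rfl⟩ := mem_image.1 hx'
    exact h.hind u (mem_filter.1 hu).1 (w u) (mem_filter.1 hx).1 (hw u hu).2
  have hsub : flp G A D U ∪ (flp G A D U).image w ⊆ inn G Aᶜ := by
    refine union_subset (fun u hu => (mem_filter.1 hu).2.1) fun x hx => ?_
    obtain ⟨u, hu, rfl⟩ := mem_image.1 hx
    exact mem_inn.2 ⟨(hw u hu).1, u, hUc u hu, (hw u hu).2.symm⟩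
  have h2 := card_le_card hsub
  rw [card_union_of_disjoint hd, card_image_of_injOn hinj] at h2
  omega

theorem full_le {A D U Q : Finset V} (h : Conf G A D U)
    (hQ : ∀ a ∈ A \ D, ∀ b ∈ A \ D, G.Adj a b → nbc G a (blk G A D U) = 2 →
      nbc G b (blk G A D U) = 2 → a ∈ Q ∨ b ∈ Q) : (full G A D U).card ≤ 2 * Q.card := by
  have h1 : ∀ a : V, ∃ b : V, a ∈ full G A D U → b ∈ A \ D ∧ G.Adj a b ∧ nbc G b (blk G A D U) = 2 := by
    intro a
    by_cases ha : a ∈ full G A D U
    · obtain ⟨-, -, b, h2, h3, h4⟩ := mem_filter.1 ha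
      exact ⟨b, fun _ => ⟨h2, h3, h4⟩⟩
    · exact ⟨a, fun h => absurd h ha⟩
  choose p hp using h1
  have hsub : full G A D U ⊆ Q ∪ Q.image p := by
    intro a ha
    obtain ⟨h2, h3, -⟩ := mem_filter.1 ha
    obtain ⟨h4, h5, h6⟩ := hp a ha
    rcases hQ a h2 (p a) h4 h5 h3 h6 with h7 | h7
    · exact mem_union_left _ h7
    · refine mem_union_right _ (mem_image.2 ⟨p a, h7, ?_⟩)
      have h8 : p a ∈ full G A D U := mem_filter.2 ⟨h4, h6, a, h2, h5.symm, h3⟩
      obtain ⟨h9, h10, -⟩ := hp (p a) h8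
      exact inn_adj_unique h.hA (mem_sdiff.1 h4).1 (mem_sdiff.1 h9).1 (mem_sdiff.1 h2).1 h10 h5.symm
  have h2 := card_le_card hsub
  have h3 := card_union_le Q (Q.image p)
  have h4 : (Q.image p).card ≤ Q.card := card_image_le
  omega

theorem side_nb (hG : IsCubic G) {A : Finset V} (hA : ∀ a ∈ A, nbc G a A ≤ 1)
    (hB : ∀ b ∈ Aᶜ, nbc G b Aᶜ ≤ 1)
    (hMC : ∀ a ∈ inn G A, ∀ y ∈ inn G Aᶜ, ∀ z ∈ inn G Aᶜ, G.Adj a y → G.Adj a z → y ≠ z → G.Adj y z) :
    ∃ (f : V → ℤ) (d g : ℕ), IsSDRDF G f ∧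
      ∑ v, f v + g ≤ 2 * (Aᶜ.card : ℤ) - A.card + 2 * d ∧
      4 * d + (inn G Aᶜ).card ≤ A.card + Aᶜ.card ∧
      12 * d ≤ 8 * g + 4 * (Aᶜ \ inn G Aᶜ).card + 6 * (inn G A).card + 3 * (inn G Aᶜ).card := by
  obtain ⟨D, U, h, hDc⟩ := exists_conf hG hA hB hMC
  obtain ⟨f, W, Q, c, hf, hW, hc, hQ, hw⟩ := exists_function20 hG h
  have h1 := count16 hG h
  have h2 := pair_cost hG h
  have h3 := e0_split (G := G) (A := A) (D := D) (U := U)
  have h4 := eo_le hG h
  have h5 := flp_le h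
  have h6 := full_le (Q := Q) h fun a ha b hb hab h7 h8 => hQ a ha b hb hab h7 (Or.inl h8)
  refine ⟨f, D.card, (top0 G A U).card + (low G A D U).card + 2 * (flp G A D U).card +
    (er G A D U).card + Q.card + c, hf, ?_, hDc, ?_⟩
  · push_cast at hw ⊢
    linarith
  · omega

theorem card_prod (S T : Finset V) : ((S ×ˢ T).filter fun p => G.Adj p.1 p.2).card = ∑ a ∈ S, nbc G a T := by
  rw [card_filter, sum_product]
  refine sum_congr rfl fun a _ => ?_
  unfold nbc
  rw [card_filter]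

theorem cutSet_card (A : Finset V) : (cutSet G A).card = ∑ a ∈ A, nbc G a Aᶜ := by
  rw [← card_prod]
  congr 1
  ext p
  simp only [cutSet, mem_filter, mem_univ, true_and, mem_product]
  tauto

/-- twice the number of edges inside `A` or inside the complement -/
def sameN (G : SimpleGraph V) (A : Finset V) : ℕ := ∑ v ∈ A, nbc G v A + ∑ v ∈ Aᶜ, nbc G v Aᶜ

theorem sameN_cut (hG : IsCubic G) (A : Finset V) :
    sameN G A + 2 * (cutSet G A).card = 3 * Fintype.card V := by
  have h1 : ∑ v ∈ A, nbc G v A + ∑ v ∈ A, nbc G v Aᶜ = A.card * 3 := by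
    rw [← sum_add_distrib, sum_congr rfl fun v _ => nbc_compl hG v A, sum_const, smul_eq_mul]
  have h2 : ∑ v ∈ Aᶜ, nbc G v A + ∑ v ∈ Aᶜ, nbc G v Aᶜ = Aᶜ.card * 3 := by
    rw [← sum_add_distrib, sum_congr rfl fun v _ => nbc_compl hG v A, sum_const, smul_eq_mul]
  have h3 := nbc_double (G := G) A Aᶜ
  have h4 := card_add_card_compl A
  rw [cutSet_card]
  unfold sameN
  omega

theorem sum_inn {A : Finset V} (hA : ∀ a ∈ A, nbc G a A ≤ 1) : ∑ v ∈ A, nbc G v A = (inn G A).card := by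
  have h : (inn G A).card = ∑ v ∈ A, if (∃ w ∈ A, G.Adj v w) then 1 else 0 := card_filter _ _
  rw [h]
  refine sum_congr rfl fun v hv => ?_
  split_ifs with h1
  · obtain ⟨w, hw, hvw⟩ := h1
    have h2 := nbc_pos hw hvw
    have h3 := hA v hv
    omega
  · exact nbc_zero fun w hw hvw => h1 ⟨w, hw, hvw⟩

theorem sameN_le {F : Finset (Sym2 V)} (hF : (G.deleteEdges (F : Set (Sym2 V))).IsBipartite) :
    ∃ A : Finset V, sameN G A ≤ 2 * F.card := by
  obtain ⟨C⟩ : (G.deleteEdges (F : Set (Sym2 V))).Colorable 2 := hF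
  obtain ⟨A, hAd⟩ : ∃ A : Finset V, A = univ.filter fun v => C v = 0 := ⟨_, rfl⟩
  have mA : ∀ v, v ∈ A ↔ C v = 0 := by
    intro v
    rw [hAd, mem_filter]
    simp
  refine ⟨A, ?_⟩
  unfold sameN
  rw [← card_prod, ← card_prod, ← card_union_of_disjoint]
  · refine card_le_mul_card_image_of_maps_to (f := fun p : V × V => s(p.1, p.2)) ?_ 2 ?_
    · intro p hp
      by_contra hcon
      have key : ∀ u v : V, s(u, v) ∉ F → G.Adj u v → C u ≠ C v := by
        intro u v h1 h2
        refine C.valid ?_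
        rw [SimpleGraph.deleteEdges_adj]
        exact ⟨h2, fun h3 => h1 (by simpa using h3)⟩
      rcases mem_union.1 hp with hp | hp
      · obtain ⟨h1, h2⟩ := mem_filter.1 hp
        obtain ⟨h3, h4⟩ := mem_product.1 h1
        refine key _ _ hcon h2 ?_
        rw [(mA _).1 h3, (mA _).1 h4]
      · obtain ⟨h1, h2⟩ := mem_filter.1 hp
        obtain ⟨h3, h4⟩ := mem_product.1 h1
        rw [mem_compl, mA] at h3 h4
        refine key _ _ hcon h2 ?_
        have h5 := (C p.1).isLt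
        have h6 := (C p.2).isLt
        have h7 : (C p.1 : ℕ) ≠ 0 := fun h => h3 (Fin.ext h)
        have h8 : (C p.2 : ℕ) ≠ 0 := fun h => h4 (Fin.ext h)
        exact Fin.ext (by omega)
    · intro e _
      induction e using Sym2.ind with
      | _ x y =>
        refine (card_le_card (t := {(x, y), (y, x)}) ?_).trans card_le_two
        intro p hp
        have h1 := (mem_filter.1 hp).2
        rw [Sym2.eq_iff] at h1
        rw [mem_insert, mem_singleton]
        rcases h1 with ⟨h1, h2⟩ | ⟨h1, h2⟩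
        · exact Or.inl (Prod.ext h1 h2)
        · exact Or.inr (Prod.ext h1 h2)
  · rw [disjoint_left]
    intro p hp hp'
    exact (mem_compl.1 (mem_product.1 (mem_filter.1 hp').1).1) (mem_product.1 (mem_filter.1 hp).1).1

theorem exists_light_nb (hG : IsCubic G) {F : Finset (Sym2 V)}
    (hF : (G.deleteEdges (F : Set (Sym2 V))).IsBipartite) :
    ∃ f : V → ℤ, IsSDRDF G f ∧ 8 * ∑ v, f v ≤ 7 * (Fintype.card V : ℤ) + 4 * F.card := by
  obtain ⟨A, hmax⟩ := Finite.exists_max fun A : Finset V => (cutSet G A).card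
  have hA : ∀ a ∈ A, nbc G a A ≤ 1 := by
    intro a ha
    by_contra h
    have h1 := cut_erase_ge hG ha
    have h2 := hmax (A.erase a)
    omega
  have hB : ∀ b ∈ Aᶜ, nbc G b Aᶜ ≤ 1 := by
    intro b hb
    by_contra h
    have h1 := cut_insert_ge hG (mem_compl.1 hb)
    have h2 := hmax (insert b A)
    omega
  have hMC := max_cut_adj hG hmax
  have hMC' := max_cut_adj hG (A := Aᶜ) (by
    intro B
    rw [cutSet_compl]
    exact hmax B)
  obtain ⟨A0, hA0⟩ := sameN_le hF
  have hx : (inn G A).card + (inn G Aᶜ).card ≤ 2 * F.card := by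
    have h1 := sameN_cut hG A
    have h2 := sameN_cut hG A0
    have h3 := hmax A0
    have h4 : sameN G A = (inn G A).card + (inn G Aᶜ).card := by
      unfold sameN
      rw [sum_inn hA, sum_inn hB]
    omega
  obtain ⟨f, d, g, hf, h1, h2, h3⟩ := side_nb hG hA hB hMC
  obtain ⟨f', d', g', hf', h1', h2', h3'⟩ := side_nb hG (A := Aᶜ) hB
    (by rwa [compl_compl]) (by rwa [compl_compl] at hMC' ⊢)
  rw [compl_compl] at h1' h2' h3'
  have hn := card_add_card_compl A
  have e1 := card_sdiff_add_card_eq_card (show inn G A ⊆ A from filter_subset _ _)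
  have e2 := card_sdiff_add_card_eq_card (show inn G Aᶜ ⊆ Aᶜ from filter_subset _ _)
  by_cases h : 8 * ∑ v, f v ≤ 7 * (Fintype.card V : ℤ) + 4 * F.card
  · exact ⟨f, hf, h⟩
  · refine ⟨f', hf', ?_⟩
    omega

end Pool.Agent.MP_eb164e_co.UB
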