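import Pool.Agent.Lib.MP_eb164e_co.UB.Conf

set_option autoImplicit false

noncomputable section

open Classical Finset

namespace Pool.Agent.MP_eb164e_co.UB

variable {V : Type} [Fintype V] {G : SimpleGraph V}

theorem pk_full {A D U : Finset V} {a : V} : a ∈ full G A D U ↔ a ∈ A \ D ∧
    nbc G a (blk G A D U) = 2 ∧ ∃ a' ∈ A \ D, G.Adj a a' ∧ nbc G a' (blk G A D U) = 2 := by
  unfold full
  rw [mem_filter]

theorem pk_bbs {A D U : Finset V} {a : V} : a ∈ bbs G A D U ↔ a ∈ full G A D U ∧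
    ∀ b ∈ Aᶜ, G.Adj a b → b ∈ inn G Aᶜ := by
  unfold bbs
  rw [mem_filter]

/-- all neighbours outside `A` of a full vertex are blocked -/
theorem pk_blk (hG : IsCubic G) {A D U : Finset V} (h : Conf G A D U) {a b : V}
    (ha : a ∈ full G A D U) (hb : b ∈ Aᶜ) (hab : G.Adj a b) : b ∈ blk G A D U := by
  obtain ⟨haA, h2, a', ha', haa', -⟩ := pk_full.1 ha
  have hi : a ∈ inn G A := mem_inn.2 ⟨(mem_sdiff.1 haA).1, a', (mem_sdiff.1 ha').1, haa'⟩
  have e1 := nbc_inn h.hA' hi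
  have e2 := nbc_compl hG a A
  have hsub : (blk G A D U).filter (fun w => G.Adj a w) ⊆ Aᶜ.filter (fun w => G.Adj a w) :=
    filter_subset_filter _ (fun x hx => blk_compl hx)
  have hle : (Aᶜ.filter (fun w => G.Adj a w)).card ≤
      ((blk G A D U).filter (fun w => G.Adj a w)).card := by
    unfold nbc at h2 e1 e2
    omega
  have heq := eq_of_subset_of_card_le hsub hle
  have hm : b ∈ Aᶜ.filter (fun w => G.Adj a w) := mem_filter.2 ⟨hb, hab⟩
  rw [← heq] at hm
  exact (mem_filter.1 hm).1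

/-- S4 -/
theorem exists_pick (hG : IsCubic G) {A D U : Finset V} (h : Conf G A D U) :
    ∃ (Q : Finset V) (p y1 y2 y3 : V → V), Pick G A D U Q p y1 y2 y3 ∧
      (full G A D U).card ≤ 3 * Q.card + 2 * (bbs G A D U).card := by
  -- partner
  have hp0 : ∀ a : V, ∃ a' : V, a ∈ full G A D U →
      a' ∈ A \ D ∧ G.Adj a a' ∧ nbc G a' (blk G A D U) = 2 := by
    intro a
    by_cases ha : a ∈ full G A D U
    · obtain ⟨-, -, a', h1, h2, h3⟩ := pk_full.1 ha
      exact ⟨a', fun _ => ⟨h1, h2, h3⟩⟩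
    · exact ⟨a, fun h => absurd h ha⟩
  choose p hp using hp0
  have hpfull : ∀ a ∈ full G A D U, p a ∈ full G A D U := by
    intro a ha
    obtain ⟨h1, h2, h3⟩ := hp a ha
    obtain ⟨g1, g2, -⟩ := pk_full.1 ha
    exact pk_full.2 ⟨h1, h3, a, g1, h2.symm, g2⟩
  have hpp : ∀ a ∈ full G A D U, p (p a) = a := by
    intro a ha
    obtain ⟨h1, h2, -⟩ := hp a ha
    obtain ⟨g1, g2, -⟩ := hp (p a) (hpfull a ha)
    exact inn_adj_unique h.hA (mem_sdiff.1 h1).1 (mem_sdiff.1 g1).1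
      (mem_sdiff.1 (pk_full.1 ha).1).1 g2 h2.symm
  -- first outside neighbour
  have hy0 : ∀ a : V, ∃ b : V, a ∈ full G A D U → a ∉ bbs G A D U →
      b ∈ blk G A D U ∧ b ∉ inn G Aᶜ ∧ G.Adj a b := by
    intro a
    by_cases ha : a ∈ full G A D U ∧ a ∉ bbs G A D U
    · obtain ⟨ha1, ha2⟩ := ha
      rw [pk_bbs] at ha2
      push Not at ha2
      obtain ⟨b, hb, hab, hbi⟩ := ha2 ha1
      exact ⟨b, fun _ _ => ⟨pk_blk hG h ha1 hb hab, hbi, hab⟩⟩
    · exact ⟨a, fun h1 h2 => absurd ⟨h1, h2⟩ ha⟩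
  choose y1 hy1 using hy0
  have hy0 : ∀ a : V, ∃ b : V, a ∈ full G A D U → b ∈ blk G A D U ∧ G.Adj a b ∧ b ≠ y1 a := by
    intro a
    by_cases ha : a ∈ full G A D U
    · have h2 : 1 < ((blk G A D U).filter (fun w => G.Adj a w)).card := by
        have := (pk_full.1 ha).2.1
        unfold nbc at this
        omega
      obtain ⟨b, hb, hne⟩ := exists_mem_ne h2 (y1 a)
      exact ⟨b, fun _ => ⟨(mem_filter.1 hb).1, (mem_filter.1 hb).2, hne⟩⟩
    · exact ⟨a, fun h => absurd h ha⟩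
  choose y2 hy2 using hy0
  obtain ⟨Φ, hΦ⟩ : ∃ Φ, Φ = (full G A D U).filter
      (fun a => a ∉ bbs G A D U ∧ p a ∉ bbs G A D U) := ⟨_, rfl⟩
  have hΦm : ∀ a, a ∈ Φ ↔ a ∈ full G A D U ∧ a ∉ bbs G A D U ∧ p a ∉ bbs G A D U := by
    intro a
    rw [hΦ, mem_filter]
  -- the bound for full
  have c1 : (full G A D U).card ≤ Φ.card + 2 * (bbs G A D U).card := by
    have hsub : full G A D U ⊆ Φ ∪ (bbs G A D U ∪ (bbs G A D U).image p) := by
      intro a ha
      rw [mem_union, mem_union, mem_image]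
      by_cases h1 : a ∈ bbs G A D U
      · exact Or.inr (Or.inl h1)
      by_cases h2 : p a ∈ bbs G A D U
      · exact Or.inr (Or.inr ⟨p a, h2, hpp a ha⟩)
      · exact Or.inl ((hΦm a).2 ⟨ha, h1, h2⟩)
    have h1 := card_le_card hsub
    have h2 := card_union_le Φ (bbs G A D U ∪ (bbs G A D U).image p)
    have h3 := card_union_le (bbs G A D U) ((bbs G A D U).image p)
    have h4 : ((bbs G A D U).image p).card ≤ (bbs G A D U).card := card_image_le
    omega
  -- the choice of Q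
  obtain ⟨Q, hQm, hQmax⟩ := exists_max_image
    (Φ.powerset.filter (fun Q => (∀ q ∈ Q, p q ∉ Q) ∧
      ∀ q ∈ Q, ∀ r ∈ Q, ¬ G.Adj (y2 q) (y2 r))) (fun Q => Q.card)
    ⟨∅, by
      rw [mem_filter, mem_powerset]
      refine ⟨empty_subset _, ?_, ?_⟩
      · intro q hq
        simp at hq
      · intro q hq
        simp at hq⟩
  rw [mem_filter, mem_powerset] at hQm
  obtain ⟨hQΦ, hQ1, hQ2⟩ := hQm
  have hviol : ∀ a ∈ Φ, a ∉ Q → (∃ q ∈ Q, p q = a) ∨ (∃ r ∈ Q, G.Adj (y2 a) (y2 r)) := by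
    intro a ha haQ
    by_contra hcon
    push Not at hcon
    obtain ⟨n1, n2⟩ := hcon
    have haf := ((hΦm a).1 ha).1
    have hgood : insert a Q ∈ Φ.powerset.filter (fun Q => (∀ q ∈ Q, p q ∉ Q) ∧
      ∀ q ∈ Q, ∀ r ∈ Q, ¬ G.Adj (y2 q) (y2 r)) := by
      rw [mem_filter, mem_powerset]
      refine ⟨insert_subset ha hQΦ, ?_, ?_⟩
      · intro q hq hpq
        rw [mem_insert] at hq hpq
        rcases hq with rfl | hq
        · rcases hpq with h1 | h1
          · have h2 := (hp q haf).2.1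
            rw [h1] at h2
            exact G.loopless.irrefl _ h2
          · exact n1 (p q) h1 (hpp q haf)
        · rcases hpq with h1 | h1
          · exact n1 q hq h1
          · exact hQ1 q hq h1
      · intro q hq r hr hqr
        rw [mem_insert] at hq hr
        rcases hq with rfl | hq
        · rcases hr with rfl | hr
          · exact G.loopless.irrefl _ hqr
          · exact n2 r hr hqr
        · rcases hr with rfl | hr
          · exact n2 q hq hqr.symm
          · exact hQ2 q hq r hr hqr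
    have h1 := hQmax _ hgood
    rw [card_insert_of_notMem haQ] at h1
    omega
  have c2 : Φ.card ≤ 3 * Q.card := by
    have hsub : Φ ⊆ Q ∪ (Q.image p ∪ Q.biUnion
        (fun r => Φ.filter (fun a => G.Adj (y2 a) (y2 r)))) := by
      intro a ha
      rw [mem_union, mem_union, mem_image, mem_biUnion]
      by_cases haQ : a ∈ Q
      · exact Or.inl haQ
      rcases hviol a ha haQ with h1 | ⟨r, hr, h1⟩
      · exact Or.inr (Or.inl h1)
      · exact Or.inr (Or.inr ⟨r, hr, mem_filter.2 ⟨ha, h1⟩⟩)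
    have h1 := card_le_card hsub
    have h2 := card_union_le Q (Q.image p ∪ Q.biUnion
        (fun r => Φ.filter (fun a => G.Adj (y2 a) (y2 r))))
    have h3 := card_union_le (Q.image p) (Q.biUnion
        (fun r => Φ.filter (fun a => G.Adj (y2 a) (y2 r))))
    have h4 : (Q.image p).card ≤ Q.card := card_image_le
    have h5 : (Q.biUnion (fun r => Φ.filter (fun a => G.Adj (y2 a) (y2 r)))).card ≤
        Q.card * 1 := by
      apply card_biUnion_le_card_mul
      intro r hr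
      rw [card_le_one]
      intro a ha b hb
      rw [mem_filter] at ha hb
      have hrf := ((hΦm r).1 (hQΦ hr)).1
      have haf := ((hΦm a).1 ha.1).1
      have hbf := ((hΦm b).1 hb.1).1
      have ha2 := hy2 a haf
      have hb2 := hy2 b hbf
      have hr2 := hy2 r hrf
      have e : y2 a = y2 b :=
        inn_adj_unique h.hB (blk_compl hr2.1) (blk_compl ha2.1) (blk_compl hb2.1)
          ha.2.symm hb.2.symm
      have hb3 := hb2.2.1
      rw [← e] at hb3
      exact h.blk_unique hG ha2.1 (pk_full.1 haf).1 (pk_full.1 hbf).1 ha2.2.1.symm hb3.symm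
    omega
  refine ⟨Q, p, y1, y2, fun q => y1 (p q), ⟨?_, ?_, ?_, ?_, ?_, hQ2⟩, by omega⟩
  · intro q hq
    exact ((hΦm q).1 (hQΦ hq)).1
  · intro q hq
    have hqf := ((hΦm q).1 (hQΦ hq)).1
    exact ⟨(hp q hqf).1, (hp q hqf).2.1, hQ1 q hq⟩
  · intro q hq
    obtain ⟨g1, g2, g3⟩ := (hΦm q).1 (hQΦ hq)
    exact hy1 q g1 g2
  · intro q hq
    obtain ⟨g1, g2, g3⟩ := (hΦm q).1 (hQΦ hq)
    obtain ⟨k1, k2, k3⟩ := hy2 q g1
    exact ⟨k1, k2, k3.symm⟩
  · intro q hq
    obtain ⟨g1, g2, g3⟩ := (hΦm q).1 (hQΦ hq)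
    exact hy1 (p q) (hpfull q g1) g3

end Pool.Agent.MP_eb164e_co.UB
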