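import Pool.Agent.Lib.MP_eb164e_co.UB.Conf16
import Pool.Agent.Lib.MP_eb164e_co.UB.Count12
import Pool.Agent.Lib.MP_eb164e_co.UB.Pick12

set_option autoImplicit false

noncomputable section

open Classical Finset

namespace Pool.Agent.MP_eb164e_co.UB

variable {V : Type} [Fintype V] {G : SimpleGraph V}

/-- the moves belonging to chosen vertices `Q` with partners `P` -/
theorem moves_of_pairs {A D U : Finset V} (hG : IsCubic G) (h : Conf G A D U) (Q P : Finset V)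
    (hQ : ∀ q ∈ Q, q ∈ A \ D ∧ q ∈ inn G A ∧ nbc G q (blk G A D U) = 2)
    (hP : ∀ v ∈ P, v ∈ A \ D ∧ v ∈ inn G A ∧ 1 ≤ nbc G v (blk G A D U) ∧
      (nbc G v (blk G A D U) = 2 ∨ ∃ b ∈ blk G A D U, b ∉ inn G Aᶜ ∧ G.Adj v b) ∧ ∃ q ∈ Q, G.Adj v q)
    (hPQ : ∀ a, a ∈ P → a ∈ Q → False) (hc : Q.card ≤ P.card) :
    ∃ N0 N1 N2 L : Finset V,
      N0 ∪ N1 ∪ N2 ∪ L ⊆ blk G A D U ∧
      Disjoint N0 (N1 ∪ N2 ∪ L) ∧ Disjoint N1 (N2 ∪ L) ∧ Disjoint N2 L ∧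
      4 * Q.card ≤ 3 * N0.card + 2 * N1.card + N2.card + L.card ∧
      (∀ w ∈ N0 ∪ N1 ∪ N2 ∪ L, ∃ a ∈ A \ D, a ∈ inn G A ∧ G.Adj w a) ∧
      (∀ v ∈ A \ D, v ∉ Q → 1 ≤ nbc G v (N0 ∪ N1 ∪ N2 ∪ L) →
        v ∈ P ∧ nbc G v (N0 ∪ N1 ∪ N2 ∪ L) ≤ 1 ∧ ∃ q ∈ Q, G.Adj v q) ∧
      (∀ w ∈ N0, w ∈ inn G Aᶜ ∧ (∃ q ∈ Q, G.Adj w q) ∧ ∀ z ∈ Aᶜ, G.Adj w z →
        z ∉ N0 ∪ N1 ∪ N2 ∪ L ∧ 1 ≤ nbc G z D ∧ ∃ a ∈ A \ D, a ∈ inn G A ∧ G.Adj z a) ∧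
      (∀ w ∈ N1, w ∉ inn G Aᶜ ∧ ∃ q ∈ Q, G.Adj w q) ∧
      (∀ w ∈ N2, w ∉ inn G Aᶜ) ∧
      (∀ w ∈ L, (∃ q ∈ Q, G.Adj w q) ∨
        ∃ z ∈ Aᶜ, G.Adj w z ∧ z ∉ N0 ∪ N1 ∪ N2 ∪ L ∧ z ∈ cands G A D ∧
          ∃ a ∈ A \ D, a ∈ inn G A ∧ G.Adj z a) ∧
      (∀ q ∈ Q, ∃ z ∈ blk G A D U, G.Adj q z ∧ z ∉ N0 ∪ N1 ∪ N2) := by
  -- the owners
  obtain ⟨F, hF⟩ : ∃ F, F = (A \ D).filter (fun a => a ∈ inn G A ∧ 1 ≤ nbc G a (blk G A D U)) := ⟨_, rfl⟩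
  have hFm : ∀ a, a ∈ F ↔ a ∈ A \ D ∧ a ∈ inn G A ∧ 1 ≤ nbc G a (blk G A D U) := by
    intro a
    rw [hF, mem_filter]
  obtain ⟨F2, hF2⟩ : ∃ F, F = (A \ D).filter (fun a => a ∈ inn G A ∧ nbc G a (blk G A D U) = 2) := ⟨_, rfl⟩
  have hF2m : ∀ a, a ∈ F2 ↔ a ∈ A \ D ∧ a ∈ inn G A ∧ nbc G a (blk G A D U) = 2 := by
    intro a
    rw [hF2, mem_filter]
  have hF2F : ∀ a ∈ F2, a ∈ F := by
    intro a ha
    obtain ⟨h1, h2, h3⟩ := (hF2m a).1 ha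
    exact (hFm a).2 ⟨h1, h2, by omega⟩
  have hQf2 : ∀ q ∈ Q, q ∈ F2 := fun q hq => (hF2m q).2 (hQ q hq)
  have hQf : ∀ q ∈ Q, q ∈ F := fun q hq => hF2F q (hQf2 q hq)
  have hPf : ∀ v ∈ P, v ∈ F := fun v hv => (hFm v).2 ⟨(hP v hv).1, (hP v hv).2.1, (hP v hv).2.2.1⟩
  -- the vertices without neighbour of the first kind
  obtain ⟨B, hB⟩ : ∃ B, B = F.filter (fun a => ¬ ∃ b ∈ blk G A D U, b ∉ inn G Aᶜ ∧ G.Adj a b) := ⟨_, rfl⟩
  have hBm : ∀ a, a ∈ B ↔ a ∈ F ∧ ¬ ∃ b ∈ blk G A D U, b ∉ inn G Aᶜ ∧ G.Adj a b := by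
    intro a
    rw [hB, mem_filter]
  -- first outside neighbour
  have hy0 : ∀ a : V, ∃ b : V, a ∈ F →
      b ∈ blk G A D U ∧ G.Adj a b ∧ (a ∉ B → b ∉ inn G Aᶜ) := by
    intro a
    by_cases ha1 : a ∈ F
    · by_cases ha2 : a ∈ B
      · obtain ⟨b, hb, hab⟩ := one_of_nbc ((hFm a).1 ha1).2.2
        exact ⟨b, fun _ => ⟨hb, hab, fun h => absurd ha2 h⟩⟩
      · rw [hBm] at ha2
        push Not at ha2
        obtain ⟨b, hb, hbi, hab⟩ := ha2 ha1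
        exact ⟨b, fun _ => ⟨hb, hab, fun _ => hbi⟩⟩
    · exact ⟨a, fun h1 => absurd h1 ha1⟩
  choose y1 hy1 using hy0
  have hy0 : ∀ a : V, ∃ b : V, a ∈ F2 → b ∈ blk G A D U ∧ G.Adj a b ∧ b ≠ y1 a := by
    intro a
    by_cases ha : a ∈ F2
    · have h2 : 1 < ((blk G A D U).filter (fun w => G.Adj a w)).card := by
        have := ((hF2m a).1 ha).2.2
        unfold nbc at this
        omega
      obtain ⟨b, hb, hne⟩ := exists_mem_ne h2 (y1 a)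
      exact ⟨b, fun _ => ⟨(mem_filter.1 hb).1, (mem_filter.1 hb).2, hne⟩⟩
    · exact ⟨a, fun h => absurd h ha⟩
  choose y2 hy2 using hy0
  -- uniqueness of the owner
  have huniq : ∀ x ∈ blk G A D U, ∀ a ∈ A \ D, ∀ b ∈ A \ D, G.Adj a x → G.Adj b x → a = b := by
    intro x hx a ha b hb h1 h2
    exact h.blk_unique hG hx ha hb h1.symm h2.symm
  have fAD : ∀ a ∈ F, a ∈ A \ D := fun a ha => ((hFm a).1 ha).1
  have fin : ∀ a ∈ F, a ∈ inn G A := fun a ha => ((hFm a).1 ha).2.1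
  have inj1 : ∀ a ∈ F, ∀ b ∈ F, y1 a = y1 b → a = b := by
    intro a ha b hb hab
    refine huniq (y1 a) (hy1 a ha).1 a (fAD a ha) b (fAD b hb) (hy1 a ha).2.1 ?_
    rw [hab]
    exact (hy1 b hb).2.1
  have inj2 : ∀ a ∈ F2, ∀ b ∈ F2, y2 a = y2 b → a = b := by
    intro a ha b hb hab
    refine huniq (y2 a) (hy2 a ha).1 a (fAD a (hF2F a ha)) b (fAD b (hF2F b hb)) (hy2 a ha).2.1 ?_
    rw [hab]
    exact (hy2 b hb).2.1
  have inj12 : ∀ a ∈ F, ∀ b ∈ F2, y1 a ≠ y2 b := by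
    intro a ha b hb hab
    have e : a = b := by
      refine huniq (y1 a) (hy1 a ha).1 a (fAD a ha) b (fAD b (hF2F b hb)) (hy1 a ha).2.1 ?_
      rw [hab]
      exact (hy2 b hb).2.1
    rw [e] at hab
    exact (hy2 b hb).2.2 hab.symm
  have hPB : ∀ v ∈ P, v ∈ B → v ∈ F2 := by
    intro v hv hvB
    obtain ⟨h1, h2, h3, h4 | h4, -⟩ := hP v hv
    · exact (hF2m v).2 ⟨h1, h2, h4⟩
    · exact absurd h4 ((hBm v).1 hvB).2
  -- the sets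
  obtain ⟨N0, hN0⟩ : ∃ N, N = (Q.filter (fun a => a ∈ B)).image y1 := ⟨_, rfl⟩
  obtain ⟨N1, hN1⟩ : ∃ N, N = (Q.filter (fun a => ¬ a ∈ B)).image y1 := ⟨_, rfl⟩
  obtain ⟨N2, hN2⟩ : ∃ N, N = (P.filter (fun a => ¬ a ∈ B)).image y1 := ⟨_, rfl⟩
  obtain ⟨L1, hL1⟩ : ∃ N, N = (Q.filter (fun a => ¬ a ∈ B)).image y2 := ⟨_, rfl⟩
  obtain ⟨L2, hL2⟩ : ∃ N, N = (P.filter (fun a => a ∈ B)).image y1 := ⟨_, rfl⟩
  have mN0 : ∀ x, x ∈ N0 ↔ ∃ a, a ∈ Q ∧ a ∈ B ∧ y1 a = x := by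
    intro x
    rw [hN0]
    simp only [mem_image, mem_filter, and_assoc]
  have mN1 : ∀ x, x ∈ N1 ↔ ∃ a, a ∈ Q ∧ ¬ a ∈ B ∧ y1 a = x := by
    intro x
    rw [hN1]
    simp only [mem_image, mem_filter, and_assoc]
  have mN2 : ∀ x, x ∈ N2 ↔ ∃ a, a ∈ P ∧ ¬ a ∈ B ∧ y1 a = x := by
    intro x
    rw [hN2]
    simp only [mem_image, mem_filter, and_assoc]
  have mL1 : ∀ x, x ∈ L1 ↔ ∃ a, a ∈ Q ∧ ¬ a ∈ B ∧ y2 a = x := by
    intro x
    rw [hL1]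
    simp only [mem_image, mem_filter, and_assoc]
  have mL2 : ∀ x, x ∈ L2 ↔ ∃ a, a ∈ P ∧ a ∈ B ∧ y1 a = x := by
    intro x
    rw [hL2]
    simp only [mem_image, mem_filter, and_assoc]
  -- a selected vertex is a neighbour of its owner
  have hsel : ∀ x, x ∈ N0 ∪ N1 ∪ N2 ∪ (L1 ∪ L2) →
      ∃ a ∈ F, (x = y1 a ∧ (a ∈ Q ∨ a ∈ P)) ∨ (x = y2 a ∧ a ∈ Q ∧ ¬ a ∈ B) := by
    intro x hx
    simp only [mem_union] at hx
    rcases hx with ((hx | hx) | hx) | (hx | hx)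
    · obtain ⟨a, h1, h2, h3⟩ := (mN0 x).1 hx
      exact ⟨a, hQf a h1, Or.inl ⟨h3.symm, Or.inl h1⟩⟩
    · obtain ⟨a, h1, h2, h3⟩ := (mN1 x).1 hx
      exact ⟨a, hQf a h1, Or.inl ⟨h3.symm, Or.inl h1⟩⟩
    · obtain ⟨a, h1, h2, h3⟩ := (mN2 x).1 hx
      exact ⟨a, hPf a h1, Or.inl ⟨h3.symm, Or.inr h1⟩⟩
    · obtain ⟨a, h1, h2, h3⟩ := (mL1 x).1 hx
      exact ⟨a, hQf a h1, Or.inr ⟨h3.symm, h1, h2⟩⟩
    · obtain ⟨a, h1, h2, h3⟩ := (mL2 x).1 hx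
      exact ⟨a, hPf a h1, Or.inl ⟨h3.symm, Or.inr h1⟩⟩
  have hunsel : ∀ a ∈ F2, (a ∈ P ∨ a ∈ B) → y2 a ∉ N0 ∪ N1 ∪ N2 ∪ (L1 ∪ L2) := by
    intro a ha hor hx
    obtain ⟨b, hb, ⟨h1, -⟩ | ⟨h1, h2, h3⟩⟩ := hsel _ hx
    · exact inj12 b hb a ha h1.symm
    · have e := inj2 a ha b (hQf2 b h2) h1
      rw [← e] at h2 h3
      rcases hor with h4 | h4
      · exact hPQ a h4 h2
      · exact h3 h4
  have hsubblk : N0 ∪ N1 ∪ N2 ∪ (L1 ∪ L2) ⊆ blk G A D U := by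
    intro x hx
    obtain ⟨a, ha, ⟨h1, -⟩ | ⟨h1, h2, -⟩⟩ := hsel x hx
    · rw [h1]
      exact (hy1 a ha).1
    · rw [h1]
      exact (hy2 a (hQf2 a h2)).1
  have hBinn : ∀ a ∈ B, a ∈ F2 → y1 a ∈ inn G Aᶜ ∧ y2 a ∈ inn G Aᶜ ∧ G.Adj (y1 a) (y2 a) := by
    intro a ha ha2
    obtain ⟨haf, g⟩ := (hBm a).1 ha
    push Not at g
    obtain ⟨k1, k2, -⟩ := hy1 a haf
    obtain ⟨k3, k4, k5⟩ := hy2 a ha2
    have i1 : y1 a ∈ inn G Aᶜ := by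
      by_contra hcon
      exact g (y1 a) k1 hcon k2
    have i2 : y2 a ∈ inn G Aᶜ := by
      by_contra hcon
      exact g (y2 a) k3 hcon k4
    exact ⟨i1, i2, h.hMC a (fin a haf) (y1 a) i1 (y2 a) i2 k2 k4 k5.symm⟩
  have hmate : ∀ a ∈ B, a ∈ F2 → ∀ z ∈ Aᶜ, G.Adj (y1 a) z → z = y2 a := by
    intro a ha ha2 z hz hadj
    obtain ⟨i1, i2, i3⟩ := hBinn a ha ha2
    exact inn_adj_unique h.hB (blk_compl (hy1 a (hF2F a ha2)).1) hz
      (blk_compl (hy2 a ha2).1) hadj i3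
  refine ⟨N0, N1, N2, L1 ∪ L2, hsubblk, ?_, ?_, ?_, ?_, ?_, ?_, ?_, ?_, ?_, ?_, ?_⟩
  · rw [disjoint_left]
    intro x hx hx'
    obtain ⟨a, h1, h2, h3⟩ := (mN0 x).1 hx
    simp only [mem_union] at hx'
    rcases hx' with (hx' | hx') | (hx' | hx')
    · obtain ⟨b, k1, k2, k3⟩ := (mN1 x).1 hx'
      have e := inj1 a (hQf a h1) b (hQf b k1) (h3.trans k3.symm)
      rw [e] at h2
      exact k2 h2
    · obtain ⟨b, k1, k2, k3⟩ := (mN2 x).1 hx'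
      have e := inj1 a (hQf a h1) b (hPf b k1) (h3.trans k3.symm)
      rw [e] at h2
      exact k2 h2
    · obtain ⟨b, k1, k2, k3⟩ := (mL1 x).1 hx'
      exact inj12 a (hQf a h1) b (hQf2 b k1) (h3.trans k3.symm)
    · obtain ⟨b, k1, k2, k3⟩ := (mL2 x).1 hx'
      have e := inj1 a (hQf a h1) b (hPf b k1) (h3.trans k3.symm)
      rw [e] at h1
      exact hPQ b k1 h1
  · rw [disjoint_left]
    intro x hx hx'
    obtain ⟨a, h1, h2, h3⟩ := (mN1 x).1 hx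
    simp only [mem_union] at hx'
    rcases hx' with hx' | (hx' | hx')
    · obtain ⟨b, k1, k2, k3⟩ := (mN2 x).1 hx'
      have e := inj1 a (hQf a h1) b (hPf b k1) (h3.trans k3.symm)
      rw [e] at h1
      exact hPQ b k1 h1
    · obtain ⟨b, k1, k2, k3⟩ := (mL1 x).1 hx'
      exact inj12 a (hQf a h1) b (hQf2 b k1) (h3.trans k3.symm)
    · obtain ⟨b, k1, k2, k3⟩ := (mL2 x).1 hx'
      have e := inj1 a (hQf a h1) b (hPf b k1) (h3.trans k3.symm)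
      rw [e] at h1
      exact hPQ b k1 h1
  · rw [disjoint_left]
    intro x hx hx'
    obtain ⟨a, h1, h2, h3⟩ := (mN2 x).1 hx
    simp only [mem_union] at hx'
    rcases hx' with hx' | hx'
    · obtain ⟨b, k1, k2, k3⟩ := (mL1 x).1 hx'
      exact inj12 a (hPf a h1) b (hQf2 b k1) (h3.trans k3.symm)
    · obtain ⟨b, k1, k2, k3⟩ := (mL2 x).1 hx'
      have e := inj1 a (hPf a h1) b (hPf b k1) (h3.trans k3.symm)
      rw [e] at h2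
      exact h2 k2
  · have e0 : N0.card = (Q.filter (fun a => a ∈ B)).card := by
      rw [hN0]
      exact card_image_of_injOn fun a ha b hb hab => inj1 a (hQf a (mem_filter.1 (mem_coe.1 ha)).1) b
        (hQf b (mem_filter.1 (mem_coe.1 hb)).1) hab
    have e1 : N1.card = (Q.filter (fun a => ¬ a ∈ B)).card := by
      rw [hN1]
      exact card_image_of_injOn fun a ha b hb hab => inj1 a (hQf a (mem_filter.1 (mem_coe.1 ha)).1) b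
        (hQf b (mem_filter.1 (mem_coe.1 hb)).1) hab
    have e2 : N2.card = (P.filter (fun a => ¬ a ∈ B)).card := by
      rw [hN2]
      exact card_image_of_injOn fun a ha b hb hab => inj1 a (hPf a (mem_filter.1 (mem_coe.1 ha)).1) b
        (hPf b (mem_filter.1 (mem_coe.1 hb)).1) hab
    have e3 : L1.card = (Q.filter (fun a => ¬ a ∈ B)).card := by
      rw [hL1]
      exact card_image_of_injOn fun a ha b hb hab => inj2 a (hQf2 a (mem_filter.1 (mem_coe.1 ha)).1) b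
        (hQf2 b (mem_filter.1 (mem_coe.1 hb)).1) hab
    have e4 : L2.card = (P.filter (fun a => a ∈ B)).card := by
      rw [hL2]
      exact card_image_of_injOn fun a ha b hb hab => inj1 a (hPf a (mem_filter.1 (mem_coe.1 ha)).1) b
        (hPf b (mem_filter.1 (mem_coe.1 hb)).1) hab
    have e5 : (L1 ∪ L2).card = L1.card + L2.card := by
      apply card_union_of_disjoint
      rw [disjoint_left]
      intro x hx hx'
      obtain ⟨a, h1, h2, h3⟩ := (mL1 x).1 hx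
      obtain ⟨b, k1, k2, k3⟩ := (mL2 x).1 hx'
      exact inj12 b (hPf b k1) a (hQf2 a h1) (k3.trans h3.symm)
    have f1 := card_filter_add_card_filter_not (s := Q) fun a => a ∈ B
    have f2 := card_filter_add_card_filter_not (s := P) fun a => a ∈ B
    omega
  · intro w hw
    obtain ⟨a, ha, ⟨h1, -⟩ | ⟨h1, h2, -⟩⟩ := hsel w hw
    · exact ⟨a, fAD a ha, fin a ha, by rw [h1]; exact (hy1 a ha).2.1.symm⟩
    · exact ⟨a, fAD a ha, fin a ha, by rw [h1]; exact (hy2 a (hQf2 a h2)).2.1.symm⟩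
  · intro v hv hvQ hv1
    have key : ∀ x ∈ (N0 ∪ N1 ∪ N2 ∪ (L1 ∪ L2)).filter (fun w => G.Adj v w), x = y1 v ∧ v ∈ P := by
      intro x hx
      obtain ⟨hx1, hx2⟩ := mem_filter.1 hx
      have hxb := hsubblk hx1
      obtain ⟨a, ha, ⟨h1, h2⟩ | ⟨h1, h2, -⟩⟩ := hsel x hx1
      · have e := huniq x hxb a (fAD a ha) v hv (by rw [h1]; exact (hy1 a ha).2.1) hx2
        rw [← e]
        refine ⟨h1, ?_⟩
        rcases h2 with h2 | h2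
        · rw [e] at h2
          exact absurd h2 hvQ
        · exact h2
      · have e := huniq x hxb a (fAD a ha) v hv (by rw [h1]; exact (hy2 a (hQf2 a h2)).2.1) hx2
        rw [e] at h2
        exact absurd h2 hvQ
    obtain ⟨x, hx, hvx⟩ := one_of_nbc hv1
    have hvP := (key x (mem_filter.2 ⟨hx, hvx⟩)).2
    refine ⟨hvP, ?_, (hP v hvP).2.2.2.2⟩
    unfold nbc
    rw [card_le_one]
    intro a ha b hb
    rw [(key a ha).1, (key b hb).1]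
  · intro w hw
    obtain ⟨a, h1, h2, h3⟩ := (mN0 w).1 hw
    have haf := hQf a h1
    have haf2 := hQf2 a h1
    obtain ⟨i1, i2, i3⟩ := hBinn a h2 haf2
    refine ⟨by rw [← h3]; exact i1, ⟨a, h1, by rw [← h3]; exact (hy1 a haf).2.1.symm⟩, ?_⟩
    intro z hz hwz
    rw [← h3] at hwz
    have e := hmate a h2 haf2 z hz hwz
    rw [e]
    exact ⟨hunsel a haf2 (Or.inr h2), cands_inn (mem_blk.1 (hy2 a haf2).1).1 i2, a, fAD a haf, fin a haf,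
      (hy2 a haf2).2.1.symm⟩
  · intro w hw
    obtain ⟨a, h1, h2, h3⟩ := (mN1 w).1 hw
    have haf := hQf a h1
    rw [← h3]
    exact ⟨(hy1 a haf).2.2 h2, a, h1, (hy1 a haf).2.1.symm⟩
  · intro w hw
    obtain ⟨a, h1, h2, h3⟩ := (mN2 w).1 hw
    rw [← h3]
    exact (hy1 a (hPf a h1)).2.2 h2
  · intro w hw
    rcases mem_union.1 hw with hw | hw
    · obtain ⟨a, h1, h2, h3⟩ := (mL1 w).1 hw
      left
      exact ⟨a, h1, by rw [← h3]; exact (hy2 a (hQf2 a h1)).2.1.symm⟩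
    · obtain ⟨a, h1, h2, h3⟩ := (mL2 w).1 hw
      have haf := hPf a h1
      have haf2 := hPB a h1 h2
      obtain ⟨i1, i2, i3⟩ := hBinn a h2 haf2
      right
      exact ⟨y2 a, blk_compl (hy2 a haf2).1, by rw [← h3]; exact i3, hunsel a haf2 (Or.inl h1),
        (mem_blk.1 (hy2 a haf2).1).1, a, fAD a haf, fin a haf, (hy2 a haf2).2.1.symm⟩
  · intro q hq
    have hqf := hQf2 q hq
    refine ⟨y2 q, (hy2 q hqf).1, (hy2 q hqf).2.1, ?_⟩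
    intro hx
    simp only [mem_union] at hx
    rcases hx with (hx | hx) | hx
    · obtain ⟨a, h1, h2, h3⟩ := (mN0 _).1 hx
      exact inj12 a (hQf a h1) q hqf h3
    · obtain ⟨a, h1, h2, h3⟩ := (mN1 _).1 hx
      exact inj12 a (hQf a h1) q hqf h3
    · obtain ⟨a, h1, h2, h3⟩ := (mN2 _).1 hx
      exact inj12 a (hPf a h1) q hqf h3

/-- the second kind of pairs -/
def hlf (G : SimpleGraph V) (A D U W : Finset V) : Finset V :=
  (A \ D).filter fun a => nbc G a (blk G A D U) = 2 ∧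
    ∃ a' ∈ A \ D, G.Adj a a' ∧ nbc G a' (blk G A D U) = 1 ∧ 1 ≤ nbc G a' W

/-- P20 -/
theorem exists_pmoves20 (hG : IsCubic G) {A D U W : Finset V} (h : Conf G A D U)
    (hW : ∀ w ∈ W, w ∈ inn G Aᶜ ∧ nbc G w D = 0 ∧ ∃ x ∈ blk G A D U, G.Adj w x ∧
      ∃ e ∈ A \ D, e ∉ inn G A ∧ G.Adj x e) :
    ∃ Q N0 N1 N2 L : Finset V,
      (∀ q ∈ Q, q ∈ A \ D ∧ q ∈ inn G A ∧ nbc G q (blk G A D U) = 2) ∧
      (∀ a ∈ A \ D, ∀ b ∈ A \ D, G.Adj a b → nbc G a (blk G A D U) = 2 →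
        (nbc G b (blk G A D U) = 2 ∨ (nbc G b (blk G A D U) = 1 ∧ 1 ≤ nbc G b W)) → a ∈ Q ∨ b ∈ Q) ∧
      (full G A D U).card + 2 * (hlf G A D U W).card ≤ 2 * Q.card ∧
      N0 ∪ N1 ∪ N2 ∪ L ⊆ blk G A D U ∧
      Disjoint N0 (N1 ∪ N2 ∪ L) ∧ Disjoint N1 (N2 ∪ L) ∧ Disjoint N2 L ∧
      4 * Q.card ≤ 3 * N0.card + 2 * N1.card + N2.card + L.card ∧
      (∀ w ∈ N0 ∪ N1 ∪ N2 ∪ L, ∃ a ∈ A \ D, a ∈ inn G A ∧ G.Adj w a) ∧
      (∀ v ∈ A \ D, v ∉ Q → 1 ≤ nbc G v (N0 ∪ N1 ∪ N2 ∪ L) →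
        v ∈ inn G A ∧ nbc G v (N0 ∪ N1 ∪ N2 ∪ L) ≤ 1 ∧ ∃ q ∈ Q, G.Adj v q) ∧
      (∀ w ∈ N0, w ∈ inn G Aᶜ ∧ (∃ q ∈ Q, G.Adj w q) ∧ ∀ z ∈ Aᶜ, G.Adj w z →
        z ∉ N0 ∪ N1 ∪ N2 ∪ L ∧ 1 ≤ nbc G z D ∧ ∃ a ∈ A \ D, a ∈ inn G A ∧ G.Adj z a) ∧
      (∀ w ∈ N1, w ∉ inn G Aᶜ ∧ ∃ q ∈ Q, G.Adj w q) ∧
      (∀ w ∈ N2, w ∉ inn G Aᶜ) ∧
      (∀ w ∈ L, (∃ q ∈ Q, G.Adj w q) ∨
        ∃ z ∈ Aᶜ, G.Adj w z ∧ z ∉ N0 ∪ N1 ∪ N2 ∪ L ∧ z ∈ cands G A D ∧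
          ∃ a ∈ A \ D, a ∈ inn G A ∧ G.Adj z a) ∧
      (∀ q ∈ Q, ∃ z ∈ blk G A D U, G.Adj q z ∧ z ∉ N0 ∪ N1 ∪ N2) := by
  have muniq : ∀ a ∈ A \ D, ∀ b ∈ A \ D, ∀ c ∈ A \ D, G.Adj a b → G.Adj a c → b = c := by
    intro a ha b hb c hc h1 h2
    exact inn_adj_unique h.hA (mem_sdiff.1 ha).1 (mem_sdiff.1 hb).1 (mem_sdiff.1 hc).1 h1 h2
  have minn : ∀ a ∈ A \ D, ∀ b ∈ A \ D, G.Adj a b → a ∈ inn G A := by
    intro a ha b hb h1
    exact mem_inn.2 ⟨(mem_sdiff.1 ha).1, b, (mem_sdiff.1 hb).1, h1⟩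
  have mh : ∀ a, a ∈ hlf G A D U W ↔ a ∈ A \ D ∧ nbc G a (blk G A D U) = 2 ∧
      ∃ a' ∈ A \ D, G.Adj a a' ∧ nbc G a' (blk G A D U) = 1 ∧ 1 ≤ nbc G a' W := by
    intro a
    unfold hlf
    rw [mem_filter]
  -- partner
  have hp0 : ∀ a : V, ∃ a' : V, (a ∈ full G A D U →
      a' ∈ A \ D ∧ G.Adj a a' ∧ nbc G a' (blk G A D U) = 2) ∧ (a ∈ hlf G A D U W →
      a' ∈ A \ D ∧ G.Adj a a' ∧ nbc G a' (blk G A D U) = 1 ∧ 1 ≤ nbc G a' W) := by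
    intro a
    by_cases ha : a ∈ full G A D U
    · obtain ⟨g1, -, a', h1, h2, h3⟩ := pk_full.1 ha
      refine ⟨a', fun _ => ⟨h1, h2, h3⟩, fun hh => ?_⟩
      obtain ⟨-, -, b, k1, k2, k3, k4⟩ := (mh a).1 hh
      rw [muniq a g1 a' h1 b k1 h2 k2] at h3
      omega
    · by_cases hb : a ∈ hlf G A D U W
      · obtain ⟨-, -, b, k1, k2, k3, k4⟩ := (mh a).1 hb
        exact ⟨b, fun h => absurd h ha, fun _ => ⟨k1, k2, k3, k4⟩⟩
      · exact ⟨a, fun h => absurd h ha, fun h => absurd h hb⟩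
  choose p hp using hp0
  have hpfull : ∀ a ∈ full G A D U, p a ∈ full G A D U := by
    intro a ha
    obtain ⟨h1, h2, h3⟩ := (hp a).1 ha
    obtain ⟨g1, g2, -⟩ := pk_full.1 ha
    exact pk_full.2 ⟨h1, h3, a, g1, h2.symm, g2⟩
  have hpp : ∀ a ∈ full G A D U, p (p a) = a := by
    intro a ha
    obtain ⟨h1, h2, -⟩ := (hp a).1 ha
    obtain ⟨g1, g2, -⟩ := (hp (p a)).1 (hpfull a ha)
    exact muniq (p a) h1 (p (p a)) g1 a (pk_full.1 ha).1 g2 h2.symm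
  have hpne : ∀ a ∈ full G A D U, p a ≠ a := by
    intro a ha h1
    have h2 := ((hp a).1 ha).2.1
    rw [h1] at h2
    exact G.loopless.irrefl _ h2
  have hfh : ∀ a, a ∈ full G A D U → a ∈ hlf G A D U W → False := by
    intro a h1 h2
    have h3 := ((hp a).1 h1).2.2
    have h4 := ((hp a).2 h2).2.2.1
    omega
  -- Q
  obtain ⟨Q, hQ⟩ : ∃ Q, Q = (full G A D U).filter
      (fun a => Fintype.equivFin V a < Fintype.equivFin V (p a)) := ⟨_, rfl⟩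
  have hQm : ∀ a, a ∈ Q ↔ a ∈ full G A D U ∧ Fintype.equivFin V a < Fintype.equivFin V (p a) := by
    intro a
    rw [hQ, mem_filter]
  obtain ⟨P, hP⟩ : ∃ P, P = (full G A D U) \ Q := ⟨_, rfl⟩
  have hPm : ∀ a, a ∈ P ↔ a ∈ full G A D U ∧ a ∉ Q := by
    intro a
    rw [hP, mem_sdiff]
  have hQf : Q ⊆ full G A D U := fun a ha => ((hQm a).1 ha).1
  have hPf : P ⊆ full G A D U := fun a ha => ((hPm a).1 ha).1
  have hPQ : ∀ a ∈ P, p a ∈ Q := by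
    intro a ha
    obtain ⟨h1, h2⟩ := (hPm a).1 ha
    rw [hQm]
    refine ⟨hpfull a h1, ?_⟩
    rw [hpp a h1]
    rw [hQm] at h2
    push Not at h2
    refine lt_of_le_of_ne (h2 h1) ?_
    intro h3
    exact hpne a h1 ((Fintype.equivFin V).injective h3)
  have hQP : ∀ a ∈ Q, p a ∈ P := by
    intro a ha
    obtain ⟨h1, h2⟩ := (hQm a).1 ha
    rw [hPm]
    refine ⟨hpfull a h1, ?_⟩
    rw [hQm]
    rintro ⟨-, h3⟩
    rw [hpp a h1] at h3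
    exact lt_asymm h2 h3
  have hpinj : ∀ a ∈ full G A D U, ∀ b ∈ full G A D U, p a = p b → a = b := by
    intro a ha b hb hab
    rw [← hpp a ha, ← hpp b hb, hab]
  have cPQ : P.card = Q.card := by
    apply le_antisymm
    · exact card_le_card_of_injOn p (fun a ha => hPQ a ha)
        (fun a ha b hb hab => hpinj a (hPf ha) b (hPf hb) hab)
    · exact card_le_card_of_injOn p (fun a ha => hQP a ha)
        (fun a ha b hb hab => hpinj a (hQf ha) b (hQf hb) hab)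
  have cfull : P.card + Q.card = (full G A D U).card := by
    rw [hP]
    exact card_sdiff_add_card_eq_card hQf
  have mfAD : ∀ a ∈ full G A D U, a ∈ A \ D := fun a ha => (pk_full.1 ha).1
  -- the partners of the second kind
  obtain ⟨H, hH⟩ : ∃ H, H = (hlf G A D U W).image p := ⟨_, rfl⟩
  have mH : ∀ v, v ∈ H ↔ ∃ a ∈ hlf G A D U W, p a = v := by
    intro v
    rw [hH, mem_image]
  have cH : H.card = (hlf G A D U W).card := by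
    rw [hH]
    refine card_image_of_injOn fun a ha b hb hab => ?_
    obtain ⟨g1, g2, -⟩ := (hp a).2 (mem_coe.1 ha)
    obtain ⟨k1, k2, -⟩ := (hp b).2 (mem_coe.1 hb)
    have ha1 := ((mh a).1 (mem_coe.1 ha)).1
    have hb1 := ((mh b).1 (mem_coe.1 hb)).1
    refine muniq (p a) g1 a ha1 b hb1 g2.symm ?_
    have hab' : p a = p b := hab
    rw [hab']
    exact k2.symm
  have hHn : ∀ v ∈ H, nbc G v (blk G A D U) = 1 := by
    intro v hv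
    obtain ⟨a, ha, rfl⟩ := (mH v).1 hv
    exact ((hp a).2 ha).2.2.1
  have cU1 : (Q ∪ hlf G A D U W).card = Q.card + (hlf G A D U W).card := by
    apply card_union_of_disjoint
    rw [disjoint_left]
    intro x hx hx'
    exact hfh x (hQf hx) hx'
  have cU2 : (P ∪ H).card = P.card + H.card := by
    apply card_union_of_disjoint
    rw [disjoint_left]
    intro x hx hx'
    have h1 := hHn x hx'
    have h2 := (pk_full.1 (hPf hx)).2.1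
    omega
  have kQ : ∀ q ∈ Q ∪ hlf G A D U W, q ∈ A \ D ∧ q ∈ inn G A ∧ nbc G q (blk G A D U) = 2 := by
    intro q hq
    rcases mem_union.1 hq with hq | hq
    · have hqf := hQf hq
      obtain ⟨g1, g2, -⟩ := (hp q).1 hqf
      exact ⟨mfAD q hqf, minn q (mfAD q hqf) (p q) g1 g2, (pk_full.1 hqf).2.1⟩
    · obtain ⟨g1, g2, -⟩ := (hp q).2 hq
      obtain ⟨k1, k2, -⟩ := (mh q).1 hq
      exact ⟨k1, minn q k1 (p q) g1 g2, k2⟩
  have kP : ∀ v ∈ P ∪ H, v ∈ A \ D ∧ v ∈ inn G A ∧ 1 ≤ nbc G v (blk G A D U) ∧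
      (nbc G v (blk G A D U) = 2 ∨ ∃ b ∈ blk G A D U, b ∉ inn G Aᶜ ∧ G.Adj v b) ∧
      ∃ q ∈ Q ∪ hlf G A D U W, G.Adj v q := by
    intro v hv
    rcases mem_union.1 hv with hv | hv
    · have hvf := hPf hv
      obtain ⟨g1, g2, -⟩ := (hp v).1 hvf
      have h2 := (pk_full.1 hvf).2.1
      exact ⟨mfAD v hvf, minn v (mfAD v hvf) (p v) g1 g2, by omega, Or.inl h2, p v,
        mem_union_left _ (hPQ v hv), g2⟩
    · obtain ⟨a, ha, rfl⟩ := (mH v).1 hv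
      obtain ⟨g1, g2, g3, g4⟩ := (hp a).2 ha
      have ha1 := ((mh a).1 ha).1
      have hi := minn (p a) g1 a ha1 g2.symm
      refine ⟨g1, hi, by omega, Or.inr ?_, a, mem_union_right _ ha, g2.symm⟩
      obtain ⟨y, hy, hpy⟩ := one_of_nbc (show 1 ≤ nbc G (p a) (blk G A D U) by omega)
      obtain ⟨w, hw, hpw⟩ := one_of_nbc g4
      refine ⟨y, hy, ?_, hpy⟩
      intro hyi
      obtain ⟨w1, w2, x, hx, hwx, e, he, hei, hxe⟩ := hW w hw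
      have hne : y ≠ w := by
        intro h1
        rw [h1] at hy
        have h2 := cands_inn (mem_blk.1 hy).1 w1
        omega
      have hyw := h.hMC (p a) hi y hyi w w1 hpy hpw hne
      have hwA : w ∈ Aᶜ := (mem_inn.1 w1).1
      have e1 : y = x := inn_adj_unique h.hB hwA (blk_compl hy) (blk_compl hx) hyw.symm hwx
      have e2 : p a = e := h.blk_unique hG hx g1 he (by rw [← e1]; exact hpy.symm) hxe
      rw [e2] at hi
      exact hei hi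
  have kPQ : ∀ a, a ∈ P ∪ H → a ∈ Q ∪ hlf G A D U W → False := by
    intro a h1 h2
    rcases mem_union.1 h1 with h1 | h1
    · rcases mem_union.1 h2 with h2 | h2
      · exact ((hPm a).1 h1).2 h2
      · exact hfh a (hPf h1) h2
    · have h3 := hHn a h1
      have h4 := (kQ a h2).2.2
      omega
  obtain ⟨N0, N1, N2, L, r1, r2, r3, r4, r5, r6, r7, r8, r9, r10, r11, r12⟩ :=
    moves_of_pairs hG h (Q ∪ hlf G A D U W) (P ∪ H) kQ kP kPQ (by omega)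
  refine ⟨Q ∪ hlf G A D U W, N0, N1, N2, L, kQ, ?_, by omega, r1, r2, r3, r4, r5, r6, ?_, r8, r9, r10, r11, r12⟩
  · rintro a ha b hb hab h2 (h3 | ⟨h3, h4⟩)
    · have haf : a ∈ full G A D U := pk_full.2 ⟨ha, h2, b, hb, hab, h3⟩
      by_cases haQ : a ∈ Q
      · exact Or.inl (mem_union_left _ haQ)
      · right
        have h4 := hPQ a ((hPm a).2 ⟨haf, haQ⟩)
        obtain ⟨g1, g2, -⟩ := (hp a).1 haf
        rw [muniq a ha (p a) g1 b hb g2 hab] at h4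
        exact mem_union_left _ h4
    · exact Or.inl (mem_union_right _ ((mh a).2 ⟨ha, h2, b, hb, hab, h3, h4⟩))
  · intro v hv hvQ hv1
    obtain ⟨s1, s2, s3⟩ := r7 v hv hvQ hv1
    exact ⟨(kP v s1).2.1, s2, s3⟩

end Pool.Agent.MP_eb164e_co.UB
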