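import Pool.Agent.Lib.MP_eb164e_co.UB.Conf16
import Pool.Agent.Lib.MP_eb164e_co.UB.Count16

/-!
# The neighbours of the raised centres
-/

set_option autoImplicit false

noncomputable section

open Classical Finset

namespace Pool.Agent.MP_eb164e_co.UB

variable {V : Type} [Fintype V] {G : SimpleGraph V}

/-- all neighbours of a centre are in `tl` or blocked -/
theorem Conf.e0_nb (hG : IsCubic G) {A D U : Finset V} (h : Conf G A D U) {a x : V}
    (ha : a ∈ e0 G A D U) (hax : G.Adj a x) : x ∈ tl G A D U ∪ blk G A D U := by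
  obtain ⟨haD, hai, h2, h1'⟩ := mem_filter.1 ha
  have h1 : nbc G a (tl G A D U) = 1 := h1'
  have haA := (mem_sdiff.1 haD).1
  have hxA : x ∈ Aᶜ := by
    rw [mem_compl]
    exact fun hx => hai (mem_inn.2 ⟨haA, x, hx, hax⟩)
  by_contra hcon
  have e1 := nbc_not_inn haA hai
  have e2 := nbc_compl hG a A
  have hsub : tl G A D U ∪ blk G A D U ⊆ Aᶜ := by
    intro y hy
    rcases mem_union.1 hy with hy | hy
    · exact cands_compl (h.hUK (tl_U hy))
    · exact blk_compl hy
  have e3 := nbc_sdiff (G := G) a hsub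
  have e4 : nbc G a (tl G A D U ∪ blk G A D U) = nbc G a (tl G A D U) + nbc G a (blk G A D U) := by
    refine nbc_union a ?_
    rw [disjoint_left]
    intro y hy hy'
    exact (mem_blk.1 hy').2.1 (tl_U hy)
  have e5 := nbc_pos (G := G) (mem_sdiff.2 ⟨hxA, hcon⟩) hax
  omega

theorem exists_x3 (hG : IsCubic G) (A D U : Finset V) : ∃ x3 : V → V, ∀ a ∈ er G A D U,
    G.Adj a (x3 a) ∧ ∀ x, G.Adj a x → x ∈ lts G A D → x = x3 a := by
  have h0 : ∀ a : V, ∃ x : V, a ∈ er G A D U →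
      G.Adj a x ∧ ∀ y, G.Adj a y → y ∈ lts G A D → y = x := by
    intro a
    by_cases ha : a ∈ er G A D U
    · have h1 := (mem_filter.1 ha).2
      by_cases hx : ∃ x, G.Adj a x ∧ x ∈ lts G A D
      · obtain ⟨x, hax, hx⟩ := hx
        refine ⟨x, fun _ => ⟨hax, fun y hay hy => ?_⟩⟩
        unfold nbc at h1
        exact card_le_one.1 h1 y (mem_filter.2 ⟨hy, hay⟩) x (mem_filter.2 ⟨hx, hax⟩)
      · have h2 := hG a
        obtain ⟨x, hx'⟩ := card_pos.1 (show 0 < (univ.filter fun w => G.Adj a w).card by omega)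
        exact ⟨x, fun _ => ⟨(mem_filter.1 hx').2, fun y hay hy => absurd ⟨y, hay, hy⟩ hx⟩⟩
    · exact ⟨a, fun h => absurd h ha⟩
  choose x3 hx3 using h0
  exact ⟨x3, fun a ha => hx3 a ha⟩

/-- R -/
theorem exists_rmoves (hG : IsCubic G) {A D U : Finset V} (h : Conf G A D U) :
    ∃ N L : Finset V, Disjoint N L ∧ N.card = 2 * (er G A D U).card ∧ L.card = (er G A D U).card ∧
      (∀ w ∈ N ∪ L, w ∈ cands G A D ∧ (w ∈ blk G A D U ∨ w ∈ U) ∧ ∃ e ∈ er G A D U, G.Adj w e) ∧
      (∀ w ∈ N, ∀ z ∈ Aᶜ, G.Adj w z → 1 ≤ nbc G z D) ∧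
      (∀ e ∈ er G A D U, ∃ z ∈ L, G.Adj e z) := by
  obtain ⟨x3, hx3⟩ := exists_x3 hG A D U
  have hE0 : ∀ e ∈ er G A D U, e ∈ e0 G A D U := fun e he => (mem_filter.1 he).1
  have hED : ∀ e ∈ er G A D U, e ∈ A \ D := fun e he => (mem_filter.1 (hE0 e he)).1
  obtain ⟨X, hX⟩ : ∃ X, X = Aᶜ.filter fun x => ∃ e ∈ er G A D U, G.Adj e x := ⟨_, rfl⟩
  have hnb : ∀ e ∈ er G A D U, ∀ x, G.Adj e x → x ∈ X := by
    intro e he x hex
    rw [hX]
    refine mem_filter.2 ⟨?_, e, he, hex⟩
    rcases mem_union.1 (h.e0_nb hG (hE0 e he) hex) with h1 | h1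
    · exact cands_compl (h.hUK (tl_U h1))
    · exact blk_compl h1
  have hXc : ∀ x ∈ X, x ∈ cands G A D ∧ (x ∈ blk G A D U ∨ x ∈ U) ∧ ∃ e ∈ er G A D U, G.Adj x e := by
    intro x hx
    rw [hX] at hx
    obtain ⟨-, e, he, hex⟩ := mem_filter.1 hx
    rcases mem_union.1 (h.e0_nb hG (hE0 e he) hex) with h1 | h1
    · exact ⟨h.hUK (tl_U h1), Or.inr (tl_U h1), e, he, hex.symm⟩
    · exact ⟨(mem_blk.1 h1).1, Or.inl h1, e, he, hex.symm⟩
  have hXcard : X.card = 3 * (er G A D U).card := by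
    have k1 : ∑ e ∈ er G A D U, nbc G e X = 3 * (er G A D U).card := by
      rw [mul_comm, ← smul_eq_mul, ← sum_const]
      refine sum_congr rfl fun e he => ?_
      have k2 : (X.filter fun w => G.Adj e w) = univ.filter fun w => G.Adj e w := by
        ext w
        simp only [mem_filter, mem_univ, true_and, and_iff_right_iff_imp]
        exact hnb e he w
      unfold nbc
      rw [k2]
      exact hG e
    rw [← k1, nbc_double, card_eq_sum_ones]
    refine sum_congr rfl fun x hx => ?_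
    obtain ⟨hxc, -, e, he, hxe⟩ := hXc x hx
    have k3 := nbc_pos (G := G) he hxe
    have k4 : nbc G x (er G A D U) ≤ 1 := by
      unfold nbc
      refine card_le_one.2 fun a ha b hb => ?_
      exact h.cand_unique hG hxc (hED a (mem_filter.1 ha).1) (hED b (mem_filter.1 hb).1)
        (mem_filter.1 ha).2 (mem_filter.1 hb).2
    omega
  have hLX : (er G A D U).image x3 ⊆ X := by
    intro x hx
    obtain ⟨e, he, rfl⟩ := mem_image.1 hx
    exact hnb e he _ (hx3 e he).1
  have hLc : ((er G A D U).image x3).card = (er G A D U).card := by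
    refine card_image_of_injOn ?_
    intro a ha b hb hab
    have ha' := hx3 a ha
    have hb' := hx3 b hb
    have hc := (hXc (x3 a) (hnb a ha _ ha'.1)).1
    refine h.cand_unique hG hc (hED a ha) (hED b hb) ha'.1.symm ?_
    rw [show x3 a = x3 b from hab]
    exact hb'.1.symm
  refine ⟨X \ (er G A D U).image x3, (er G A D U).image x3, sdiff_disjoint, ?_, hLc, ?_, ?_, ?_⟩
  · have := card_sdiff_add_card_eq_card hLX
    omega
  · intro w hw
    rw [sdiff_union_of_subset hLX] at hw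
    exact hXc w hw
  · intro w hw z hz hwz
    obtain ⟨hwX, hwL⟩ := mem_sdiff.1 hw
    obtain ⟨hwc, -, e, he, hwe⟩ := hXc w hwX
    by_contra hcon
    refine hwL (mem_image.2 ⟨e, he, ?_⟩)
    refine ((hx3 e he).2 w hwe.symm ?_).symm
    have hwA := cands_compl hwc
    have hwi : w ∈ inn G Aᶜ := mem_inn.2 ⟨hwA, z, hz, hwz⟩
    unfold lts
    refine mem_filter.2 ⟨hwi, cands_inn hwc hwi, ?_⟩
    intro z' hz' hwz'
    have : z' = z := inn_adj_unique h.hB hwA hz' hz hwz' hwz
    subst this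
    omega
  · intro e he
    exact ⟨x3 e, mem_image_of_mem _ he, (hx3 e he).1⟩

end Pool.Agent.MP_eb164e_co.UB
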