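import Pool.Agent.Lib.MP_eb164e_co.UB.Conf

/-!
# Functions with the values `-1`, `1`, `2` given by sets
-/

set_option autoImplicit false

noncomputable section

open Classical Finset

namespace Pool.Agent.MP_eb164e_co.UB

set_option linter.unusedSectionVars false

variable {V : Type} [Fintype V] {G : SimpleGraph V}

/-- the function with value `-1` on `M`, `1` on `O` and `2` elsewhere -/
def setF (M O : Finset V) (v : V) : ℤ :=
  2 - 3 * (if v ∈ M then 1 else 0) - (if v ∈ O then 1 else 0)

theorem sum_ind (S U : Finset V) : ∑ v ∈ U, (if v ∈ S then (1 : ℤ) else 0) = ((U.filter fun v => v ∈ S).card : ℤ) := by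
  rw [card_filter]
  push_cast
  rfl

theorem sum_setF (M O : Finset V) :
    ∑ v, setF M O v = 2 * (Fintype.card V : ℤ) - 3 * (M.card : ℤ) - (O.card : ℤ) := by
  unfold setF
  simp only [sum_sub_distrib, ← mul_sum, sum_ind, filter_univ_mem, sum_const, card_univ, nsmul_eq_mul]
  ring

theorem sum_nb (S : Finset V) (v : V) : ∑ w ∈ univ.filter (fun w => G.Adj v w), (if w ∈ S then (1 : ℤ) else 0) =
    (nbc G v S : ℤ) := by
  rw [sum_ind]
  unfold nbc
  congr 2
  ext w
  simp [and_comm]

theorem closed_setF (hG : IsCubic G) (M O : Finset V) (v : V) :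
    (∑ w, if w = v ∨ G.Adj v w then setF M O w else 0) =
      setF M O v + (6 - 3 * (nbc G v M : ℤ) - (nbc G v O : ℤ)) := by
  rw [← sum_filter]
  have h : (univ.filter fun w => w = v ∨ G.Adj v w) = insert v (univ.filter fun w => G.Adj v w) := by
    ext w
    simp
  rw [h, sum_insert (by simp)]
  congr 1
  unfold setF
  simp only [sum_sub_distrib, ← mul_sum, sum_nb, sum_const, hG v]
  norm_num

theorem isSDRDF_setF (hG : IsCubic G) {M O : Finset V} (hMO : Disjoint M O)
    (hM : ∀ v ∈ M, 2 ≤ nbc G v (M ∪ O)ᶜ) (hO : ∀ v ∈ O, 1 ≤ nbc G v (M ∪ O)ᶜ)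
    (hT : ∀ v, v ∉ M → v ∉ O → nbc G v M ≤ 2) : IsSDRDF G (setF M O) := by
  have vM : ∀ v ∈ M, setF M O v = -1 := by
    intro v hv
    have h : v ∉ O := fun h => disjoint_left.1 hMO hv h
    simp [setF, hv, h]
  have vO : ∀ v ∈ O, setF M O v = 1 := by
    intro v hv
    have h : v ∉ M := fun h => disjoint_left.1 hMO h hv
    simp [setF, hv, h]
  have vT : ∀ v ∈ (M ∪ O)ᶜ, setF M O v = 2 := by
    intro v hv
    simp only [mem_compl, mem_union, not_or] at hv
    simp [setF, hv.1, hv.2]
  constructor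
  · intro v
    by_cases h1 : v ∈ M
    · exact Or.inl (vM v h1)
    · by_cases h2 : v ∈ O
      · exact Or.inr (Or.inl (vO v h2))
      · exact Or.inr (Or.inr (Or.inl (vT v (by simp [h1, h2]))))
  · intro v hv
    right
    by_cases h1 : v ∈ M
    · obtain ⟨p, q, hpq, hp, hq, e1, e2⟩ := two_of_nbc (hM v h1)
      exact ⟨p, q, hpq, e1, e2, vT p hp, vT q hq⟩
    · by_cases h2 : v ∈ O
      · rw [vO v h2] at hv
        norm_num at hv
      · rw [vT v (by simp [h1, h2])] at hv
        norm_num at hv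
  · intro v hv
    by_cases h1 : v ∈ M
    · rw [vM v h1] at hv
      norm_num at hv
    · by_cases h2 : v ∈ O
      · obtain ⟨p, hp, e1⟩ := one_of_nbc (hO v h2)
        exact ⟨p, e1, Or.inl (vT p hp)⟩
      · rw [vT v (by simp [h1, h2])] at hv
        norm_num at hv
  · intro v
    rw [closed_setF hG]
    have e1 := nbc_compl hG v (M ∪ O)
    rw [nbc_union v hMO] at e1
    by_cases h1 : v ∈ M
    · have := hM v h1
      rw [vM v h1]
      omega
    · by_cases h2 : v ∈ O
      · have := hO v h2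
        rw [vO v h2]
        omega
      · have := hT v h1 h2
        rw [vT v (by simp [h1, h2])]
        omega

/-- enough neighbours in `D` of every vertex of `T` -/
theorem exists_raise {D T : Finset V} (r : ℕ) (h : ∀ t ∈ T, r ≤ nbc G t D) :
    ∃ R ⊆ D, (∀ t ∈ T, r ≤ nbc G t R) ∧ R.card ≤ r * T.card := by
  have h1 : ∀ t : V, ∃ P : Finset V, P ⊆ D ∧ P.card ≤ r ∧ (t ∈ T → r ≤ nbc G t P) := by
    intro t
    by_cases ht : t ∈ T
    · obtain ⟨P, hP, hc⟩ := exists_subset_card_eq (h t ht)
      refine ⟨P, hP.trans (filter_subset _ _), hc.le, fun _ => ?_⟩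
      unfold nbc
      rw [filter_true_of_mem, hc]
      exact fun w hw => (mem_filter.1 (hP hw)).2
    · exact ⟨∅, empty_subset _, by simp, fun h => absurd h ht⟩
  choose P hP hc hn using h1
  refine ⟨T.biUnion P, ?_, ?_, ?_⟩
  · intro w hw
    obtain ⟨t, -, hwt⟩ := mem_biUnion.1 hw
    exact hP t hwt
  · intro t ht
    exact (hn t ht).trans (nbc_mono t (subset_biUnion_of_mem P ht))
  · refine card_biUnion_le.trans ?_
    calc ∑ t ∈ T, (P t).card ≤ ∑ _t ∈ T, r := sum_le_sum fun t _ => hc t
      _ = r * T.card := by rw [sum_const, smul_eq_mul, mul_comm]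

end Pool.Agent.MP_eb164e_co.UB
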