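import Pool.Agent.Lib.MP_eb164e_co.UB.Conf16

/-!
# Partners of the vertices `x` and a greedy choice
-/

set_option autoImplicit false

noncomputable section

open Classical Finset

namespace Pool.Agent.MP_eb164e_co.UB

variable {V : Type} [Fintype V] {G : SimpleGraph V}

/-- greedy choice: a large subset of `WA` seen at most once from every vertex of `S` -/
theorem exists_K (S WA : Finset V) (h2 : ∀ w ∈ WA, nbc G w S ≤ 2) (h3 : ∀ a ∈ S, nbc G a WA ≤ 3) :
    ∃ K ⊆ WA, (∀ a ∈ S, nbc G a K ≤ 1) ∧ WA.card ≤ 5 * K.card := by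
  have hne : (WA.powerset.filter fun K => ∀ a ∈ S, nbc G a K ≤ 1).Nonempty :=
    ⟨∅, mem_filter.2 ⟨empty_mem_powerset _, fun a _ => by simp [nbc]⟩⟩
  obtain ⟨K, hK, hmax⟩ := exists_max_image _ Finset.card hne
  obtain ⟨hK1, hK2⟩ := mem_filter.1 hK
  have hKW : K ⊆ WA := mem_powerset.1 hK1
  refine ⟨K, hKW, hK2, ?_⟩
  have hsub : WA \ K ⊆ K.biUnion fun k => (S.filter fun a => G.Adj k a).biUnion fun a =>
      (WA.filter fun w => G.Adj a w).erase k := by
    intro w hw
    obtain ⟨hwW, hwK⟩ := mem_sdiff.1 hw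
    have hnot : ¬ ∀ a ∈ S, nbc G a (insert w K) ≤ 1 := by
      intro hall
      have h4 := hmax (insert w K) (mem_filter.2 ⟨mem_powerset.2 (insert_subset hwW hKW), hall⟩)
      rw [card_insert_of_notMem hwK] at h4
      omega
    push Not at hnot
    obtain ⟨a, ha, h5⟩ := hnot
    have h6 := hK2 a ha
    have haw : G.Adj a w := by
      by_contra hcon
      unfold nbc at h5 h6
      rw [filter_insert, if_neg hcon] at h5
      omega
    have h7 : 1 ≤ nbc G a K := by
      unfold nbc at h5 ⊢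
      rw [filter_insert, if_pos haw] at h5
      have := card_insert_le w (K.filter fun v => G.Adj a v)
      omega
    obtain ⟨k, hk, hak⟩ := one_of_nbc h7
    refine mem_biUnion.2 ⟨k, hk, mem_biUnion.2 ⟨a, mem_filter.2 ⟨ha, hak.symm⟩, ?_⟩⟩
    exact mem_erase.2 ⟨fun he => hwK (he ▸ hk), mem_filter.2 ⟨hwW, haw⟩⟩
  have hcard : (WA \ K).card ≤ K.card * (2 * 2) := by
    refine (card_le_card hsub).trans (card_biUnion_le_card_mul _ _ _ fun k hk => ?_)
    refine (card_biUnion_le_card_mul _ _ 2 fun a ha => ?_).trans ?_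
    · obtain ⟨haS, hka⟩ := mem_filter.1 ha
      have h8 : k ∈ WA.filter fun w => G.Adj a w := mem_filter.2 ⟨hKW hk, hka.symm⟩
      rw [card_erase_of_mem h8]
      have h9 : (WA.filter fun w => G.Adj a w).card ≤ 3 := h3 a haS
      omega
    · exact Nat.mul_le_mul_right 2 (h2 k (hKW hk))
  have h10 := card_sdiff_add_card_eq_card hKW
  omega

/-- the partners of the blocked vertices seen from `eo` -/
theorem exists_wx (hG : IsCubic G) {A D U : Finset V} (h : Conf G A D U) :
    ∃ x w : V → V, (∀ e ∈ eo G A D U, x e ∈ lts G A D ∧ x e ∈ blk G A D U ∧ G.Adj e (x e) ∧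
      w e ∈ inn G Aᶜ ∧ G.Adj (x e) (w e) ∧ nbc G (w e) D = 0 ∧ nbc G (w e) (A \ D) = 2 ∧
      w e ∉ cands G A D) ∧
      Set.InjOn x (eo G A D U) ∧ Set.InjOn w (eo G A D U) := by
  have key : ∀ e : V, ∃ x w : V, e ∈ eo G A D U → x ∈ lts G A D ∧ x ∈ blk G A D U ∧ G.Adj e x ∧
      w ∈ inn G Aᶜ ∧ G.Adj x w ∧ nbc G w D = 0 ∧ nbc G w (A \ D) = 2 ∧ w ∉ cands G A D := by
    intro e
    by_cases he : e ∈ eo G A D U
    swap
    · exact ⟨e, e, fun h => absurd h he⟩
    unfold eo at he
    obtain ⟨he0, hl⟩ := mem_filter.1 he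
    unfold e0 at he0
    obtain ⟨heA, hei, hb, hu⟩ := mem_filter.1 he0
    obtain ⟨heA1, heD⟩ := mem_sdiff.1 heA
    -- all neighbours are in `blk` or in `top0 ∪ low`
    have hdis : Disjoint (blk G A D U) (top0 G A U ∪ low G A D U) := by
      rw [disjoint_left]
      intro y hy hy'
      have hyU : y ∈ U := by
        rcases mem_union.1 hy' with h' | h'
        · unfold top0 at h'
          exact (mem_filter.1 h').1
        · unfold low at h'
          exact (mem_filter.1 h').1
      exact (mem_blk.1 hy).2.1 hyU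
    have hall : nbc G e (blk G A D U ∪ (top0 G A U ∪ low G A D U)) = 3 := by
      rw [nbc_union e hdis]
      omega
    have hdeg : (univ.filter fun w => G.Adj e w).card = 3 := hG e
    have hsub : ((blk G A D U ∪ (top0 G A U ∪ low G A D U)).filter fun w => G.Adj e w) ⊆
        univ.filter fun w => G.Adj e w := filter_subset_filter _ (subset_univ _)
    have heq := eq_of_subset_of_card_le hsub (by unfold nbc at hall; omega)
    -- some neighbour in `lts` is blocked
    have hx : ∃ x, x ∈ lts G A D ∧ x ∈ blk G A D U ∧ G.Adj e x := by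
      obtain ⟨p, q, hpq, hp, hq, hep, heq'⟩ := two_of_nbc hl
      have hmem : ∀ y, G.Adj e y → y ∈ blk G A D U ∨ y ∈ top0 G A U ∪ low G A D U := by
        intro y hy
        have h1 : y ∈ univ.filter fun w => G.Adj e w := mem_filter.2 ⟨mem_univ _, hy⟩
        rw [← heq] at h1
        exact mem_union.1 (mem_filter.1 h1).1
      rcases hmem p hep with h1 | h1
      · exact ⟨p, hp, h1, hep⟩
      · rcases hmem q heq' with h2 | h2
        · exact ⟨q, hq, h2, heq'⟩
        · exfalso
          unfold nbc at hu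
          exact hpq (card_le_one.1 hu.le p (mem_filter.2 ⟨h1, hep⟩) q (mem_filter.2 ⟨h2, heq'⟩))
    obtain ⟨x, hx1, hx2, hx3⟩ := hx
    have hx1' := hx1
    unfold lts at hx1'
    obtain ⟨hxi, hxD, hxn⟩ := mem_filter.1 hx1'
    obtain ⟨hxA, w, hw, hxw⟩ := mem_inn.1 hxi
    have hwD := hxn w hw hxw
    have hwi : w ∈ inn G Aᶜ := mem_inn.2 ⟨hw, x, hxA, hxw.symm⟩
    have c1 := nbc_inn h.hB' hwi
    have c2 := nbc_compl hG w A
    have c3 := nbc_sdiff (G := G) w h.hDA
    refine ⟨x, w, fun _ => ⟨hx1, hx2, hx3, hwi, hxw, hwD, by omega, ?_⟩⟩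
    intro hc
    unfold cands at hc
    obtain ⟨_, hc⟩ := mem_filter.1 hc
    rcases hc with ⟨h1, _⟩ | ⟨_, h1⟩
    · exact h1 hwi
    · omega
  choose x w hxw using key
  have hx : Set.InjOn x (eo G A D U) := by
    intro e he e' he' hee
    have h1 := hxw e he
    have h2 := hxw e' he'
    have hA : ∀ f ∈ eo G A D U, f ∈ A \ D := by
      intro f hf
      unfold eo e0 at hf
      exact (mem_filter.1 (mem_filter.1 hf).1).1
    have h3 := h1.2.2.1
    have h4 := h2.2.2.1
    rw [← hee] at h4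
    exact h.blk_unique hG h1.2.1 (hA e he) (hA e' he') h3.symm h4.symm
  refine ⟨x, w, hxw, hx, ?_⟩
  intro e he e' he' hee
  apply hx he he'
  have h1 := hxw e he
  have h2 := hxw e' he'
  have h3 : x e ∈ Aᶜ := blk_compl h1.2.1
  have h4 : x e' ∈ Aᶜ := blk_compl h2.2.1
  have h5 : w e ∈ Aᶜ := (mem_inn.1 h1.2.2.2.1).1
  have h6 := h2.2.2.2.2.1
  rw [← hee] at h6
  exact inn_adj_unique h.hB h5 h3 h4 h1.2.2.2.2.1.symm h6.symm

end Pool.Agent.MP_eb164e_co.UB
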