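import Pool.Agent.Lib.MP_eb164e_co.UB.Conf12
import Pool.Agent.Lib.MP_eb164e_co.UB.Build20
import Pool.Agent.Lib.MP_eb164e_co.UB.Count16
import Pool.Agent.Lib.MP_eb164e_co.UB.Count20
import Pool.Agent.Lib.MP_eb164e_co.UB.RMoves
import Pool.Agent.Lib.MP_eb164e_co.UB.PMoves20
import Pool.Agent.Lib.MP_eb164e_co.UB.WK

/-!
# The bound of one side of the cut, and the bound `9/10`
-/

set_option autoImplicit false

noncomputable section

open Classical Finset

namespace Pool.Agent.MP_eb164e_co.UB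

set_option linter.unusedSectionVars false

variable {V : Type} [Fintype V] {G : SimpleGraph V}

theorem exists_function20 (hG : IsCubic G) {A D U : Finset V} (h : Conf G A D U) :
    ∃ (f : V → ℤ) (W Q : Finset V) (c : ℕ), IsSDRDF G f ∧
      (∀ w ∈ W, w ∈ inn G Aᶜ ∧ nbc G w D = 0) ∧
      (eo G A D U).card ≤ (wb G A D U W).card + (wc G A W).card + 5 * c ∧
      (∀ a ∈ A \ D, ∀ b ∈ A \ D, G.Adj a b → nbc G a (blk G A D U) = 2 →
        (nbc G b (blk G A D U) = 2 ∨ (nbc G b (blk G A D U) = 1 ∧ 1 ≤ nbc G b W)) → a ∈ Q ∨ b ∈ Q) ∧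
      ∑ v, f v ≤ 2 * (Aᶜ.card : ℤ) - A.card + 2 * D.card -
        ((top0 G A U).card + (low G A D U).card + 2 * (flp G A D U).card + (er G A D U).card +
          Q.card + c) := by
  obtain ⟨Nr, Lr, rd, rcN, rcL, rW, rN, re⟩ := exists_rmoves hG h
  obtain ⟨x, w, hxw, -, hwi⟩ := exists_wx hG h
  obtain ⟨W, hWdef⟩ : ∃ W, W = (eo G A D U).image w := ⟨_, rfl⟩
  have hWe : ∀ y ∈ W, ∃ e ∈ eo G A D U, y = w e := by
    intro y hy
    rw [hWdef] at hy
    obtain ⟨e, he, rfl⟩ := mem_image.1 hy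
    exact ⟨e, he, rfl⟩
  have feo : ∀ e ∈ eo G A D U, e ∈ A \ D ∧ e ∉ inn G A ∧ e ∉ er G A D U := by
    intro e he
    obtain ⟨h1, h2⟩ := mem_filter.1 he
    have h3 := h1
    unfold e0 at h3
    obtain ⟨h4, h5, -⟩ := mem_filter.1 h3
    refine ⟨h4, h5, fun h6 => ?_⟩
    have h7 := (mem_filter.1 h6).2
    omega
  have hIsW : ∀ w ∈ W, w ∈ inn G Aᶜ ∧ nbc G w D = 0 ∧ ∃ x ∈ blk G A D U, G.Adj w x ∧
      ∃ e ∈ A \ D, e ∉ inn G A ∧ G.Adj x e := by
    intro y hy
    obtain ⟨e, he, rfl⟩ := hWe y hy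
    obtain ⟨-, h2, h3, h4, h5, h6, -⟩ := hxw e he
    exact ⟨h4, h6, x e, h2, h5.symm, e, (feo e he).1, (feo e he).2.1, h3.symm⟩
  obtain ⟨Q, N0, N1, N2, L, pQ', ppair, -, pW, pd0, pd1, pd2, pgain, pfull', pcap, p0', p1, p2, pL', pq⟩ :=
    exists_pmoves20 hG h hIsW
  obtain ⟨F, hF⟩ : ∃ F, F = (A \ D).filter fun a => a ∈ inn G A := ⟨_, rfl⟩
  have mF : ∀ a, a ∈ F ↔ a ∈ A \ D ∧ a ∈ inn G A := by
    intro a
    rw [hF, mem_filter]
  have pQ : Q ⊆ F := fun q hq => (mF q).2 ⟨(pQ' q hq).1, (pQ' q hq).2.1⟩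
  have pfull : ∀ w ∈ N0 ∪ N1 ∪ N2 ∪ L, ∃ a ∈ F, G.Adj w a := by
    intro w hw
    obtain ⟨a, h1, h2, h3⟩ := pfull' w hw
    exact ⟨a, (mF a).2 ⟨h1, h2⟩, h3⟩
  have p0 : ∀ w ∈ N0, w ∈ inn G Aᶜ ∧ (∃ q ∈ Q, G.Adj w q) ∧ ∀ z ∈ Aᶜ, G.Adj w z →
      z ∉ N0 ∪ N1 ∪ N2 ∪ L ∧ 1 ≤ nbc G z D ∧ ∃ a ∈ F, G.Adj z a := by
    intro w hw
    obtain ⟨h1, h2, h3⟩ := p0' w hw
    refine ⟨h1, h2, fun z hz hwz => ?_⟩
    obtain ⟨h4, h5, a, h6, h7, h8⟩ := h3 z hz hwz
    exact ⟨h4, h5, a, (mF a).2 ⟨h6, h7⟩, h8⟩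
  have pL : ∀ w ∈ L, (∃ q ∈ Q, G.Adj w q) ∨
      ∃ z ∈ Aᶜ, G.Adj w z ∧ z ∉ N0 ∪ N1 ∪ N2 ∪ L ∧ z ∈ cands G A D ∧ ∃ a ∈ F, G.Adj z a := by
    intro w hw
    rcases pL' w hw with h1 | ⟨z, h1, h2, h3, h4, a, h6, h7, h8⟩
    · exact Or.inl h1
    · exact Or.inr ⟨z, h1, h2, h3, h4, a, (mF a).2 ⟨h6, h7⟩, h8⟩
  obtain ⟨WA, hWA⟩ : ∃ WA, WA = W \ (wb G A D U W ∪ wc G A W) := ⟨_, rfl⟩
  have hWAW : WA ⊆ W := by
    rw [hWA]
    exact sdiff_subset
  obtain ⟨K, hKWA, hK1, hKc⟩ := exists_K (G := G) (A \ D) WA (by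
    intro y hy
    obtain ⟨e, he, rfl⟩ := hWe y (hWAW hy)
    exact (hxw e he).2.2.2.2.2.2.1.le) (by
    intro a ha
    have h1 := nbc_compl hG a WA
    omega)
  have hKn : ∀ y ∈ K, ∀ a ∈ A \ D, G.Adj a y → a ∉ inn G A ∧ nbc G a U = 0 := by
    intro y hy a ha hay
    have h1 := hKWA hy
    rw [hWA, mem_sdiff, mem_union, not_or] at h1
    obtain ⟨h2, h3, h4⟩ := h1
    constructor
    · intro h5
      exact h4 (mem_filter.2 ⟨h2, a, h5, hay.symm⟩)
    · by_contra h5
      exact h3 (mem_filter.2 ⟨h2, a, ha, hay.symm, Nat.one_le_iff_ne_zero.2 h5⟩)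
  have fe : ∀ e ∈ er G A D U, e ∈ A \ D ∧ e ∉ inn G A ∧ nbc G e (blk G A D U) = 2 ∧
      nbc G e (top0 G A U ∪ low G A D U) = 1 := by
    intro e he
    have h1 := (mem_filter.1 he).1
    unfold e0 at h1
    obtain ⟨h2, h3, h4, h5⟩ := mem_filter.1 h1
    exact ⟨h2, h3, h4, h5⟩
  have ff : ∀ a ∈ F, a ∈ A \ D ∧ a ∈ inn G A := fun a ha => (mF a).1 ha
  have fin : ∀ a ∈ F, a ∈ inn G A := fun a ha => ((mF a).1 ha).2
  have fer : ∀ a ∈ F, a ∉ er G A D U := fun a ha he => (fe a he).2.1 (fin a ha)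
  have hcand1 : ∀ b ∈ cands G A D, 1 ≤ nbc G b D := by
    intro b hbc
    unfold cands at hbc
    rcases (mem_filter.1 hbc).2 with h1 | h1
    · omega
    · exact h1.2
  have wp : ∀ w ∈ N0 ∪ N1 ∪ N2 ∪ L, w ∈ blk G A D U := fun w hw => pW hw
  have npr : ∀ w ∈ N0 ∪ N1 ∪ N2 ∪ L, w ∉ Nr ∪ Lr := by
    intro w hw hw'
    obtain ⟨a, ha, hwa⟩ := pfull w hw
    obtain ⟨-, -, e, he, hwe⟩ := rW w hw'
    have h1 := h.cand_unique hG (mem_blk.1 (wp w hw)).1 (ff a ha).1 (fe e he).1 hwa hwe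
    exact fer a ha (h1 ▸ he)
  have nfr : ∀ z ∈ cands G A D, (∃ a ∈ F, G.Adj z a) → z ∉ Nr ∪ Lr := by
    rintro z hz ⟨a, ha, hza⟩ hz'
    obtain ⟨-, -, e, he, hze⟩ := rW z hz'
    have h1 := h.cand_unique hG hz (ff a ha).1 (fe e he).1 hza hze
    exact fer a ha (h1 ▸ he)
  obtain ⟨U', hU'⟩ : ∃ U', U' = U.filter fun u => ∀ e ∈ er G A D U, ¬ G.Adj u e := ⟨_, rfl⟩
  have mU' : ∀ u, u ∈ U' → u ∈ U ∧ ∀ e ∈ er G A D U, ¬ G.Adj u e := by
    intro u hu
    rw [hU'] at hu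
    exact mem_filter.1 hu
  obtain ⟨P, hP⟩ : ∃ P, P = Q ∪ er G A D U := ⟨_, rfl⟩
  have hPAD : P ⊆ A \ D := by
    rw [hP]
    refine union_subset (fun q hq => (ff q (pQ hq)).1) (fun e he => (fe e he).1)
  have mW : ∀ w, w ∈ N0 ∪ (N1 ∪ Nr) ∪ N2 ∪ (L ∪ Lr) ↔ w ∈ N0 ∪ N1 ∪ N2 ∪ L ∨ w ∈ Nr ∪ Lr := by
    intro w
    simp only [mem_union]
    tauto
  have hrc : ∀ w ∈ Nr ∪ Lr, w ∈ Aᶜ := fun w hw => cands_compl (rW w hw).1
  have k : Moves20 G A D U P U' N0 (N1 ∪ Nr) N2 (L ∪ Lr) K := by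
    refine ⟨hPAD, fun u hu => (mU' u hu).1, ?_, ?_, ?_, ?_, ?_, ?_, ?_, ?_, ?_, ?_, ?_, ?_⟩
    · intro w hw
      rcases (mW w).1 hw with h1 | h1
      · have h2 := mem_blk.1 (wp w h1)
        exact ⟨h2.1, Or.inl (wp w h1), fun h3 => h2.2.1 (mU' w h3).1⟩
      · obtain ⟨h2, h3, e, he, hwe⟩ := rW w h1
        exact ⟨h2, h3, fun h4 => (mU' w h4).2 e he hwe⟩
    · rw [disjoint_left]
      intro x hx hx'
      have hxp : x ∈ N0 ∪ N1 ∪ N2 ∪ L := by simp [hx]
      have h1 := npr x hxp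
      have h2 := disjoint_left.1 pd0 hx
      simp only [mem_union, not_or] at h1 h2 hx'
      tauto
    · rw [disjoint_left]
      intro x hx hx'
      rcases mem_union.1 hx with hx | hx
      · have hxp : x ∈ N0 ∪ N1 ∪ N2 ∪ L := by simp [hx]
        have h1 := npr x hxp
        have h2 := disjoint_left.1 pd1 hx
        simp only [mem_union, not_or] at h1 h2 hx'
        tauto
      · have hxr : x ∈ Nr ∪ Lr := by simp [hx]
        have h1 := disjoint_left.1 rd hx
        have h3 : x ∉ N0 ∪ N1 ∪ N2 ∪ L := fun h4 => npr x h4 hxr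
        simp only [mem_union, not_or] at h1 h3 hx'
        tauto
    · rw [disjoint_left]
      intro x hx hx'
      have hxp : x ∈ N0 ∪ N1 ∪ N2 ∪ L := by simp [hx]
      have h1 := npr x hxp
      have h2 := disjoint_left.1 pd2 hx
      simp only [mem_union, not_or] at h1 h2 hx'
      tauto
    · intro v hv hvP
      rw [hP, mem_union, not_or] at hvP
      by_cases hvs : 1 ≤ nbc G v (N0 ∪ N1 ∪ N2 ∪ L)
      · obtain ⟨hvi, h1, q, hq, hvq⟩ := pcap v hv hvP.1 hvs
        have hvf : v ∈ F := (mF v).2 ⟨hv, hvi⟩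
        have e1 : nbc G v (A \ P) = 0 := by
          refine nbc_zero fun x hx hvx => ?_
          obtain ⟨hxA, hxP⟩ := mem_sdiff.1 hx
          have h2 := inn_adj_unique h.hA (mem_sdiff.1 hv).1 hxA
            (mem_sdiff.1 (ff q (pQ hq)).1).1 hvx hvq
          refine hxP ?_
          rw [h2, hP]
          exact mem_union_left _ hq
        have e2 : nbc G v (U' ∪ (N0 ∪ (N1 ∪ Nr) ∪ N2 ∪ (L ∪ Lr)) ∪ K) ≤ nbc G v (N0 ∪ N1 ∪ N2 ∪ L) := by
          unfold nbc
          refine card_le_card fun x hx => ?_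
          obtain ⟨hx, hvx⟩ := mem_filter.1 hx
          refine mem_filter.2 ⟨?_, hvx⟩
          rcases mem_union.1 hx with hx | hx
          swap
          · exact absurd (fin v hvf) (hKn x hx v hv hvx).1
          rcases mem_union.1 hx with hx | hx
          · exfalso
            have h2 := h.hcap v hv
            have h3 := nbc_pos (mU' x hx).1 hvx
            have h4 := nbc_inn h.hA' (fin v hvf)
            omega
          · rcases (mW x).1 hx with hx | hx
            · exact hx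
            · exact absurd hx (nfr x (rW x hx).1 ⟨v, hvf, hvx.symm⟩)
        omega
      · have h2 := h.hcap v hv
        have e1 : nbc G v (A \ P) ≤ nbc G v A := nbc_mono v sdiff_subset
        have e2 : nbc G v (U' ∪ (N0 ∪ (N1 ∪ Nr) ∪ N2 ∪ (L ∪ Lr)) ∪ K) ≤ nbc G v (U ∪ K) := by
          unfold nbc
          refine card_le_card fun x hx => ?_
          obtain ⟨hx, hvx⟩ := mem_filter.1 hx
          refine mem_filter.2 ⟨?_, hvx⟩
          rcases mem_union.1 hx with hx | hx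
          swap
          · exact mem_union_right _ hx
          refine mem_union_left _ ?_
          rcases mem_union.1 hx with hx | hx
          · exact (mU' x hx).1
          · exfalso
            rcases (mW x).1 hx with hx | hx
            · exact hvs (nbc_pos hx hvx)
            · obtain ⟨h3, -, e, he, hxe⟩ := rW x hx
              have h1 := h.cand_unique hG h3 (fe e he).1 hv hxe hvx.symm
              exact hvP.2 (h1 ▸ he)
        have e3 : nbc G v (U ∪ K) ≤ nbc G v U + nbc G v K := by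
          unfold nbc
          rw [filter_union]
          exact card_union_le _ _
        by_cases hK0 : nbc G v K = 0
        · omega
        · obtain ⟨y, hy, hvy⟩ := one_of_nbc (Nat.one_le_iff_ne_zero.2 hK0)
          obtain ⟨h5, h6⟩ := hKn y hy v hv hvy
          have h7 := nbc_not_inn (mem_sdiff.1 hv).1 h5
          have h8 := hK1 v hv
          omega
    · intro y hy
      obtain ⟨e, he, rfl⟩ := hWe y (hWAW (hKWA hy))
      obtain ⟨-, h2, h3, h4, h5, h6, -⟩ := hxw e he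
      refine ⟨(mem_inn.1 h4).1, h6, x e, h2, h5.symm, fun h7 => ?_⟩
      rcases (mW (x e)).1 h7 with h8 | h8
      · obtain ⟨a, ha, hxa⟩ := pfull _ h8
        have h9 := h.cand_unique hG (mem_blk.1 h2).1 (ff a ha).1 (feo e he).1 hxa h3.symm
        exact (feo e he).2.1 (h9 ▸ fin a ha)
      · obtain ⟨-, -, e', he', hxe⟩ := rW _ h8
        have h9 := h.cand_unique hG (mem_blk.1 h2).1 (fe e' he').1 (feo e he).1 hxe h3.symm
        exact (feo e he).2.2 (h9 ▸ he')
    · intro y hy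
      exact (hIsW y (hWAW (hKWA hy))).1
    · intro w hw
      obtain ⟨h1, ⟨q, hq, hwq⟩, hz⟩ := p0 w hw
      refine ⟨h1, ⟨q, by rw [hP]; exact mem_union_left _ hq, hwq⟩, ?_⟩
      intro z hzc hwz
      obtain ⟨h2, h3, a, ha, hza⟩ := hz z hzc hwz
      refine ⟨fun h4 => ?_, h3⟩
      rcases (mW z).1 h4 with h5 | h5
      · exact h2 h5
      · exact nfr z (rW z h5).1 ⟨a, ha, hza⟩ h5
    · intro w hw
      rcases mem_union.1 hw with hw | hw
      · obtain ⟨h1, q, hq, hwq⟩ := p1 w hw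
        refine ⟨⟨q, by rw [hP]; exact mem_union_left _ hq, hwq⟩, ?_⟩
        intro z hz hwz
        exact absurd (mem_inn.2 ⟨blk_compl (wp w (by simp [hw])), z, hz, hwz⟩) h1
      · obtain ⟨-, -, e, he, hwe⟩ := rW w (by simp [hw])
        exact ⟨⟨e, by rw [hP]; exact mem_union_right _ he, hwe⟩, rN w hw⟩
    · exact p2
    · intro w hw
      rcases mem_union.1 hw with hw | hw
      · rcases pL w hw with ⟨q, hq, hwq⟩ | ⟨z, hz, hwz, h1, h2, h3⟩
        · exact Or.inl ⟨q, by rw [hP]; exact mem_union_left _ hq, hwq⟩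
        · refine Or.inr ⟨z, hz, hwz, fun h4 => ?_, hcand1 z h2⟩
          rcases (mW z).1 h4 with h5 | h5
          · exact h1 h5
          · exact nfr z h2 h3 h5
      · obtain ⟨-, -, e, he, hwe⟩ := rW w (by simp [hw])
        exact Or.inl ⟨e, by rw [hP]; exact mem_union_right _ he, hwe⟩
    · intro q hq
      rw [hP] at hq
      rcases mem_union.1 hq with hq | hq
      · obtain ⟨z, hzb, hqz, h1⟩ := pq q hq
        have hqf := pQ hq
        have h2 := nfr z (mem_blk.1 hzb).1 ⟨q, hqf, hqz.symm⟩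
        refine ⟨z, blk_compl hzb, hqz, fun h3 => (mem_blk.1 hzb).2.1 (mU' z h3).1, ?_⟩
        simp only [mem_union, not_or] at h1 h2 ⊢
        tauto
      · obtain ⟨z, hz, hez⟩ := re q hq
        have hzr : z ∈ Nr ∪ Lr := by simp [hz]
        have h1 : z ∉ N0 ∪ N1 ∪ N2 ∪ L := fun h2 => npr z h2 hzr
        have h2 : z ∉ Nr := fun h3 => disjoint_left.1 rd h3 hz
        refine ⟨z, hrc z hzr, hez, fun h3 => (mU' z h3).2 q hq hez.symm, ?_⟩
        simp only [mem_union, not_or] at h1 ⊢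
        tauto
  obtain ⟨f, hf, hw⟩ := build20 hG h k
  have hWc : W.card = (eo G A D U).card := by
    rw [hWdef, card_image_of_injOn hwi]
  have hWu : W.card ≤ WA.card + ((wb G A D U W).card + (wc G A W).card) := by
    have h1 : W ⊆ WA ∪ (wb G A D U W ∪ wc G A W) := by
      intro y hy
      rw [hWA, mem_union, mem_sdiff]
      tauto
    have h2 := card_le_card h1
    have h3 := card_union_le WA (wb G A D U W ∪ wc G A W)
    have h4 := card_union_le (wb G A D U W) (wc G A W)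
    omega
  refine ⟨f, W, Q, K.card, hf, fun y hy => ⟨(hIsW y hy).1, (hIsW y hy).2.1⟩, by omega, ppair, hw.trans ?_⟩
  have c1 : P.card = Q.card + (er G A D U).card := by
    rw [hP, card_union_of_disjoint]
    rw [disjoint_left]
    exact fun x hx => fer x (pQ hx)
  have c2 : (N1 ∪ Nr).card = N1.card + Nr.card := by
    refine card_union_of_disjoint ?_
    rw [disjoint_left]
    intro x hx hx'
    exact npr x (by simp [hx]) (by simp [hx'])
  have c3 : (L ∪ Lr).card = L.card + Lr.card := by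
    refine card_union_of_disjoint ?_
    rw [disjoint_left]
    intro x hx hx'
    exact npr x (by simp [hx]) (by simp [hx'])
  have hUc : ∀ u ∈ U, u ∈ Aᶜ := fun u hu => cands_compl (h.hUK hu)
  have c4 : flp G A D U ∩ U' = flp G A D U := by
    refine inter_eq_left.2 fun u hu => ?_
    have huU := (mem_filter.1 hu).1
    rw [hU']
    refine mem_filter.2 ⟨huU, fun e he hue => ?_⟩
    obtain ⟨h1, h2, h3, h4⟩ := fe e he
    have e1 := nbc_compl hG e A
    have e2 := nbc_not_inn (mem_sdiff.1 h1).1 h2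
    have hd : Disjoint (blk G A D U) (top0 G A U ∪ low G A D U) := by
      rw [disjoint_left]
      intro x hx hx'
      refine (mem_blk.1 hx).2.1 ?_
      rcases mem_union.1 hx' with hx' | hx'
      · exact (mem_filter.1 hx').1
      · exact (mem_filter.1 hx').1
    have e3 := nbc_union (G := G) e hd
    have hs : blk G A D U ∪ (top0 G A U ∪ low G A D U) ⊆ Aᶜ := by
      intro x hx
      rcases mem_union.1 hx with hx | hx
      · exact blk_compl hx
      · rcases mem_union.1 hx with hx | hx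
        · exact hUc x (mem_filter.1 hx).1
        · exact hUc x (mem_filter.1 hx).1
    have e4 := nbc_sdiff (G := G) e hs
    have hu' : u ∈ Aᶜ \ (blk G A D U ∪ (top0 G A U ∪ low G A D U)) := by
      refine mem_sdiff.2 ⟨hUc u huU, ?_⟩
      intro hx
      rcases mem_union.1 hx with hx | hx
      · exact (mem_blk.1 hx).2.1 huU
      · rcases mem_union.1 hx with hx | hx
        · exact (mem_filter.1 hx).2 (mem_filter.1 hu).2.1
        · exact (mem_filter.1 hx).2.2 (mem_filter.1 hu).2.2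
    have e5 := nbc_pos hu' hue.symm
    omega
  have c5 : (top0 G A U \ U').card + (low G A D U \ U').card ≤ (er G A D U).card := by
    rw [← card_union_of_disjoint]
    · calc (top0 G A U \ U' ∪ low G A D U \ U').card
          ≤ ((er G A D U).biUnion fun e => (top0 G A U ∪ low G A D U).filter fun u => G.Adj e u).card := by
            refine card_le_card fun u hu => ?_
            have h1 : u ∈ top0 G A U ∪ low G A D U ∧ u ∈ U ∧ u ∉ U' := by
              rcases mem_union.1 hu with hu | hu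
              · obtain ⟨h1, h2⟩ := mem_sdiff.1 hu
                exact ⟨mem_union_left _ h1, (mem_filter.1 h1).1, h2⟩
              · obtain ⟨h1, h2⟩ := mem_sdiff.1 hu
                exact ⟨mem_union_right _ h1, (mem_filter.1 h1).1, h2⟩
            obtain ⟨h1, h2, h3⟩ := h1
            rw [hU', mem_filter, not_and] at h3
            have h4 := h3 h2
            push Not at h4
            obtain ⟨e, he, hue⟩ := h4
            exact mem_biUnion.2 ⟨e, he, mem_filter.2 ⟨h1, hue.symm⟩⟩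
        _ ≤ ∑ e ∈ er G A D U, ((top0 G A U ∪ low G A D U).filter fun u => G.Adj e u).card := card_biUnion_le
        _ = ∑ _e ∈ er G A D U, 1 := sum_congr rfl fun e he => (fe e he).2.2.2
        _ = (er G A D U).card := by simp
    · rw [disjoint_left]
      intro x hx hx'
      exact (mem_filter.1 (mem_sdiff.1 hx).1).2 (mem_filter.1 (mem_sdiff.1 hx').1).2.1
  have c6 := card_inter_add_card_sdiff (top0 G A U) U'
  have c7 := card_inter_add_card_sdiff (low G A D U) U'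
  rw [c4, c1, c2, c3]
  push_cast
  omega

theorem side20 (hG : IsCubic G) {A : Finset V} (hA : ∀ a ∈ A, nbc G a A ≤ 1)
    (hB : ∀ b ∈ Aᶜ, nbc G b Aᶜ ≤ 1)
    (hMC : ∀ a ∈ inn G A, ∀ y ∈ inn G Aᶜ, ∀ z ∈ inn G Aᶜ, G.Adj a y → G.Adj a z → y ≠ z → G.Adj y z) :
    ∃ (f : V → ℤ) (d g : ℕ), IsSDRDF G f ∧
      ∑ v, f v + g ≤ 2 * (Aᶜ.card : ℤ) - A.card + 2 * d ∧
      4 * d + (inn G Aᶜ).card ≤ A.card + Aᶜ.card ∧
      6 * d ≤ 5 * g + 2 * (Aᶜ \ inn G Aᶜ).card + 3 * (inn G A).card := by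
  obtain ⟨D, U, h, hDc⟩ := exists_conf hG hA hB hMC
  obtain ⟨f, W, Q, c, hf, hW, hc, hQ, hw⟩ := exists_function20 hG h
  have h1 := count20 hG h hW
  have h2 := pair20 hG h hW hQ
  have h3 := e0_split (G := G) (A := A) (D := D) (U := U)
  refine ⟨f, D.card, (top0 G A U).card + (low G A D U).card + 2 * (flp G A D U).card +
    (er G A D U).card + Q.card + c, hf, ?_, hDc, ?_⟩
  · push_cast at hw ⊢
    linarith
  · omega

theorem exists_light20 (hG : IsCubic G) :
    ∃ f : V → ℤ, IsSDRDF G f ∧ 10 * ∑ v, f v ≤ 9 * (Fintype.card V : ℤ) := by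
  obtain ⟨A, hA, hB, hMC, hMC'⟩ := exists_max_cut hG
  obtain ⟨f, d, g, hf, h1, h2, h3⟩ := side20 hG hA hB hMC
  obtain ⟨f', d', g', hf', h1', h2', h3'⟩ := side20 hG (A := Aᶜ) hB
    (by rwa [compl_compl]) (by rwa [compl_compl])
  rw [compl_compl] at h1' h2' h3'
  have hn := card_add_card_compl A
  have e1 := card_sdiff_add_card_eq_card (show inn G A ⊆ A from filter_subset _ _)
  have e2 := card_sdiff_add_card_eq_card (show inn G Aᶜ ⊆ Aᶜ from filter_subset _ _)
  by_cases h : 10 * ∑ v, f v ≤ 9 * (Fintype.card V : ℤ)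
  · exact ⟨f, hf, h⟩
  · refine ⟨f', hf', ?_⟩
    omega

end Pool.Agent.MP_eb164e_co.UB
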